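import Pool.Agent.P.MP_d483fb_an.Base

set_option autoImplicit false

namespace Pool.Agent.P.MP_d483fb_an

open scoped Manifold ContDiff

section
open scoped RealInnerProductSpace

theorem Cover_key {E W : Type} [NormedAddCommGroup E] [NormedSpace ℝ E]
    [NormedAddCommGroup W] [InnerProductSpace ℝ W]
    (B : Set E) (hB : Convex ℝ B) (Ψ : E → W) (D : E → E →L[ℝ] W) (L : E →L[ℝ] W)
    (κ K ρ : ℝ) (a : W) (hκ : 0 < κ)
    (hD : ∀ u ∈ B, HasFDerivAt Ψ (D u) u) (hL : ∀ h, κ * ‖h‖ ≤ ‖L h‖)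
    (hDL : ∀ u ∈ B, ‖D u - L‖ ≤ κ / 4)
    (hLip : ∀ u ∈ B, ∀ v ∈ B, ‖D u - D v‖ ≤ K * ‖u - v‖)
    (hρ : ∀ u ∈ B, ‖Ψ u - a‖ ≤ ρ) (hρK : ρ * K ≤ 7 * κ ^ 2 / 16)
    (u : E) (hu : u ∈ B) (v : E) (hv : v ∈ B) :
    ⟪Ψ u - a, D u (v - u)⟫ ≤ ⟪Ψ v - a, D v (v - u)⟫ := by
  set h := v - u with hh
  -- mean value
  have hmv : ‖Ψ v - Ψ u - L h‖ ≤ κ / 4 * ‖h‖ :=
    hB.norm_image_sub_le_of_norm_hasFDerivWithin_le' (fun x hx => (hD x hx).hasFDerivWithinAt)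
      hDL hu hv
  have h1 : ‖D v h - L h‖ ≤ κ / 4 * ‖h‖ := by
    have := (D v - L).le_opNorm h
    simp only [sub_apply] at this
    exact this.trans (mul_le_mul_of_nonneg_right (hDL v hv) (norm_nonneg _))
  have h2 : ‖D v h - D u h‖ ≤ K * ‖h‖ * ‖h‖ := by
    have := (D v - D u).le_opNorm h
    simp only [sub_apply] at this
    exact this.trans (mul_le_mul_of_nonneg_right (hLip v hv u hu) (norm_nonneg _))
  set e1 := Ψ v - Ψ u - L h with he1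
  set e2 := D v h - L h with he2
  have hA : ⟪Ψ v - a, D v h⟫ - ⟪Ψ u - a, D u h⟫
      = ⟪L h + e1, L h + e2⟫ + ⟪Ψ u - a, D v h - D u h⟫ := by
    have a1 : L h + e1 = (Ψ v - a) - (Ψ u - a) := by rw [he1]; abel
    have a2 : L h + e2 = D v h := by rw [he2]; abel
    rw [a1, a2, inner_sub_left (Ψ v - a), inner_sub_right (Ψ u - a)]; ring
  have hB1 : ⟪L h + e1, L h + e2⟫ = ‖L h‖ ^ 2 + ⟪L h, e2⟫ + ⟪e1, L h⟫ + ⟪e1, e2⟫ := by
    rw [inner_add_left, inner_add_right, inner_add_right, real_inner_self_eq_norm_sq]; ring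
  have b1 : -(‖L h‖ * ‖e2‖) ≤ ⟪L h, e2⟫ := by
    have := abs_real_inner_le_norm (L h) e2; exact neg_le_of_abs_le this
  have b2 : -(‖e1‖ * ‖L h‖) ≤ ⟪e1, L h⟫ := by
    have := abs_real_inner_le_norm e1 (L h); exact neg_le_of_abs_le this
  have b3 : -(‖e1‖ * ‖e2‖) ≤ ⟪e1, e2⟫ := by
    have := abs_real_inner_le_norm e1 e2; exact neg_le_of_abs_le this
  have b4 : -(‖Ψ u - a‖ * ‖D v h - D u h‖) ≤ ⟪Ψ u - a, D v h - D u h⟫ := by
    have := abs_real_inner_le_norm (Ψ u - a) (D v h - D u h); exact neg_le_of_abs_le this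
  have hn := norm_nonneg h
  have hLh := hL h
  have hLn := norm_nonneg (L h)
  set t := κ * ‖h‖ with ht
  have ht0 : 0 ≤ t := by positivity
  have m1 : ‖e1‖ ≤ t / 4 := by rw [ht]; linarith
  have m2 : ‖e2‖ ≤ t / 4 := by rw [ht]; linarith
  have n1 := norm_nonneg e1
  have n2 := norm_nonneg e2
  have c1 : ‖L h‖ * ‖e2‖ ≤ ‖L h‖ * (t / 4) := mul_le_mul_of_nonneg_left m2 hLn
  have c2 : ‖e1‖ * ‖L h‖ ≤ (t / 4) * ‖L h‖ := mul_le_mul_of_nonneg_right m1 hLn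
  have c3 : ‖e1‖ * ‖e2‖ ≤ (t / 4) * (t / 4) := mul_le_mul m1 m2 n2 (by positivity)
  have hρ0 : 0 ≤ ρ := (norm_nonneg _).trans (hρ u hu)
  have c4 : ‖Ψ u - a‖ * ‖D v h - D u h‖ ≤ ρ * (K * ‖h‖ * ‖h‖) :=
    mul_le_mul (hρ u hu) h2 (norm_nonneg _) hρ0
  have c5 : ρ * (K * ‖h‖ * ‖h‖) ≤ 7 * t ^ 2 / 16 := by
    have : ρ * (K * ‖h‖ * ‖h‖) = (ρ * K) * ‖h‖ ^ 2 := by ring
    rw [this, ht]
    have := mul_le_mul_of_nonneg_right hρK (sq_nonneg ‖h‖)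
    nlinarith
  have c6 : t ^ 2 / 2 ≤ ‖L h‖ ^ 2 - ‖L h‖ * (t / 2) := by nlinarith
  nlinarith

theorem Cover_seg {E W : Type} [NormedAddCommGroup E] [NormedSpace ℝ E]
    [NormedAddCommGroup W] [InnerProductSpace ℝ W]
    (B : Set E) (hB : Convex ℝ B) (Ψ : E → W) (D : E → E →L[ℝ] W) (L : E →L[ℝ] W)
    (κ K ρ : ℝ) (a : W) (hκ : 0 < κ)
    (hD : ∀ u ∈ B, HasFDerivAt Ψ (D u) u) (hL : ∀ h, κ * ‖h‖ ≤ ‖L h‖)
    (hDL : ∀ u ∈ B, ‖D u - L‖ ≤ κ / 4)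
    (hLip : ∀ u ∈ B, ∀ v ∈ B, ‖D u - D v‖ ≤ K * ‖u - v‖)
    (hρ : ∀ u ∈ B, ‖Ψ u - a‖ ≤ ρ) (hρK : ρ * K ≤ 7 * κ ^ 2 / 16) (r : ℝ) :
    Convex ℝ {u | u ∈ B ∧ dist (Ψ u) a < r} := by
  intro x hx y hy s t hs ht hst
  have hmem : ∀ τ ∈ Set.Icc (0 : ℝ) 1, x + τ • (y - x) ∈ B := fun τ hτ =>
    hB.add_smul_sub_mem hx.1 hy.1 hτ
  set φ : ℝ → ℝ := fun τ => ⟪Ψ (x + τ • (y - x)) - a, Ψ (x + τ • (y - x)) - a⟫ with hφ
  set φ' : ℝ → ℝ := fun τ => 2 * ⟪Ψ (x + τ • (y - x)) - a, D (x + τ • (y - x)) (y - x)⟫ with hφ'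
  have hder : ∀ τ ∈ Set.Icc (0 : ℝ) 1, HasDerivAt φ (φ' τ) τ := by
    intro τ hτ
    have l1 : HasDerivAt (fun τ : ℝ => x + τ • (y - x)) (y - x) τ := by
      simpa using ((hasDerivAt_id τ).smul_const (y - x)).const_add x
    have l2 : HasDerivAt (fun τ : ℝ => Ψ (x + τ • (y - x)) - a)
        (D (x + τ • (y - x)) (y - x)) τ :=
      ((hD _ (hmem τ hτ)).comp_hasDerivAt τ l1).sub_const a
    have l3 := l2.inner ℝ l2
    have l4 : φ' τ = ⟪Ψ (x + τ • (y - x)) - a, D (x + τ • (y - x)) (y - x)⟫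
        + ⟪D (x + τ • (y - x)) (y - x), Ψ (x + τ • (y - x)) - a⟫ := by
      rw [real_inner_comm (Ψ (x + τ • (y - x)) - a) (D (x + τ • (y - x)) (y - x)), hφ']; ring
    rw [l4]
    exact l3
  have hmono : MonotoneOn φ' (Set.Icc (0 : ℝ) 1) := by
    intro p hp q hq hpq
    rcases hpq.eq_or_lt with rfl | hlt
    · exact le_rfl
    have key := Cover_key B hB Ψ D L κ K ρ a hκ hD hL hDL hLip hρ hρK _ (hmem p hp) _
      (hmem q hq)
    have e : x + q • (y - x) - (x + p • (y - x)) = (q - p) • (y - x) := by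
      rw [sub_smul]; abel
    rw [e, map_smul, map_smul, inner_smul_right, inner_smul_right] at key
    have := le_of_mul_le_mul_left key (sub_pos.2 hlt)
    simp only [hφ']; linarith
  have hconv : ConvexOn ℝ (Set.Icc (0 : ℝ) 1) φ := by
    refine MonotoneOn.convexOn_of_deriv (convex_Icc 0 1)
      (fun τ hτ => (hder τ hτ).continuousAt.continuousWithinAt)
      (fun τ hτ => (hder τ (interior_subset hτ)).differentiableAt.differentiableWithinAt) ?_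
    intro p hp q hq hpq
    rw [(hder p (interior_subset hp)).deriv, (hder q (interior_subset hq)).deriv]
    exact hmono (interior_subset hp) (interior_subset hq) hpq
  have ht1 : t ≤ 1 := by linarith
  have e : s • x + t • y = x + t • (y - x) := by
    have : s = 1 - t := by linarith
    rw [this, sub_smul, one_smul, smul_sub]; abel
  rw [e]
  refine ⟨hmem t ⟨ht, ht1⟩, ?_⟩
  have hc := hconv.2 (show (0 : ℝ) ∈ Set.Icc (0 : ℝ) 1 from ⟨le_rfl, zero_le_one⟩)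
    (show (1 : ℝ) ∈ Set.Icc (0 : ℝ) 1 from ⟨zero_le_one, le_rfl⟩) hs ht hst
  simp only [hφ, smul_eq_mul, mul_zero, mul_one, zero_add, zero_smul, add_zero, one_smul,
    add_sub_cancel, real_inner_self_eq_norm_sq] at hc
  have hx2 := hx.2
  have hy2 := hy.2
  rw [dist_eq_norm] at hx2 hy2 ⊢
  have hr : 0 < r := (norm_nonneg _).trans_lt hx2
  have q1 : ‖Ψ x - a‖ ^ 2 < r ^ 2 := pow_lt_pow_left₀ hx2 (norm_nonneg _) two_ne_zero
  have q2 : ‖Ψ y - a‖ ^ 2 < r ^ 2 := pow_lt_pow_left₀ hy2 (norm_nonneg _) two_ne_zero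
  have q3 : s * ‖Ψ x - a‖ ^ 2 + t * ‖Ψ y - a‖ ^ 2 < r ^ 2 := by
    rcases hs.eq_or_lt with h0 | h0
    · have : t = 1 := by linarith
      rw [← h0, this]; linarith
    · have := mul_lt_mul_of_pos_left q1 h0
      have := mul_le_mul_of_nonneg_left q2.le ht
      have : s * r ^ 2 + t * r ^ 2 = r ^ 2 := by rw [← add_mul, hst, one_mul]
      linarith
  exact lt_of_pow_lt_pow_left₀ 2 hr.le (hc.trans_lt q3)


theorem Cover_local {E W : Type} [NormedAddCommGroup E] [NormedSpace ℝ E] [FiniteDimensional ℝ E]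
    [NormedAddCommGroup W] [InnerProductSpace ℝ W]
    (Ψ : E → W) (u₀ : E) (hΨ : ContDiffAt ℝ 2 Ψ u₀) (hinj : Function.Injective (fderiv ℝ Ψ u₀))
    (T : Set E) (hT : T ∈ nhds u₀) :
    ∃ ε : ℝ, 0 < ε ∧ Metric.ball u₀ ε ⊆ T ∧ ∃ η : ℝ, 0 < η ∧ ∀ a : W, dist a (Ψ u₀) < η →
      ∀ r : ℝ, Convex ℝ {u | u ∈ Metric.ball u₀ ε ∧ dist (Ψ u) a < r} := by
  obtain ⟨C, hC0, hC⟩ := (fderiv ℝ Ψ u₀ : E →ₗ[ℝ] W).exists_antilipschitzWith
    (LinearMap.ker_eq_bot.2 hinj)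
  set κ : ℝ := (C : ℝ)⁻¹ with hκ
  have hCpos : (0 : ℝ) < C := hC0
  have hκ0 : 0 < κ := inv_pos.2 hCpos
  have hL : ∀ h, κ * ‖h‖ ≤ ‖fderiv ℝ Ψ u₀ h‖ := by
    intro h
    have := hC.le_mul_dist h 0
    simp only [dist_zero_right, map_zero, ContinuousLinearMap.coe_coe] at this
    rw [hκ, inv_mul_le_iff₀ hCpos]; exact this
  have hD1 : ContDiffAt ℝ 1 (fderiv ℝ Ψ) u₀ := hΨ.fderiv_right (by norm_num)
  obtain ⟨K, t, ht, hLip⟩ := hD1.exists_lipschitzOnWith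
  have hev : ∀ᶠ u in nhds u₀, ContDiffAt ℝ 2 Ψ u := hΨ.eventually (by simp)
  have hcD : ∀ᶠ u in nhds u₀, ‖fderiv ℝ Ψ u - fderiv ℝ Ψ u₀‖ ≤ κ / 4 := by
    have := (Metric.tendsto_nhds.1 hD1.continuousAt) (κ / 4) (by positivity)
    filter_upwards [this] with u hu
    rw [dist_eq_norm] at hu; exact hu.le
  set ρ : ℝ := 7 * κ ^ 2 / 16 / (K + 1) with hρ
  have hK0 : (0 : ℝ) ≤ K := K.2
  have hρ0 : 0 < ρ := by positivity
  have hcΨ : ∀ᶠ u in nhds u₀, dist (Ψ u) (Ψ u₀) < ρ / 2 :=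
    (Metric.tendsto_nhds.1 hΨ.continuousAt) (ρ / 2) (by positivity)
  have hall := hev.and (hcD.and (hcΨ.and (Filter.inter_mem ht hT)))
  obtain ⟨ε, hε, hball⟩ := Metric.eventually_nhds_iff_ball.1 hall
  refine ⟨ε, hε, fun u hu => (hball u hu).2.2.2.2, ρ / 2, by positivity, fun a ha r => ?_⟩
  refine Cover_seg _ (convex_ball u₀ ε) Ψ (fderiv ℝ Ψ) (fderiv ℝ Ψ u₀) κ K ρ a hκ0
    (fun u hu => ((hball u hu).1.differentiableAt (by norm_num)).hasFDerivAt) hL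
    (fun u hu => (hball u hu).2.1) (fun u hu v hv => ?_) (fun u hu => ?_) ?_ r
  · have := hLip.dist_le_mul u (hball u hu).2.2.2.1 v (hball v hv).2.2.2.1
    rwa [dist_eq_norm, dist_eq_norm] at this
  · rw [← dist_eq_norm]
    have := dist_triangle_right (Ψ u) a (Ψ u₀)
    have := (hball u hu).2.2.1
    linarith
  · rw [hρ, div_mul_eq_mul_div, div_le_iff₀ (by positivity)]
    have : 0 ≤ 7 * κ ^ 2 / 16 := by positivity
    nlinarith

end

variable {m : ℕ} {M : Type} [TopologicalSpace M] [T2Space M] [CompactSpace M]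
  [ChartedSpace (EuclideanSpace ℝ (Fin m)) M] [IsManifold (𝓡 m) ∞ M]

/-- Small balls of an embedded compact manifold form a good cover. -/
theorem exists_convex_radius {W : Type} [NormedAddCommGroup W] [InnerProductSpace ℝ W]
    (Φ : M → W) (hΦ : ContMDiff (𝓡 m) 𝓘(ℝ, W) ∞ Φ) (hinj : Function.Injective Φ)
    (himm : ∀ x, Function.Injective (mfderiv (𝓡 m) 𝓘(ℝ, W) Φ x)) :
    ∃ r₀ : ℝ, 0 < r₀ ∧ ∀ r : ℝ, 0 < r → r ≤ r₀ → ∀ σ : Finset M, σ.Nonempty →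
      (⋂ x ∈ σ, {y | dist (Φ y) (Φ x) < r}).Nonempty →
        ContractibleSpace ↥(⋂ x ∈ σ, {y | dist (Φ y) (Φ x) < r}) := by
  have hloc : ∀ p : M, ∃ ε : ℝ, 0 < ε ∧
      Metric.ball (chartAt (EuclideanSpace ℝ (Fin m)) p p) ε ⊆
        (chartAt (EuclideanSpace ℝ (Fin m)) p).target ∧ ∃ η : ℝ, 0 < η ∧
      ∀ a : W, dist a (Φ p) < η → ∀ r : ℝ,
        Convex ℝ {u | u ∈ Metric.ball (chartAt (EuclideanSpace ℝ (Fin m)) p p) ε ∧
          dist (Φ ((chartAt (EuclideanSpace ℝ (Fin m)) p).symm u)) a < r} := by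
    intro p
    have h1 := (contMDiffAt_iff.1 (hΦ p)).2
    have h2 := himm p
    rw [((hΦ p).mdifferentiableAt (by simp)).mfderiv] at h2
    simp only [extChartAt_model_space_eq_id, PartialEquiv.refl_coe, Function.id_comp,
      modelWithCornersSelf_coe, Set.range_id, contDiffWithinAt_univ, fderivWithin_univ,
      writtenInExtChartAt] at h1 h2
    have h3 := Cover_local (Φ ∘ (extChartAt (𝓡 m) p).symm) (extChartAt (𝓡 m) p p)
      (h1.of_le (show ((2 : ℕ∞) : WithTop ℕ∞) ≤ ((⊤ : ℕ∞) : WithTop ℕ∞) from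
        WithTop.coe_le_coe.2 le_top)) h2 (chartAt (EuclideanSpace ℝ (Fin m)) p).target
      ((chartAt (EuclideanSpace ℝ (Fin m)) p).open_target.mem_nhds (mem_chart_target _ p))
    obtain ⟨ε, hε, hsub, η, hη, hc⟩ := h3
    refine ⟨ε, hε, hsub, η, hη, fun a ha r => hc a ?_ r⟩
    simpa only [Function.comp_apply, extChartAt_to_inv] using ha
  choose ε hε hsub η hη hc using hloc
  have hemb := hΦ.continuous.isClosedEmbedding hinj
  have hV : ∀ p : M, ∃ V : Set W, IsOpen V ∧ Φ ⁻¹' V =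
      (chartAt (EuclideanSpace ℝ (Fin m)) p).source ∩ chartAt (EuclideanSpace ℝ (Fin m)) p ⁻¹'
        Metric.ball (chartAt (EuclideanSpace ℝ (Fin m)) p p) (ε p) := fun p =>
    hemb.isInducing.isOpen_iff.1
      ((chartAt (EuclideanSpace ℝ (Fin m)) p).isOpen_inter_preimage Metric.isOpen_ball)
  choose V hVo hV using hV
  obtain ⟨δ, hδ, hleb⟩ := lebesgue_number_lemma_of_metric (s := Set.range Φ)
    (c := fun p => V p ∩ Metric.ball (Φ p) (η p)) (isCompact_range hΦ.continuous)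
    (fun p => (hVo p).inter Metric.isOpen_ball) (by
      rintro _ ⟨p, rfl⟩
      refine Set.mem_iUnion.2 ⟨p, ?_, Metric.mem_ball_self (hη p)⟩
      have : p ∈ Φ ⁻¹' V p := by
        rw [hV]; exact ⟨mem_chart_source _ p, Metric.mem_ball_self (hε p)⟩
      exact this)
  refine ⟨δ / 2, by positivity, fun r hr hrδ σ hσ hne => ?_⟩
  obtain ⟨y₀, hy₀⟩ := hne
  obtain ⟨p, hp⟩ := hleb (Φ y₀) ⟨y₀, rfl⟩
  obtain ⟨x₀, hx₀⟩ := hσ
  set c := chartAt (EuclideanSpace ℝ (Fin m)) p with hcdef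
  set S : Set M := ⋂ x ∈ σ, {y | dist (Φ y) (Φ x) < r} with hS
  have hmemS : ∀ y, y ∈ S ↔ ∀ x ∈ σ, dist (Φ y) (Φ x) < r := by
    intro y; simp only [hS, Set.mem_iInter, Set.mem_ofPred_eq]
  have hSO : ∀ y ∈ S, y ∈ c.source ∧ c y ∈ Metric.ball (c p) (ε p) := by
    intro y hy
    have d1 := (hmemS y).1 hy x₀ hx₀
    have d2 := (hmemS y₀).1 hy₀ x₀ hx₀
    have d3 := dist_triangle_right (Φ y) (Φ y₀) (Φ x₀)
    have : y ∈ Φ ⁻¹' V p := (hp (show dist (Φ y) (Φ y₀) < δ by linarith)).1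
    rw [hV] at this
    exact this
  have hσp : ∀ x ∈ σ, dist (Φ x) (Φ p) < η p := by
    intro x hx
    have d2 := (hmemS y₀).1 hy₀ x hx
    rw [dist_comm] at d2
    exact (hp (show dist (Φ x) (Φ y₀) < δ by linarith)).2
  have himg : c '' S = ⋂ x ∈ σ, {u | u ∈ Metric.ball (c p) (ε p) ∧
      dist (Φ (c.symm u)) (Φ x) < r} := by
    ext u
    simp only [Set.mem_iInter, Set.mem_ofPred_eq, Set.mem_image]
    constructor
    · rintro ⟨y, hy, rfl⟩ x hx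
      refine ⟨(hSO y hy).2, ?_⟩
      rw [c.left_inv (hSO y hy).1]
      exact (hmemS y).1 hy x hx
    · intro hu
      exact ⟨c.symm u, (hmemS _).2 fun x hx => (hu x hx).2,
        c.right_inv (hsub p (hu x₀ hx₀).1)⟩
  have hconv : Convex ℝ (c '' S) := by
    rw [himg]
    exact convex_iInter₂ fun x hx => hc p (Φ x) (hσp x hx) r
  have := hconv.contractibleSpace ⟨c y₀, y₀, hy₀, rfl⟩
  exact (c.homeomorphOfImageSubsetSource (fun y hy => (hSO y hy).1) rfl).contractibleSpace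

end Pool.Agent.P.MP_d483fb_an
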