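import Pool.Agent.P.MP_d483fb_an.Base

set_option autoImplicit false

namespace Pool.Agent.P.MP_d483fb_an

section Aux

variable {W X Y : Type} [AddCommGroup W] [Module ℚ W] [AddCommGroup X] [Module ℚ X]
  [AddCommGroup Y] [Module ℚ Y]

theorem Rd_same_ker (f : W →ₗ[ℚ] X) (g : W →ₗ[ℚ] Y) (A : Submodule ℚ W)
    (h : ∀ a ∈ A, f a = 0 ↔ g a = 0) : Module.rank ℚ (A.map f) = Module.rank ℚ (A.map g) := by
  have e : LinearMap.ker (f.domRestrict A) = LinearMap.ker (g.domRestrict A) := by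
    ext a; exact h a a.2
  rw [← LinearMap.range_domRestrict, ← LinearMap.range_domRestrict,
    ← (f.domRestrict A).quotKerEquivRange.rank_eq, ← (g.domRestrict A).quotKerEquivRange.rank_eq, e]

theorem Rd_map_add (S : Submodule ℚ W) (f : W →ₗ[ℚ] X) :
    Module.rank ℚ S = Module.rank ℚ (S.map f) +
      Module.rank ℚ (S ⊓ LinearMap.ker f : Submodule ℚ W) := by
  have h := LinearMap.rank_range_add_rank_ker (f.domRestrict S)
  rw [LinearMap.range_domRestrict, LinearMap.ker_domRestrict] at h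
  rw [← h, ← Submodule.map_comap_subtype, ← (Submodule.equivMapOfInjective S.subtype
    S.injective_subtype _).rank_eq]

theorem Rd_congr {A B B' : Submodule ℚ W} (h : ∀ a ∈ A, a ∈ B ↔ a ∈ B') : rd A B = rd A B' :=
  Rd_same_ker _ _ A fun a ha => by simpa using h a ha

theorem Rd_eq_of {A A' B : Submodule ℚ W} (h1 : A ≤ A' ⊔ B) (h2 : A' ≤ A ⊔ B) :
    rd A' B = rd A B := by
  have key : ∀ {A A' : Submodule ℚ W}, A ≤ A' ⊔ B → A.map B.mkQ ≤ A'.map B.mkQ := by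
    intro A A' h
    refine (Submodule.map_mono h).trans ?_
    rw [Submodule.map_sup, Submodule.mkQ_map_self, sup_bot_eq]
  unfold rd
  rw [le_antisymm (key h1) (key h2)]

theorem Rd_self (A : Submodule ℚ W) : rd A A = 0 := by
  unfold rd
  rw [Submodule.mkQ_map_self, rank_bot]

theorem Rd_add {B M Z : Submodule ℚ W} (h1 : B ≤ M) (h2 : M ≤ Z) : rd Z B = rd Z M + rd M B := by
  have e : Z.map B.mkQ ⊓ LinearMap.ker (Submodule.factor h1) = M.map B.mkQ := by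
    ext x
    constructor
    · rintro ⟨⟨z, -, rfl⟩, hx⟩
      exact ⟨z, by simpa using hx, rfl⟩
    · rintro ⟨z, hz, rfl⟩
      exact ⟨⟨z, h2 hz, rfl⟩, by simpa using hz⟩
  unfold rd
  rw [Rd_map_add (Z.map B.mkQ) (Submodule.factor h1), ← Submodule.map_comp,
    Submodule.factor_comp_mk, e]

theorem Rd_modular {B Z : Submodule ℚ W} (h : B ≤ Z) (M : Submodule ℚ W) :
    rd Z B = rd (Z ⊔ M) (B ⊔ M) + rd (Z ⊓ M) (B ⊓ M) := by
  rw [Rd_add (M := B ⊔ Z ⊓ M) le_sup_left (sup_le h inf_le_left)]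
  congr 1
  · rw [Rd_eq_of (A := Z) (A' := Z ⊔ M) (le_sup_left.trans le_sup_left)
      (sup_le_sup_left le_sup_right _)]
    refine Rd_congr fun a ha => ⟨fun k => sup_le_sup_left (inf_le_right : Z ⊓ M ≤ M) B k, fun k => ?_⟩
    rw [inf_comm, ← sup_inf_assoc_of_le _ h]
    exact ⟨k, ha⟩
  · rw [Rd_eq_of (A := Z ⊓ M) (A' := B ⊔ Z ⊓ M) (le_sup_right.trans le_sup_left)
      (by rw [sup_comm])]
    exact Rd_congr fun a ha => ⟨fun k => ⟨k, ha.2⟩, fun k => k.1⟩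

theorem Rd_two {B1 Z1 B2 Z2 : Submodule ℚ W} (h1 : B1 ≤ Z1) (h2 : B2 ≤ Z2) :
    rd Z1 B1 + rd Z2 B2 = rd (Z1 ⊔ Z2) (B1 ⊔ B2) + rd (Z1 ⊓ Z2) (B1 ⊓ B2) := by
  rw [Rd_modular h1 Z2, Rd_modular h2 B1, sup_comm Z2, sup_comm B2, inf_comm Z2, inf_comm B2,
    Rd_add (Z := Z1 ⊔ Z2) (sup_le_sup_left h2 B1) (sup_le_sup_right h1 Z2),
    Rd_add (Z := Z1 ⊓ Z2) (inf_le_inf_left B1 h2) (inf_le_inf_right Z2 h1)]
  ring

end Aux

variable {V : ℕ → Type} [∀ n, AddCommGroup (V n)] [∀ n, Module ℚ (V n)]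
  {d : ∀ n, V (n + 1) →ₗ[ℚ] V n}

theorem Rd_cyc_le (K : ∀ n, Submodule ℚ (V n)) (n : ℕ) : cyc d K n ≤ K n := by
  cases n with
  | zero => exact le_rfl
  | succ n => exact inf_le_left

theorem Rd_cyc_mono {K K' : ∀ n, Submodule ℚ (V n)} (h : K ≤ K') (n : ℕ) :
    cyc d K n ≤ cyc d K' n := by
  cases n with
  | zero => exact h 0
  | succ n => exact inf_le_inf_right _ (h _)

theorem Rd_mem_cyc {K K' : ∀ n, Submodule ℚ (V n)} (n : ℕ) {z : V n} (h : z ∈ K n)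
    (h' : z ∈ cyc d K' n) : z ∈ cyc d K n := by
  cases n with
  | zero => exact h
  | succ n => exact ⟨h, h'.2⟩

theorem Rd_conn (A C : ∀ n, Submodule ℚ (V n)) (n : ℕ) :
    rd (cyc d (A ⊔ C) (n + 1)) (cyc d A (n + 1) ⊔ cyc d C (n + 1)) =
      rd (bdy d A n ⊓ bdy d C n) (bdy d (A ⊓ C) n) := by
  have mc : ∀ (K : ∀ n, Submodule ℚ (V n)) (z : V (n + 1)),
      z ∈ cyc d K (n + 1) ↔ z ∈ K (n + 1) ∧ d n z = 0 := fun _ _ => Iff.rfl
  set D := A (n + 1) ⊓ (bdy d C n).comap (d n) with hD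
  have e1 : rd (cyc d (A ⊔ C) (n + 1)) (cyc d A (n + 1) ⊔ cyc d C (n + 1)) =
      rd (cyc d (A ⊔ C) (n + 1)) (cyc d A (n + 1) ⊔ C (n + 1)) := by
    refine Rd_congr fun z hz => ⟨fun k => sup_le_sup_left (Rd_cyc_le C _) _ k, fun k => ?_⟩
    obtain ⟨a, ha, c, hc, rfl⟩ := Submodule.mem_sup.1 k
    refine Submodule.add_mem_sup ha ((mc _ _).2 ⟨hc, ?_⟩)
    have := ((mc _ _).1 hz).2
    rwa [map_add, ((mc _ _).1 ha).2, zero_add] at this
  have e2 : rd (cyc d (A ⊔ C) (n + 1)) (cyc d A (n + 1) ⊔ C (n + 1)) =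
      rd D (cyc d A (n + 1) ⊔ C (n + 1)) := by
    refine Rd_eq_of ?_ ?_
    · rintro a ⟨ha, c, hc, e⟩
      refine Submodule.mem_sup.2 ⟨a - c, (mc _ _).2 ⟨?_, by rw [map_sub, e, sub_self]⟩, c,
        Submodule.mem_sup_right hc, by abel⟩
      exact Submodule.sub_mem _ (Submodule.mem_sup_left ha) (Submodule.mem_sup_right hc)
    · intro z hz
      obtain ⟨h1, h2⟩ := (mc _ _).1 hz
      obtain ⟨a, ha, c, hc, rfl⟩ := Submodule.mem_sup.1 h1
      refine Submodule.add_mem_sup ⟨ha, -c, Submodule.neg_mem _ hc, ?_⟩ (Submodule.mem_sup_right hc)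
      rw [map_add] at h2
      rw [map_neg, eq_neg_of_add_eq_zero_left h2]
  have e3 : D.map (d n) = bdy d A n ⊓ bdy d C n := by
    ext y
    constructor
    · rintro ⟨a, ⟨h1, h2⟩, rfl⟩; exact ⟨⟨a, h1, rfl⟩, h2⟩
    · rintro ⟨⟨a, h1, rfl⟩, h2⟩; exact ⟨a, ⟨h1, h2⟩, rfl⟩
  rw [e1, e2, ← e3]
  unfold rd
  rw [← Submodule.map_comp]
  refine Rd_same_ker _ _ D fun a ha => ?_
  simp only [Submodule.mkQ_apply, Submodule.Quotient.mk_eq_zero, LinearMap.comp_apply]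
  constructor
  · intro k
    obtain ⟨a', ha', c, hc, rfl⟩ := Submodule.mem_sup.1 k
    obtain ⟨h1, h2⟩ := (mc _ _).1 ha'
    refine ⟨c, ⟨?_, hc⟩, by rw [map_add, h2, zero_add]⟩
    simpa using Submodule.sub_mem _ ha.1 h1
  · rintro ⟨i, hi, e⟩
    exact Submodule.mem_sup.2 ⟨a - i, (mc _ _).2 ⟨Submodule.sub_mem _ ha.1 hi.1,
      by rw [map_sub, e, sub_self]⟩, i, hi.2, by abel⟩

theorem Rd_chi (K : ∀ n, Submodule ℚ (V n)) {N : ℕ} (h : ∀ n, N ≤ n → hr d K n = 0) :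
    chi d K = ∑ n ∈ Finset.range N, (-1) ^ n * (Cardinal.toNat (hr d K n) : ℤ) := by
  refine finsum_eq_sum_of_support_subset _ fun n hn => ?_
  by_contra hc
  exact hn (by simp [h n (by simpa using hc)])

/-- Mayer-Vietoris additivity. -/
theorem mv {A C : ∀ n, Submodule ℚ (V n)} (hA : IsCx d A) (hC : IsCx d C) (fA : FT d A)
    (fC : FT d C) (fI : FT d (A ⊓ C)) :
    FT d (A ⊔ C) ∧ chi d (A ⊔ C) = chi d A + chi d C - chi d (A ⊓ C) := by
  set x := fun n => rd (cyc d (A ⊔ C) n) (cyc d A n ⊔ cyc d C n) with hx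
  set p := fun n => rd (cyc d A n ⊔ cyc d C n) (bdy d A n ⊔ bdy d C n) with hp
  set q := fun n => rd (cyc d A n ⊓ cyc d C n) (bdy d A n ⊓ bdy d C n) with hq
  have e0 : x 0 = 0 := Rd_self _
  have eS : ∀ n, hr d (A ⊔ C) n = x n + p n := fun n => by
    have : bdy d (A ⊔ C) n = bdy d A n ⊔ bdy d C n := Submodule.map_sup _ _ _
    unfold hr
    rw [this]
    exact Rd_add (sup_le_sup (hA n) (hC n))
      (sup_le (Rd_cyc_mono le_sup_left n) (Rd_cyc_mono le_sup_right n))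
  have eI : ∀ n, hr d (A ⊓ C) n = q n + x (n + 1) := fun n => by
    have : cyc d (A ⊓ C) n = cyc d A n ⊓ cyc d C n :=
      le_antisymm (le_inf (Rd_cyc_mono inf_le_left n) (Rd_cyc_mono inf_le_right n))
        fun z hz => Rd_mem_cyc n ⟨Rd_cyc_le A n hz.1, Rd_cyc_le C n hz.2⟩ hz.1
    unfold hr
    rw [this, show x (n + 1) = _ from Rd_conn A C n]
    exact Rd_add (Submodule.map_inf_le _) (inf_le_inf (hA n) (hC n))
  have eA : ∀ n, hr d A n + hr d C n = p n + q n := fun n => Rd_two (hA n) (hC n)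
  have fp : ∀ n, p n < Cardinal.aleph0 ∧ q n < Cardinal.aleph0 := fun n =>
    Cardinal.add_lt_aleph0_iff.1 (eA n ▸ Cardinal.add_lt_aleph0 (fA.1 n) (fC.1 n))
  have fx : ∀ n, x n < Cardinal.aleph0 := fun n => by
    cases n with
    | zero => rw [e0]; exact Cardinal.aleph0_pos
    | succ n => exact (Cardinal.add_lt_aleph0_iff.1 (eI n ▸ fI.1 n)).2
  obtain ⟨N1, h1⟩ := fA.2
  obtain ⟨N2, h2⟩ := fC.2
  obtain ⟨N3, h3⟩ := fI.2
  set N := N1 + N2 + N3 + 1 with hN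
  have zx : ∀ n, N ≤ n → x n = 0 := fun n hn => by
    obtain ⟨m, rfl⟩ : ∃ m, n = m + 1 := ⟨n - 1, by omega⟩
    exact (add_eq_zero.1 ((eI m).symm.trans (h3 m (by omega)))).2
  have zS : ∀ n, N ≤ n → hr d (A ⊔ C) n = 0 := fun n hn => by
    have := eA n
    rw [h1 n (by omega), h2 n (by omega), add_zero] at this
    rw [eS, zx n hn, (add_eq_zero.1 this.symm).1, add_zero]
  refine ⟨⟨fun n => eS n ▸ Cardinal.add_lt_aleph0 (fx n) (fp n).1, N, zS⟩, ?_⟩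
  rw [Rd_chi _ zS, Rd_chi A (N := N) fun n hn => h1 n (by omega),
    Rd_chi C (N := N) fun n hn => h2 n (by omega),
    Rd_chi (A ⊓ C) (N := N) fun n hn => h3 n (by omega), ← Finset.sum_add_distrib,
    ← Finset.sum_sub_distrib, ← sub_eq_zero, ← Finset.sum_sub_distrib]
  have t := Finset.sum_range_sub' (fun n => (-1) ^ n * (Cardinal.toNat (x n) : ℤ)) N
  rw [e0, zx N le_rfl] at t
  refine Eq.trans (Finset.sum_congr rfl fun n _ => ?_) (t.trans (by simp))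
  have k1 := congrArg Cardinal.toNat (eA n)
  rw [Cardinal.toNat_add (fA.1 n) (fC.1 n), Cardinal.toNat_add (fp n).1 (fp n).2] at k1
  have k1' : (Cardinal.toNat (hr d A n) : ℤ) + Cardinal.toNat (hr d C n) =
    Cardinal.toNat (p n) + Cardinal.toNat (q n) := by exact_mod_cast k1
  rw [eS, eI, Cardinal.toNat_add (fx n) (fp n).1, Cardinal.toNat_add (fp n).2 (fx _)]
  push_cast
  linear_combination (-(-1) ^ n) * k1'

theorem hr_eq_of_le {K K' : ∀ n, Submodule ℚ (V n)} (hK : IsCx d K) (hK' : IsCx d K')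
    (hle : K ≤ K') (n : ℕ) (surj : ∀ z ∈ cyc d K' n, ∃ z' ∈ K n, z - z' ∈ bdy d K' n)
    (inj : ∀ z ∈ K n, z ∈ bdy d K' n → z ∈ bdy d K n) : hr d K' n = hr d K n := by
  have _ := hK
  unfold hr
  rw [Rd_eq_of (A := cyc d K n) ((Rd_cyc_mono hle n).trans le_sup_left) fun z hz => ?_]
  · exact Rd_congr fun a ha => ⟨inj a (Rd_cyc_le K n ha), fun k => Submodule.map_mono (hle _) k⟩
  · obtain ⟨z', h1, h2⟩ := surj z hz
    refine Submodule.mem_sup.2 ⟨z', Rd_mem_cyc (K' := K') n h1 ?_, z - z', h2, by abel⟩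
    simpa using Submodule.sub_mem _ hz (hK' n h2)

theorem hr_map {V' : ℕ → Type} [∀ n, AddCommGroup (V' n)] [∀ n, Module ℚ (V' n)]
    {d' : ∀ n, V' (n + 1) →ₗ[ℚ] V' n} (f : ∀ n, V n →ₗ[ℚ] V' n)
    (hf : ∀ n, Function.Injective (f n)) (hc : ∀ n x, f n (d n x) = d' n (f (n + 1) x))
    (K : ∀ n, Submodule ℚ (V n)) (n : ℕ) :
    hr d' (fun n => (K n).map (f n)) n = hr d K n := by
  have e1 : cyc d' (fun n => (K n).map (f n)) n = (cyc d K n).map (f n) := by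
    cases n with
    | zero => rfl
    | succ n =>
      ext y
      constructor
      · rintro ⟨⟨z, hz, rfl⟩, h⟩
        refine ⟨z, ⟨hz, hf n ?_⟩, rfl⟩
        rw [hc, map_zero]; exact h
      · rintro ⟨z, ⟨hz, h⟩, rfl⟩
        refine ⟨⟨z, hz, rfl⟩, ?_⟩
        have h' : d n z = 0 := h
        show d' n (f (n + 1) z) = 0
        rw [← hc, h', map_zero]
  unfold hr rd
  rw [e1, ← Submodule.map_comp]
  refine Rd_same_ker _ _ _ fun a _ => ?_
  simp only [Submodule.mkQ_apply, Submodule.Quotient.mk_eq_zero, LinearMap.comp_apply]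
  constructor
  · rintro ⟨_, ⟨z, hz, rfl⟩, e⟩
    exact ⟨z, hz, hf n (by rw [hc, e])⟩
  · rintro ⟨z, hz, rfl⟩
    exact ⟨_, ⟨z, hz, rfl⟩, (hc n z).symm⟩

theorem ft_chi_congr {V' : ℕ → Type} [∀ n, AddCommGroup (V' n)] [∀ n, Module ℚ (V' n)]
    {d' : ∀ n, V' (n + 1) →ₗ[ℚ] V' n} {K : ∀ n, Submodule ℚ (V n)} {K' : ∀ n, Submodule ℚ (V' n)}
    (h : ∀ n, hr d K n = hr d' K' n) : (FT d K ↔ FT d' K') ∧ chi d K = chi d' K' := by
  simp only [FT, chi, h, and_self]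

theorem ft_chi_bot : FT d ⊥ ∧ chi d ⊥ = 0 := by
  have h : ∀ n, hr d ⊥ n = 0 := fun n => by
    have : cyc d ⊥ n = ⊥ := le_bot_iff.1 (Rd_cyc_le ⊥ n)
    unfold hr rd
    rw [this, Submodule.map_bot, rank_bot]
  exact ⟨⟨fun n => h n ▸ Cardinal.aleph0_pos, 0, fun n _ => h n⟩, by simp [chi, h]⟩

theorem ft_chi_point {K : ∀ n, Submodule ℚ (V n)} (h0 : hr d K 0 = 1)
    (h1 : ∀ n, hr d K (n + 1) = 0) : FT d K ∧ chi d K = 1 := by
  have h : ∀ n, 1 ≤ n → hr d K n = 0 := fun n hn => by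
    obtain ⟨m, rfl⟩ : ∃ m, n = m + 1 := ⟨n - 1, by omega⟩
    exact h1 m
  refine ⟨⟨fun n => ?_, 1, h⟩, by rw [Rd_chi K h]; simp [h0]⟩
  cases n with
  | zero => rw [h0]; exact Cardinal.one_lt_aleph0
  | succ n => rw [h1]; exact Cardinal.aleph0_pos

end Pool.Agent.P.MP_d483fb_an
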