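import Pool.Agent.P.MP_d483fb_an.Base

set_option autoImplicit false

namespace Pool.Agent.P.MP_d483fb_an

open Polynomial

theorem abRep_index_le {A : Type} [CommGroup A] (χ : A →* ℂ) {k : ℕ} (hk : k ≠ 0)
    (h : ∀ a, χ a ^ k = 1) : χ.ker.index ≤ k := by
  have : NeZero k := ⟨hk⟩
  rw [← MonoidHom.ker_toHomUnits, Subgroup.index_ker]
  refine le_trans (Subgroup.card_le_of_le (K := rootsOfUnity k ℂ) ?_) (card_rootsOfUnity ℂ k)
  rintro _ ⟨a, rfl⟩
  rw [mem_rootsOfUnity]
  ext
  simpa using h a

theorem abRep_real {A : Type} [CommGroup A] {ℓ s : ℕ} (hℓ : ℓ.Prime) (he : 3 ≤ ℓ ^ s)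
    (χ : A →* ℂ) (h : ∀ a, χ a ^ ℓ ^ s = 1) (hr : ∀ a, (starRingEnd ℂ) (χ a) = χ a) :
    χ.ker.index * χ.ker.index ≤ ℓ ^ s := by
  have h2 : ∀ a, χ a ^ 2 = 1 := by
    intro a
    have hn : ‖χ a‖ = 1 := Complex.norm_eq_one_of_pow_eq_one (h a) (by omega)
    have := Complex.mul_conj' (χ a)
    rw [hr a, hn] at this
    rw [sq, this]
    simp
  rcases hℓ.eq_two_or_odd' with rfl | hodd
  · have h4 : 4 ≤ 2 ^ s := by
      rcases s with _ | _ | s
      · simp at he
      · simp at he
      · have : 1 ≤ 2 ^ s := Nat.one_le_two_pow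
        rw [pow_succ, pow_succ]
        omega
    have := abRep_index_le χ two_ne_zero h2
    nlinarith
  · obtain ⟨t, ht⟩ : Odd (ℓ ^ s) := hodd.pow
    have h1 : ∀ a, χ a ^ 1 = 1 := by
      intro a
      have := h a
      rwa [ht, pow_add, pow_mul, h2 a, one_pow, one_mul] at this
    have := abRep_index_le χ one_ne_zero h1
    nlinarith

theorem abRep_count {A ι : Type} [CommGroup A] [Finite A] [Fintype ι] {ℓ s : ℕ} (hℓ : ℓ.Prime)
    (he : 3 ≤ ℓ ^ s) (χ : ι → (A →* ℂ)) (h : ∀ i a, χ i a ^ ℓ ^ s = 1) (c : ι → ι)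
    (hcc : ∀ i, c (c i) = i) (hc : ∀ i a, χ (c i) a = (starRingEnd ℂ) (χ i a))
    (K : Subgroup A) (hK : ∀ a, (∀ i, χ i a = 1) → a ∈ K) :
    K.index ^ 2 ≤ (ℓ ^ s) ^ Fintype.card ι := by
  classical
  let n : ι → Fin (Fintype.card ι) := Fintype.equivFin ι
  have hn : Function.Injective n := (Fintype.equivFin ι).injective
  let H : ι → Subgroup (A × A) := fun i =>
    if c i = i then (χ i).ker.prod (χ i).ker
    else if n i < n (c i) then (χ i).ker.prod ⊤ else (⊤ : Subgroup A).prod (χ i).ker
  have hH : ∀ i, (H i).index ≤ ℓ ^ s := by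
    intro i
    have hi := abRep_index_le (χ i) (by omega) (h i)
    simp only [H]
    split_ifs with h1 h2
    · rw [Subgroup.index_prod]
      refine abRep_real hℓ he (χ i) (h i) fun a => ?_
      rw [← hc, h1]
    · rw [Subgroup.index_prod, Subgroup.index_top, mul_one]
      exact hi
    · rw [Subgroup.index_prod, Subgroup.index_top, one_mul]
      exact hi
  have hconj : ∀ i a, χ (c i) a = 1 → χ i a = 1 := by
    intro i a ha
    rw [hc] at ha
    have := congrArg (starRingEnd ℂ) ha
    simpa using this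
  have hle : (⨅ i, H i) ≤ K.prod K := by
    rintro ⟨a, b⟩ hab
    rw [Subgroup.mem_iInf] at hab
    refine ⟨hK a fun i => ?_, hK b fun i => ?_⟩
    · by_cases h1 : c i = i
      · have := hab i
        simp only [H, if_pos h1] at this
        exact this.1
      · by_cases h2 : n i < n (c i)
        · have := hab i
          simp only [H, if_neg h1, if_pos h2] at this
          exact this.1
        · have h3 : ¬ c (c i) = c i := by
            rw [hcc]
            exact fun e => h1 e.symm
          have h4 : n (c i) < n (c (c i)) := by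
            rw [hcc]
            exact lt_of_le_of_ne (not_lt.1 h2) fun e => h1 (hn e)
          have := hab (c i)
          simp only [H, if_neg h3, if_pos h4] at this
          exact hconj i a this.1
    · by_cases h1 : c i = i
      · have := hab i
        simp only [H, if_pos h1] at this
        exact this.2
      · by_cases h2 : n i < n (c i)
        · have h3 : ¬ c (c i) = c i := by
            rw [hcc]
            exact fun e => h1 e.symm
          have h4 : ¬ n (c i) < n (c (c i)) := by
            rw [hcc]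
            exact not_lt.2 h2.le
          have := hab (c i)
          simp only [H, if_neg h3, if_neg h4] at this
          exact hconj i b this.2
        · have := hab i
          simp only [H, if_neg h1, if_neg h2] at this
          exact this.2
  calc K.index ^ 2 = (K.prod K).index := by rw [Subgroup.index_prod, sq]
    _ ≤ (⨅ i, H i).index := Subgroup.index_antitone hle
    _ ≤ ∏ i, (H i).index := Subgroup.index_iInf_le H
    _ ≤ ∏ _i : ι, ℓ ^ s := Finset.prod_le_prod' fun i _ => hH i
    _ = (ℓ ^ s) ^ Fintype.card ι := by simp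

/-- The image of an abelian group of exponent `ℓ ^ s` in `GL(m, ℝ)` has order at most
`(ℓ ^ s) ^ (m / 2)`. -/
theorem index_ker_sq_le {A : Type} [CommGroup A] [Finite A] {ℓ s m : ℕ} (hℓ : ℓ.Prime)
    (he : 3 ≤ ℓ ^ s) (hA : ∀ a : A, a ^ ℓ ^ s = 1) (ρ : A →* Matrix (Fin m) (Fin m) ℝ) :
    ρ.ker.index ^ 2 ≤ (ℓ ^ s) ^ m := by
  classical
  let j : Matrix (Fin m) (Fin m) ℝ →+* Matrix (Fin m) (Fin m) ℂ :=
    (Complex.ofRealHom).mapMatrix
  let R : A →* Module.End ℂ (Fin m → ℂ) :=
    ((Matrix.toLinAlgEquiv' (R := ℂ) (n := Fin m)).toMonoidHom.comp j.toMonoidHom).comp ρ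
  have hR : ∀ a v, R a v = ((ρ a).map Complex.ofReal).mulVec v := fun a v => rfl
  have he0 : ℓ ^ s ≠ 0 := by omega
  have hss : ∀ a, (R a).IsSemisimple := by
    intro a
    refine Module.End.isSemisimple_of_squarefree_aeval_eq_zero (p := X ^ (ℓ ^ s) - 1)
      (X_pow_sub_one_separable_iff.2 (by exact_mod_cast he0)).squarefree ?_
    rw [map_sub, map_pow, aeval_X, map_one, ← map_pow, hA, map_one, sub_self]
  have hcomm : ∀ a b, Commute (R a) (R b) := fun a b => (Commute.all a b).map R
  let W : (A → ℂ) → Submodule ℂ (Fin m → ℂ) := fun χ => ⨅ a, (R a).maxGenEigenspace (χ a)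
  have hW : ∀ χ v, v ∈ W χ ↔ ∀ a, R a v = χ a • v := by
    intro χ v
    simp only [W, Submodule.mem_iInf, (hss _).isFinitelySemisimple.maxGenEigenspace_eq_eigenspace,
      Module.End.mem_eigenspace_iff]
  have hind : iSupIndep W :=
    Module.End.independent_iInf_maxGenEigenspace_of_forall_mapsTo (fun a => R a) fun a b φ =>
      Module.End.mapsTo_maxGenEigenspace_of_comm (hcomm b a) φ
  have htop : ⨆ χ, W χ = ⊤ :=
    Module.End.iSup_iInf_maxGenEigenspace_eq_top_of_iSup_maxGenEigenspace_eq_top_of_commute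
      (fun a => R a) (fun a b _ => hcomm a b) fun a => Module.End.iSup_maxGenEigenspace_eq_top _
  let ι : Type := {χ : A → ℂ // W χ ≠ ⊥}
  let _ : Fintype ι := hind.fintypeNeBotOfFiniteDimensional
  have hcard : Fintype.card ι ≤ m := by
    simpa using hind.subtype_ne_bot_le_finrank
  have hex : ∀ i : ι, ∃ v, v ≠ 0 ∧ ∀ a, R a v = i.1 a • v := by
    intro i
    obtain ⟨v, hv, hv0⟩ := (Submodule.ne_bot_iff _).1 i.2
    exact ⟨v, hv0, (hW _ _).1 hv⟩
  let χ : ι → (A →* ℂ) := fun i =>
    { toFun := i.1
      map_one' := by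
        obtain ⟨v, hv0, hv⟩ := hex i
        have := hv 1
        rw [map_one, Module.End.one_apply] at this
        exact (smul_left_injective ℂ hv0 (by simpa using this)).symm
      map_mul' := fun a b => by
        obtain ⟨v, hv0, hv⟩ := hex i
        have := hv (a * b)
        rw [map_mul, Module.End.mul_apply, hv b, map_smul, hv a, smul_smul, mul_comm] at this
        exact (smul_left_injective ℂ hv0 this).symm }
  let c : ι → ι := fun i => ⟨fun a => (starRingEnd ℂ) (i.1 a), by
    obtain ⟨v, hv0, hv⟩ := hex i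
    refine (Submodule.ne_bot_iff _).2 ⟨star v, (hW _ _).2 fun a => ?_, by simpa using hv0⟩
    funext k
    have := congrArg (starRingEnd ℂ) (congrFun (hv a) k)
    rw [hR] at this ⊢
    simpa [Matrix.mulVec, dotProduct] using this⟩
  have key := abRep_count hℓ he χ (fun i a => by rw [← map_pow, hA, map_one]) c
    (fun i => Subtype.ext (funext fun a => by simp [c])) (fun i a => rfl) ρ.ker ?_
  · exact key.trans (Nat.pow_le_pow_right (by omega) hcard)
  · intro a ha
    have h1 : R a = 1 := by
      refine LinearMap.ext fun v => ?_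
      have hv : v ∈ ⨆ χ, W χ := htop ▸ Submodule.mem_top
      refine Submodule.iSup_induction W (motive := fun v => R a v = (1 : Module.End ℂ _) v) hv
        (fun φ w hw => ?_) (by simp) (fun x y hx hy => by rw [map_add, map_add, hx, hy])
      by_cases hφ : W φ = ⊥
      · rw [hφ, Submodule.mem_bot] at hw
        simp [hw]
      · have h2 : φ a = 1 := ha ⟨φ, hφ⟩
        rw [(hW _ _).1 hw a, h2, one_smul, Module.End.one_apply]
    rw [MonoidHom.mem_ker]
    have h2 : j (ρ a) = 1 := by
      apply (Matrix.toLinAlgEquiv' (R := ℂ) (n := Fin m)).injective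
      rw [map_one]
      exact h1
    ext p q
    have h3 := congrFun (congrFun h2 p) q
    simp only [j, RingHom.mapMatrix_apply, Matrix.map_apply, Complex.ofRealHom_eq_coe,
      Matrix.one_apply] at h3
    rw [Matrix.one_apply]
    split_ifs at h3 ⊢
    · exact_mod_cast h3
    · exact_mod_cast h3

end Pool.Agent.P.MP_d483fb_an
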