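import Pool.Agent.P.MP_d483fb_an.Base

set_option autoImplicit false

namespace Pool.Agent.P.MP_d483fb_an

variable {P P' : Type}

theorem aff_abd_single (k : ℕ) (v : Fin (k + 2) → P) :
    abd P k (Finsupp.single v 1) =
      ∑ i : Fin (k + 2), (-1 : ℚ) ^ (i : ℕ) • Finsupp.single (v ∘ i.succAbove) (1 : ℚ) := by
  simp [abd]

theorem aff_acone_single (k : ℕ) (p : P) (v : Fin (k + 1) → P) :
    acone k p (Finsupp.single v 1) = Finsupp.single (Fin.cons p v : Fin (k + 2) → P) 1 := by
  simp [acone]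

theorem aff_amap_single (k : ℕ) (φ : P → P') (v : Fin (k + 1) → P) :
    amap k φ (Finsupp.single v 1) = Finsupp.single (φ ∘ v) 1 := by
  simp [amap]

theorem aff_asd_single (β : ∀ k, (Fin (k + 1) → P) → P) (k : ℕ) (v : Fin (k + 2) → P) :
    asd β (k + 1) (Finsupp.single v 1) =
      acone k (β (k + 1) v) (asd β k (abd P k (Finsupp.single v 1))) := by
  simp [asd]

theorem aff_aht_single (β : ∀ k, (Fin (k + 1) → P) → P) (k : ℕ) (v : Fin (k + 2) → P) :
    aht β (k + 1) (Finsupp.single v 1) = acone (k + 1) (β (k + 1) v)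
      (Finsupp.single v 1 - aht β k (abd P k (Finsupp.single v 1))) := by
  simp [aht]

/-- Linear maps on formal chains agree once they agree on simplices. -/
theorem aff_ext {k : ℕ} {W : Type} [AddCommGroup W] [Module ℚ W] {f g : AC P k →ₗ[ℚ] W}
    (h : ∀ v, f (Finsupp.single v 1) = g (Finsupp.single v 1)) (c : AC P k) : f c = g c := by
  have : f = g := Finsupp.lhom_ext' fun v => LinearMap.ext_ring (h v)
  rw [this]

theorem aff_cons_zero {k : ℕ} (p : P) (v : Fin (k + 1) → P) :
    (Fin.cons p v : Fin (k + 2) → P) ∘ (0 : Fin (k + 2)).succAbove = v := by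
  funext j
  simp

theorem aff_cons_succ {k : ℕ} (p : P) (v : Fin (k + 2) → P) (i : Fin (k + 2)) :
    (Fin.cons p v : Fin (k + 3) → P) ∘ i.succ.succAbove =
      (Fin.cons p (v ∘ i.succAbove) : Fin (k + 2) → P) := by
  funext j
  refine Fin.cases ?_ (fun j => ?_) j
  · simp
  · simp [Fin.succ_succAbove_succ]

theorem abd_acone (k : ℕ) (p : P) (c : AC P (k + 1)) :
    abd P (k + 1) (acone (k + 1) p c) = c - acone k p (abd P k c) := by
  refine aff_ext (f := abd P (k + 1) ∘ₗ acone (k + 1) p)
    (g := LinearMap.id - acone k p ∘ₗ abd P k) (fun v => ?_) c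
  simp only [LinearMap.comp_apply, LinearMap.sub_apply, LinearMap.id_apply]
  rw [aff_acone_single, aff_abd_single, aff_abd_single, Fin.sum_univ_succ, aff_cons_zero, map_sum,
    sub_eq_add_neg, ← Finset.sum_neg_distrib]
  simp only [Fin.val_zero, pow_zero, one_smul, add_right_inj]
  refine Finset.sum_congr rfl fun i _ => ?_
  rw [aff_cons_succ, map_smul, aff_acone_single, Fin.val_succ, pow_succ, mul_neg_one, neg_smul]

/-- The augmentation. -/
noncomputable def affEps (P : Type) : AC P 0 →ₗ[ℚ] ℚ :=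
  Finsupp.linearCombination ℚ fun _ : Fin 1 → P => (1 : ℚ)

theorem aff_eps_single (v : Fin 1 → P) : affEps P (Finsupp.single v 1) = 1 := by
  simp [affEps]

theorem aff_eps_abd (c : AC P 1) : affEps P (abd P 0 c) = 0 := by
  refine aff_ext (f := affEps P ∘ₗ abd P 0) (g := 0) (fun v => ?_) c
  rw [LinearMap.comp_apply, aff_abd_single, Fin.sum_univ_two, map_add, map_smul, map_smul,
    aff_eps_single, aff_eps_single]
  simp

theorem aff_abd_acone_zero (p : P) (c : AC P 0) :
    abd P 0 (acone 0 p c) = c - affEps P c • Finsupp.single (fun _ => p) 1 := by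
  refine aff_ext (f := abd P 0 ∘ₗ acone 0 p)
    (g := LinearMap.id - (affEps P).smulRight (Finsupp.single (fun _ => p) 1)) (fun v => ?_) c
  simp only [LinearMap.comp_apply, LinearMap.sub_apply, LinearMap.id_apply,
    LinearMap.smulRight_apply]
  have h : (Fin.cons p v : Fin 2 → P) ∘ (1 : Fin 2).succAbove = fun _ => p := by
    funext j
    fin_cases j
    rfl
  rw [aff_acone_single, aff_abd_single, Fin.sum_univ_two, aff_cons_zero, h, aff_eps_single]
  simp [sub_eq_add_neg]

theorem abd_abd (k : ℕ) (c : AC P (k + 2)) : abd P k (abd P (k + 1) c) = 0 := by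
  induction k with
  | zero =>
    refine aff_ext (f := abd P 0 ∘ₗ abd P 1) (g := 0) (fun v => ?_) c
    rw [← Fin.cons_self_tail v, ← aff_acone_single, LinearMap.comp_apply, abd_acone, map_sub,
      aff_abd_acone_zero, aff_eps_abd]
    simp
  | succ k ih =>
    refine aff_ext (f := abd P (k + 1) ∘ₗ abd P (k + 2)) (g := 0) (fun v => ?_) c
    rw [← Fin.cons_self_tail v, ← aff_acone_single, LinearMap.comp_apply, abd_acone, map_sub,
      abd_acone, ih]
    simp

theorem abd_asd (β : ∀ k, (Fin (k + 1) → P) → P) (k : ℕ) (c : AC P (k + 1)) :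
    abd P k (asd β (k + 1) c) = asd β k (abd P k c) := by
  induction k with
  | zero =>
    refine aff_ext (f := abd P 0 ∘ₗ asd β 1) (g := asd β 0 ∘ₗ abd P 0) (fun v => ?_) c
    rw [LinearMap.comp_apply, LinearMap.comp_apply, aff_asd_single, aff_abd_acone_zero]
    simp [asd, aff_eps_abd]
  | succ k ih =>
    refine aff_ext (f := abd P (k + 1) ∘ₗ asd β (k + 2)) (g := asd β (k + 1) ∘ₗ abd P (k + 1))
      (fun v => ?_) c
    rw [LinearMap.comp_apply, LinearMap.comp_apply, aff_asd_single, abd_acone, ih, abd_abd]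
    simp

theorem abd_aht (β : ∀ k, (Fin (k + 1) → P) → P) (k : ℕ) (c : AC P (k + 1)) :
    abd P (k + 1) (aht β (k + 1) c) + aht β k (abd P k c) = c - asd β (k + 1) c := by
  induction k with
  | zero =>
    refine aff_ext (f := abd P 1 ∘ₗ aht β 1 + aht β 0 ∘ₗ abd P 0) (g := LinearMap.id - asd β 1)
      (fun v => ?_) c
    simp only [LinearMap.comp_apply, LinearMap.add_apply, LinearMap.sub_apply, LinearMap.id_apply]
    rw [aff_aht_single, abd_acone, aff_asd_single]
    simp [aht, asd]
  | succ k ih =>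
    refine aff_ext (f := abd P (k + 2) ∘ₗ aht β (k + 2) + aht β (k + 1) ∘ₗ abd P (k + 1))
      (g := LinearMap.id - asd β (k + 2)) (fun v => ?_) c
    simp only [LinearMap.comp_apply, LinearMap.add_apply, LinearMap.sub_apply, LinearMap.id_apply]
    have h := ih (abd P (k + 1) (Finsupp.single v 1))
    rw [abd_abd, map_zero, add_zero] at h
    rw [aff_aht_single, abd_acone, aff_asd_single, map_sub (abd P (k + 1)), h]
    simp only [sub_sub_cancel]
    abel

theorem amap_abd (φ : P → P') (k : ℕ) (c : AC P (k + 1)) :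
    amap k φ (abd P k c) = abd P' k (amap (k + 1) φ c) := by
  refine aff_ext (f := amap k φ ∘ₗ abd P k) (g := abd P' k ∘ₗ amap (k + 1) φ) (fun v => ?_) c
  rw [LinearMap.comp_apply, LinearMap.comp_apply, aff_amap_single, aff_abd_single, aff_abd_single,
    map_sum]
  refine Finset.sum_congr rfl fun i _ => ?_
  rw [map_smul, aff_amap_single]
  rfl

theorem aff_amap_acone (φ : P → P') (k : ℕ) (p : P) (c : AC P k) :
    amap (k + 1) φ (acone k p c) = acone k (φ p) (amap k φ c) := by
  refine aff_ext (f := amap (k + 1) φ ∘ₗ acone k p) (g := acone k (φ p) ∘ₗ amap k φ)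
    (fun v => ?_) c
  rw [LinearMap.comp_apply, LinearMap.comp_apply, aff_acone_single, aff_amap_single,
    aff_amap_single, aff_acone_single, Fin.comp_cons]

theorem amap_asd {β : ∀ k, (Fin (k + 1) → P) → P} {β' : ∀ k, (Fin (k + 1) → P') → P'} {φ : P → P'}
    (hφ : ∀ k v, φ (β k v) = β' k (φ ∘ v)) (k : ℕ) (c : AC P k) :
    amap k φ (asd β k c) = asd β' k (amap k φ c) := by
  induction k with
  | zero => rfl
  | succ k ih =>
    refine aff_ext (f := amap (k + 1) φ ∘ₗ asd β (k + 1)) (g := asd β' (k + 1) ∘ₗ amap (k + 1) φ)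
      (fun v => ?_) c
    rw [LinearMap.comp_apply, LinearMap.comp_apply, aff_asd_single, aff_amap_acone, ih, amap_abd,
      aff_amap_single, aff_asd_single, hφ]

theorem amap_aht {β : ∀ k, (Fin (k + 1) → P) → P} {β' : ∀ k, (Fin (k + 1) → P') → P'} {φ : P → P'}
    (hφ : ∀ k v, φ (β k v) = β' k (φ ∘ v)) (k : ℕ) (c : AC P k) :
    amap (k + 1) φ (aht β k c) = aht β' k (amap k φ c) := by
  induction k with
  | zero => simp [aht]
  | succ k ih =>
    refine aff_ext (f := amap (k + 2) φ ∘ₗ aht β (k + 1)) (g := aht β' (k + 1) ∘ₗ amap (k + 1) φ)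
      (fun v => ?_) c
    rw [LinearMap.comp_apply, LinearMap.comp_apply, aff_aht_single, aff_amap_acone, map_sub, ih,
      amap_abd, aff_amap_single, aff_aht_single, hφ]

end Pool.Agent.P.MP_d483fb_an
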