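import Pool.Agent.P.MP_d483fb_an.Defs

/-!
Auxiliary definitions of the proof: subcomplexes and ranks of their homology, affine and singular
chains, Eichler transformations.
-/

set_option autoImplicit false

namespace Pool.Agent.P.MP_d483fb_an

noncomputable section

/-! ### Ranks of homology of subcomplexes -/

/-- The rank of the image of `Z` in the quotient by `B`. -/
def rd {W : Type} [AddCommGroup W] [Module ℚ W] (Z B : Submodule ℚ W) : Cardinal :=
  Module.rank ℚ (Z.map B.mkQ)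

section Complex

variable {V : ℕ → Type} [∀ n, AddCommGroup (V n)] [∀ n, Module ℚ (V n)]

/-- Cycles of the family `K`. -/
def cyc (d : ∀ n, V (n + 1) →ₗ[ℚ] V n) (K : ∀ n, Submodule ℚ (V n)) : ∀ n, Submodule ℚ (V n)
  | 0 => K 0
  | n + 1 => K (n + 1) ⊓ LinearMap.ker (d n)

/-- Boundaries of the family `K`. -/
def bdy (d : ∀ n, V (n + 1) →ₗ[ℚ] V n) (K : ∀ n, Submodule ℚ (V n)) (n : ℕ) : Submodule ℚ (V n) :=
  (K (n + 1)).map (d n)

/-- Rank of the homology of `K`. -/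
def hr (d : ∀ n, V (n + 1) →ₗ[ℚ] V n) (K : ∀ n, Submodule ℚ (V n)) (n : ℕ) : Cardinal :=
  rd (cyc d K n) (bdy d K n)

/-- `K` is a complex. -/
def IsCx (d : ∀ n, V (n + 1) →ₗ[ℚ] V n) (K : ∀ n, Submodule ℚ (V n)) : Prop :=
  ∀ n, bdy d K n ≤ cyc d K n

/-- The homology of `K` is finite dimensional. -/
def FT (d : ∀ n, V (n + 1) →ₗ[ℚ] V n) (K : ∀ n, Submodule ℚ (V n)) : Prop :=
  (∀ n, hr d K n < Cardinal.aleph0) ∧ ∃ N, ∀ n, N ≤ n → hr d K n = 0

/-- Euler characteristic of the homology of `K`. -/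
def chi (d : ∀ n, V (n + 1) →ₗ[ℚ] V n) (K : ∀ n, Submodule ℚ (V n)) : ℤ :=
  ∑ᶠ n : ℕ, (-1) ^ n * (Cardinal.toNat (hr d K n) : ℤ)

end Complex

/-! ### Formal chains of ordered simplices -/

/-- Formal chains of ordered `k`-simplices with vertices in `P`. -/
abbrev AC (P : Type) (k : ℕ) : Type := (Fin (k + 1) → P) →₀ ℚ

/-- Boundary of formal chains. -/
def abd (P : Type) (k : ℕ) : AC P (k + 1) →ₗ[ℚ] AC P k :=
  Finsupp.linearCombination ℚ fun v : Fin (k + 2) → P =>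
    ∑ i : Fin (k + 2), (-1 : ℚ) ^ (i : ℕ) • Finsupp.single (v ∘ i.succAbove) (1 : ℚ)

/-- Cone with apex `p`. -/
def acone {P : Type} (k : ℕ) (p : P) : AC P k →ₗ[ℚ] AC P (k + 1) :=
  Finsupp.lmapDomain ℚ ℚ fun v : Fin (k + 1) → P => (Fin.cons p v : Fin (k + 2) → P)

/-- Image of formal chains under a map of the vertices. -/
def amap {P P' : Type} (k : ℕ) (φ : P → P') : AC P k →ₗ[ℚ] AC P' k :=
  Finsupp.lmapDomain ℚ ℚ fun v : Fin (k + 1) → P => φ ∘ v

/-- Subdivision with respect to the choice of centres `β`. -/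
def asd {P : Type} (β : ∀ k, (Fin (k + 1) → P) → P) : ∀ k, AC P k →ₗ[ℚ] AC P k
  | 0 => LinearMap.id
  | k + 1 => Finsupp.linearCombination ℚ fun v : Fin (k + 2) → P =>
      acone k (β (k + 1) v) (asd β k (abd P k (Finsupp.single v 1)))

/-- The homotopy between the identity and the subdivision. -/
def aht {P : Type} (β : ∀ k, (Fin (k + 1) → P) → P) : ∀ k, AC P k →ₗ[ℚ] AC P (k + 1)
  | 0 => 0
  | k + 1 => Finsupp.linearCombination ℚ fun v : Fin (k + 2) → P =>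
      acone (k + 1) (β (k + 1) v) (Finsupp.single v 1 - aht β k (abd P k (Finsupp.single v 1)))

/-! ### Singular chains -/

/-- The standard simplex. -/
abbrev Dl (n : ℕ) : Type := stdSimplex ℝ (Fin (n + 1))

/-- The affine map with prescribed images of the vertices. -/
def aff {k n : ℕ} (v : Fin (k + 1) → Dl n) : C(Dl k, Dl n) where
  toFun t := ⟨∑ i, t i • (v i).1,
    (convex_stdSimplex ℝ (Fin (n + 1))).sum_mem (fun i _ => t.2.1 i) t.2.2 fun i _ => (v i).2⟩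
  continuous_toFun := by
    refine Continuous.subtype_mk (continuous_finsetSum _ fun i _ => ?_) _
    exact ((continuous_apply i).comp continuous_subtype_val).smul continuous_const

/-- The barycentre of an ordered simplex. -/
def bary (n k : ℕ) (v : Fin (k + 1) → Dl n) : Dl n := aff v stdSimplex.barycenter

/-- Singular simplices. -/
abbrev Simp (X : Type) [TopologicalSpace X] (n : ℕ) : Type := C(Dl n, X)

/-- Singular chains. -/
abbrev Chn (X : Type) [TopologicalSpace X] (n : ℕ) : Type := Simp X n →₀ ℚ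

/-- Faces of a singular simplex. -/
def face {X : Type} [TopologicalSpace X] {n : ℕ} (i : Fin (n + 2)) (σ : Simp X (n + 1)) :
    Simp X n :=
  σ.comp ⟨stdSimplex.map i.succAbove, stdSimplex.continuous_map _⟩

/-- The singular boundary. -/
def bd (X : Type) [TopologicalSpace X] (n : ℕ) : Chn X (n + 1) →ₗ[ℚ] Chn X n :=
  Finsupp.linearCombination ℚ fun σ : Simp X (n + 1) =>
    ∑ i : Fin (n + 2), (-1 : ℚ) ^ (i : ℕ) • Finsupp.single (face i σ) (1 : ℚ)

/-- Singular chains inside the subset `S`. -/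
def chn {X : Type} [TopologicalSpace X] (S : Set X) (n : ℕ) : Submodule ℚ (Chn X n) :=
  Finsupp.supported ℚ ℚ {σ : Simp X n | Set.range σ ⊆ S}

/-! ### Eichler transformations -/

section Orth

variable {V : Type} [AddCommGroup V] [Module ℚ V]

/-- The Eichler transformation as a linear map. -/
def eichL (B : LinearMap.BilinForm ℚ V) (z u : V) : V →ₗ[ℚ] V :=
  LinearMap.id + (B z).smulRight u - (B u).smulRight z - (B u u / 2) • (B z).smulRight z

theorem eichL_apply (B : LinearMap.BilinForm ℚ V) (z u x : V) :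
    eichL B z u x = x + B z x • u - B u x • z - (B u u / 2 * B z x) • z := by
  simp [eichL, mul_smul]

theorem eichL_eichL {B : LinearMap.BilinForm ℚ V} (hB : ∀ x y, B x y = B y x) {z u u' : V}
    (hz : B z z = 0) (hu : B z u = 0) (hu' : B z u' = 0) (x : V) :
    eichL B z u (eichL B z u' x) = eichL B z (u + u') x := by
  have h1 : B u z = 0 := by rw [hB, hu]
  simp only [eichL_apply, map_add, map_sub, map_smul, LinearMap.add_apply, hz, hu',
    h1, hB u' u]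
  module

theorem eichL_zero (B : LinearMap.BilinForm ℚ V) (z x : V) : eichL B z 0 x = x := by
  simp [eichL_apply]

open Classical in
/-- The Eichler transformation (the identity when the data are not admissible). -/
def eich (B : LinearMap.BilinForm ℚ V) (z u : V) : V ≃ₗ[ℚ] V :=
  if h : (∀ x y, B x y = B y x) ∧ B z z = 0 ∧ B z u = 0 then
    LinearEquiv.ofLinearMap (eichL B z u) (eichL B z (-u))
      (LinearMap.ext fun x => by
        rw [LinearMap.comp_apply, eichL_eichL h.1 h.2.1 h.2.2 (by simp [h.2.2]), add_neg_cancel,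
          eichL_zero, LinearMap.id_apply])
      (LinearMap.ext fun x => by
        rw [LinearMap.comp_apply, eichL_eichL h.1 h.2.1 (by simp [h.2.2]) h.2.2, neg_add_cancel,
          eichL_zero, LinearMap.id_apply])
  else 1

theorem eich_apply {B : LinearMap.BilinForm ℚ V} (hB : ∀ x y, B x y = B y x) {z u : V}
    (hz : B z z = 0) (hu : B z u = 0) (x : V) :
    eich B z u x = x + B z x • u - B u x • z - (B u u / 2 * B z x) • z := by
  rw [eich, dif_pos ⟨hB, hz, hu⟩, LinearEquiv.coe_ofLinearMap, eichL_apply]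

/-- The orthogonal group. -/
def OG (B : LinearMap.BilinForm ℚ V) : Subgroup (V ≃ₗ[ℚ] V) where
  carrier := {g | ∀ x y, B (g x) (g y) = B x y}
  one_mem' := fun _ _ => rfl
  mul_mem' := fun {a b} ha hb x y => (ha (b x) (b y)).trans (hb x y)
  inv_mem' := fun {a} ha x y => by
    have h := ha (a⁻¹ x) (a⁻¹ y)
    have h1 : a (a⁻¹ x) = x := a.apply_symm_apply x
    have h2 : a (a⁻¹ y) = y := a.apply_symm_apply y
    rw [← h, h1, h2]

/-- The orthogonal group of the lattice `Λ`. -/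
def OL (B : LinearMap.BilinForm ℚ V) (Λ : Submodule ℤ V) : Subgroup (V ≃ₗ[ℚ] V) where
  carrier := {g | g ∈ OG B ∧ ∀ x, g x ∈ Λ ↔ x ∈ Λ}
  one_mem' := ⟨(OG B).one_mem, fun _ => Iff.rfl⟩
  mul_mem' := fun {a b} ha hb => ⟨(OG B).mul_mem ha.1 hb.1, fun x => (ha.2 (b x)).trans (hb.2 x)⟩
  inv_mem' := fun {a} ha => ⟨(OG B).inv_mem ha.1, fun x => by
    rw [← ha.2 (a⁻¹ x)]
    change a (a.symm x) ∈ Λ ↔ x ∈ Λ
    rw [LinearEquiv.apply_symm_apply]⟩

/-- A nondegenerate quadratic space of dimension at least five and Witt index at least two. -/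
structure QS (B : LinearMap.BilinForm ℚ V) : Prop where
  symm : ∀ x y, B x y = B y x
  nondeg : ∀ x, (∀ y, B x y = 0) → x = 0
  fin : Module.Finite ℚ V
  five : 5 ≤ Module.finrank ℚ V
  plane : ∃ x y, LinearIndependent ℚ ![x, y] ∧ B x x = 0 ∧ B x y = 0 ∧ B y y = 0

/-- `N` is normalised by `Γ`. -/
def Nrm (Γ N : Subgroup (V ≃ₗ[ℚ] V)) : Prop := ∀ γ ∈ Γ, ∀ x ∈ N, γ * x * γ⁻¹ ∈ N

/-- `N` contains a multiple of each Eichler transformation along `z`. -/
def Good (B : LinearMap.BilinForm ℚ V) (N : Subgroup (V ≃ₗ[ℚ] V)) (z : V) : Prop :=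
  ∀ u, B z u = 0 → ∃ m : ℕ, 0 < m ∧ eich B z ((m : ℚ) • u) ∈ N

/-- A subgroup of the orthogonal group containing a multiple of each Eichler transformation. -/
def Ample (B : LinearMap.BilinForm ℚ V) (Γ : Subgroup (V ≃ₗ[ℚ] V)) : Prop :=
  Γ ≤ OG B ∧ ∀ z, B z z = 0 → Good B Γ z

/-- An even lattice. -/
structure Lat (B : LinearMap.BilinForm ℚ V) (Λ : Submodule ℤ V) : Prop where
  symm : ∀ x y, B x y = B y x
  fg : Λ.FG
  even : ∀ x ∈ Λ, ∃ k : ℤ, B x x = 2 * k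

/-- Two orthogonal hyperbolic pairs in the lattice. -/
structure Frame (B : LinearMap.BilinForm ℚ V) (Λ : Submodule ℤ V) (e₁ f₁ e₂ f₂ : V) : Prop where
  me₁ : e₁ ∈ Λ
  mf₁ : f₁ ∈ Λ
  me₂ : e₂ ∈ Λ
  mf₂ : f₂ ∈ Λ
  e₁e₁ : B e₁ e₁ = 0
  f₁f₁ : B f₁ f₁ = 0
  e₂e₂ : B e₂ e₂ = 0
  f₂f₂ : B f₂ f₂ = 0
  e₁f₁ : B e₁ f₁ = 1
  e₂f₂ : B e₂ f₂ = 1
  e₁e₂ : B e₁ e₂ = 0
  e₁f₂ : B e₁ f₂ = 0
  f₁e₂ : B f₁ e₂ = 0
  f₁f₂ : B f₁ f₂ = 0

/-- `x` is orthogonal to the two hyperbolic pairs. -/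
def Perp (B : LinearMap.BilinForm ℚ V) (e₁ f₁ e₂ f₂ x : V) : Prop :=
  B e₁ x = 0 ∧ B f₁ x = 0 ∧ B e₂ x = 0 ∧ B f₂ x = 0

/-- An orthogonal basis of the complement of the two hyperbolic pairs. -/
structure Compl (B : LinearMap.BilinForm ℚ V) (Λ : Submodule ℤ V) (e₁ f₁ e₂ f₂ : V) {k : ℕ}
    (u : Fin k → V) : Prop where
  pos : 0 < k
  mem : ∀ j, u j ∈ Λ
  perp : ∀ j, Perp B e₁ f₁ e₂ f₂ (u j)
  orth : ∀ i j, i ≠ j → B (u i) (u j) = 0
  aniso : ∀ j, B (u j) (u j) ≠ 0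
  span : ∀ x, Perp B e₁ f₁ e₂ f₂ x → (∀ j, B (u j) x = 0) → x = 0

/-- The group generated by the four long root elements. -/
def H4 (B : LinearMap.BilinForm ℚ V) (e₁ f₁ e₂ f₂ : V) : Subgroup (V ≃ₗ[ℚ] V) :=
  Subgroup.closure {eich B e₁ e₂, eich B e₁ f₂, eich B f₁ e₂, eich B f₁ f₂}

/-- `K` contains all Eichler transformations of level `m` along `z`. -/
def Lvl (B : LinearMap.BilinForm ℚ V) (Λ : Submodule ℤ V) (m : ℕ) (K : Subgroup (V ≃ₗ[ℚ] V))
    (z : V) : Prop :=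
  ∀ u ∈ Λ, B z u = 0 → eich B z ((m : ℚ) • u) ∈ K

/-- The principal congruence subgroup of level `M`. -/
def Cong (B : LinearMap.BilinForm ℚ V) (Λ : Submodule ℤ V) (M : ℕ) : Subgroup (V ≃ₗ[ℚ] V) where
  carrier := {g | g ∈ OL B Λ ∧ ∀ x ∈ Λ, ∃ y ∈ Λ, g x = x + (M : ℚ) • y}
  one_mem' := ⟨(OL B Λ).one_mem, fun x _ => ⟨0, Λ.zero_mem, by simp⟩⟩
  mul_mem' := fun {a b} ha hb => ⟨(OL B Λ).mul_mem ha.1 hb.1, fun x hx => by
    obtain ⟨y, hy, e⟩ := hb.2 x hx
    obtain ⟨y', hy', e'⟩ := ha.2 (b x) ((hb.1.2 x).2 hx)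
    refine ⟨y + y', Λ.add_mem hy hy', ?_⟩
    change a (b x) = _
    rw [e', e, smul_add, add_assoc]⟩
  inv_mem' := fun {a} ha => ⟨(OL B Λ).inv_mem ha.1, fun x hx => by
    obtain ⟨y, hy, e⟩ := ha.2 (a⁻¹ x) ((((OL B Λ).inv_mem ha.1).2 x).2 hx)
    refine ⟨-y, Λ.neg_mem hy, ?_⟩
    have h : a (a⁻¹ x) = x := a.apply_symm_apply x
    rw [h] at e
    rw [smul_neg, ← sub_eq_add_neg, eq_sub_iff_add_eq, ← e]⟩

end Orth

end

end Pool.Agent.P.MP_d483fb_an
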