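import Pool.Agent.P.MP_d483fb_an.Embed

set_option autoImplicit false

namespace Pool.Agent.P.MP_d483fb_an

open scoped Manifold ContDiff
open Filter Topology

section Aux

variable {E W : Type} [NormedAddCommGroup E] [NormedSpace ℝ E] [FiniteDimensional ℝ E]
  [NormedAddCommGroup W] [InnerProductSpace ℝ W]

/-- Two nearby points of an immersed manifold exchanged by an isometry that fixes the tangent
space pointwise are equal. -/
theorem bochner_near {Ψ : E → W} {L : E →L[ℝ] W} {u₀ : E} (hΨ : HasStrictFDerivAt Ψ L u₀)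
    (hL : Function.Injective L) (A : W ≃ₗᵢ[ℝ] W) (hA : ∀ v, A (L v) = L v) :
    ∀ᶠ p : E × E in 𝓝 (u₀, u₀), Ψ p.1 = A (Ψ p.2) → p.1 = p.2 := by
  obtain ⟨K, hK0, hK⟩ := LinearMap.exists_antilipschitzWith (L : E →ₗ[ℝ] W)
    (LinearMap.ker_eq_bot.2 hL)
  have hK0' : (0 : ℝ) < K := hK0
  have h1 := hΨ.isLittleO.def (c := 1 / (2 * K)) (by positivity)
  filter_upwards [h1] with p hp hpe
  set h := p.1 - p.2 with hh
  have a1 : ‖h‖ ≤ K * ‖L h‖ := by
    simpa using hK.le_mul_dist h 0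
  have a2 : inner ℝ (Ψ p.1 - Ψ p.2) (L h) = 0 := by
    rw [hpe, inner_sub_left, sub_eq_zero]
    conv_lhs => rw [← hA h]
    exact A.inner_map_map _ _
  have a3 : ‖L h‖ ^ 2 ≤ 1 / (2 * K) * ‖h‖ * ‖L h‖ := by
    have e : ‖L h‖ ^ 2 = -inner ℝ (Ψ p.1 - Ψ p.2 - L h) (L h) := by
      rw [inner_sub_left, a2, real_inner_self_eq_norm_sq]; ring
    rw [e]
    refine (neg_le_abs _).trans ((abs_real_inner_le_norm _ _).trans ?_)
    exact mul_le_mul_of_nonneg_right hp (norm_nonneg _)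
  have a4 : 1 / (2 * K) * ‖h‖ ≤ ‖L h‖ / 2 := by
    rw [one_div, inv_mul_le_iff₀ (by positivity)]
    linarith
  have a5 : ‖L h‖ = 0 := by
    nlinarith [mul_le_mul_of_nonneg_right a4 (norm_nonneg (L h)), norm_nonneg (L h)]
  rw [a5, mul_zero] at a1
  exact sub_eq_zero.1 (norm_le_zero_iff.1 a1)

end Aux

variable {m : ℕ} {M : Type} [TopologicalSpace M] [T2Space M] [CompactSpace M]
  [ChartedSpace (EuclideanSpace ℝ (Fin m)) M] [IsManifold (𝓡 m) ∞ M]

section Aux2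

variable {W : Type} [NormedAddCommGroup W] [InnerProductSpace ℝ W]

omit [T2Space M] [CompactSpace M] [IsManifold (𝓡 m) ∞ M] in
theorem bochner_chart {Φ : M → W} (hΦ : ContMDiff (𝓡 m) 𝓘(ℝ, W) ∞ Φ) (y : M) :
    ContDiffAt ℝ 1 (Φ ∘ (extChartAt (𝓡 m) y).symm) (extChartAt (𝓡 m) y y) ∧
      ∀ v : EuclideanSpace ℝ (Fin m), mfderiv (𝓡 m) 𝓘(ℝ, W) Φ y v =
        fderiv ℝ (Φ ∘ (extChartAt (𝓡 m) y).symm) (extChartAt (𝓡 m) y y) v := by
  constructor
  · have h := (contMDiffAt_iff.1 (hΦ y)).2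
    rw [ModelWithCorners.range_eq_univ, contDiffWithinAt_univ] at h
    exact h.of_le (by simp)
  · intro v
    rw [(hΦ.mdifferentiableAt (x := y) (by simp)).mfderiv, ModelWithCorners.range_eq_univ,
      fderivWithin_univ]
    rfl

omit [T2Space M] [CompactSpace M] [IsManifold (𝓡 m) ∞ M] in
theorem bochner_local {Φ : M → W} (hΦ : ContMDiff (𝓡 m) 𝓘(ℝ, W) ∞ Φ) {f : M → M}
    (hf : Continuous f) (A : W ≃ₗᵢ[ℝ] W) (hA : ∀ z, Φ (f z) = A (Φ z)) (y : M)
    (hi : Function.Injective (mfderiv (𝓡 m) 𝓘(ℝ, W) Φ y)) (hy : f y = y)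
    (hT : ∀ v, A (fderiv ℝ (Φ ∘ (extChartAt (𝓡 m) y).symm) (extChartAt (𝓡 m) y y) v) =
      fderiv ℝ (Φ ∘ (extChartAt (𝓡 m) y).symm) (extChartAt (𝓡 m) y y) v) :
    ∀ᶠ z in 𝓝 y, f z = z := by
  obtain ⟨h1, h2⟩ := bochner_chart hΦ y
  have h3 := bochner_near (h1.hasStrictFDerivAt one_ne_zero)
    (fun v w h => hi (by rw [h2, h2]; exact h)) A hT
  have hc := continuousAt_extChartAt (I := 𝓡 m) y
  have hfy : Tendsto f (𝓝 y) (𝓝 y) := by
    have := hf.continuousAt (x := y)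
    rwa [ContinuousAt, hy] at this
  have h4 : Tendsto (fun z => (extChartAt (𝓡 m) y (f z), extChartAt (𝓡 m) y z)) (𝓝 y)
      (𝓝 (extChartAt (𝓡 m) y y, extChartAt (𝓡 m) y y)) := (hc.tendsto.comp hfy).prodMk_nhds hc
  have h5 := extChartAt_source_mem_nhds (I := 𝓡 m) y
  filter_upwards [h4.eventually h3, h5, hfy.eventually h5] with z hz hz1 hz2
  refine (extChartAt (𝓡 m) y).injOn hz2 hz1 (hz ?_)
  simp only [Function.comp_apply]
  rw [(extChartAt (𝓡 m) y).left_inv hz1, (extChartAt (𝓡 m) y).left_inv hz2, hA]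

omit [T2Space M] [CompactSpace M] [IsManifold (𝓡 m) ∞ M] in
theorem bochner_closed {Φ : M → W} (hΦ : ContMDiff (𝓡 m) 𝓘(ℝ, W) ∞ Φ)
    (hinj : Function.Injective Φ) (hi : ∀ y, Function.Injective (mfderiv (𝓡 m) 𝓘(ℝ, W) Φ y))
    {f : M → M} (hf : Continuous f) (A : W ≃ₗᵢ[ℝ] W) (hA : ∀ z, Φ (f z) = A (Φ z)) :
    IsClosed {y | ∀ᶠ z in 𝓝 y, f z = z} := by
  refine isClosed_iff_frequently.2 fun y hy => ?_
  obtain ⟨h1, -⟩ := bochner_chart hΦ y
  have hc := continuousAt_extChartAt (I := 𝓡 m) y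
  have hy0 : f y = y := by
    refine hinj (tendsto_nhds_unique_of_frequently_eq
      ((hΦ.continuous.comp hf).tendsto y) (hΦ.continuous.tendsto y) (hy.mono fun z hz => ?_))
    exact congrArg Φ hz.self_of_nhds
  refine bochner_local hΦ hf A hA y (hi y) hy0 fun v => ?_
  have h2 : Tendsto (fun z => fderiv ℝ (Φ ∘ (extChartAt (𝓡 m) y).symm) (extChartAt (𝓡 m) y z) v)
      (𝓝 y) (𝓝 (fderiv ℝ (Φ ∘ (extChartAt (𝓡 m) y).symm) (extChartAt (𝓡 m) y y) v)) :=
    (((ContinuousLinearMap.apply ℝ W v).continuous.tendsto _).comp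
      (h1.continuousAt_fderiv one_ne_zero)).comp hc
  refine tendsto_nhds_unique_of_frequently_eq ((A.continuous.tendsto _).comp h2) h2 ?_
  have h3 := (hc.tendsto.eventually (h1.eventually (by simp))).and
    (extChartAt_source_mem_nhds (I := 𝓡 m) y)
  refine (hy.and_eventually h3).mono fun z ⟨hz, hz1, hz2⟩ => ?_
  have h4 : Tendsto (extChartAt (𝓡 m) y).symm (𝓝 (extChartAt (𝓡 m) y z)) (𝓝 z) := by
    have := continuousAt_extChartAt_symm' hz2
    rwa [ContinuousAt, (extChartAt (𝓡 m) y).left_inv hz2] at this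
  have h5 : (A ∘ (Φ ∘ (extChartAt (𝓡 m) y).symm)) =ᶠ[𝓝 (extChartAt (𝓡 m) y z)]
      Φ ∘ (extChartAt (𝓡 m) y).symm := by
    filter_upwards [h4.eventually hz] with u hu
    simp only [Function.comp_apply]
    rw [← hA, hu]
  have h6 := h5.fderiv_eq (𝕜 := ℝ)
  have h7 := (A.toContinuousLinearEquiv.hasFDerivAt.comp _
    (hz1.differentiableAt one_ne_zero).hasFDerivAt).fderiv
  have h8 := congrArg (fun L => L v) (h7.symm.trans h6)
  exact h8

end Aux2

/-- The tangent representation at a fixed point detects the kernel of the action. -/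
theorem exists_tangent_rep [ConnectedSpace M] {P : Type} [Group P] [Finite P]
    (α : P →* Equiv.Perm M) (hα : ∀ g, ContMDiff (𝓡 m) (𝓡 m) ∞ (α g)) (x : M)
    (hx : ∀ g, α g x = x) :
    ∃ ρ : P →* Matrix (Fin m) (Fin m) ℝ, ∀ g, ρ g = 1 → α g = 1 := by
  obtain ⟨W, _, _, _, Φ, π, hΦ, hinj, hi, heq⟩ := exists_equivariant_embedding α hα
  let D : P → (EuclideanSpace ℝ (Fin m) →L[ℝ] EuclideanSpace ℝ (Fin m)) :=
    fun g => mfderiv (𝓡 m) (𝓡 m) (α g) x
  have hd : ∀ g y, MDifferentiableAt (𝓡 m) (𝓡 m) (α g) y := fun g y =>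
    (hα g).mdifferentiableAt (by simp)
  have hD1 : ∀ v, D 1 v = v := fun v => by
    have : ((α 1 : Equiv.Perm M) : M → M) = id := by rw [map_one]; rfl
    simp only [D]
    rw [this, mfderiv_id]
    rfl
  have hDm : ∀ g h v, D (g * h) v = D g (D h v) := fun g h v => by
    have : ((α (g * h) : Equiv.Perm M) : M → M) = α g ∘ α h := by rw [map_mul]; rfl
    simp only [D]
    rw [this]
    exact mfderiv_comp_apply_of_eq x (hd g x) (hd h x) (hx h) v
  let b := (EuclideanSpace.basisFun (Fin m) ℝ).toBasis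
  let D' : P →* Module.End ℝ (EuclideanSpace ℝ (Fin m)) :=
    { toFun := fun g => (D g : EuclideanSpace ℝ (Fin m) →ₗ[ℝ] EuclideanSpace ℝ (Fin m))
      map_one' := LinearMap.ext hD1
      map_mul' := fun g h => LinearMap.ext (hDm g h) }
  refine ⟨(LinearMap.toMatrixAlgEquiv b).toAlgHom.toMonoidHom.comp D', fun g hg => ?_⟩
  have h1 : D' g = 1 := (LinearMap.toMatrixAlgEquiv b).injective (by rw [map_one]; exact hg)
  have h2 : ∀ v, D g v = v := fun v => LinearMap.congr_fun h1 v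
  have hΦd : ∀ y, MDifferentiableAt (𝓡 m) 𝓘(ℝ, W) Φ y := fun y => hΦ.mdifferentiableAt (by simp)
  have h3 : ∀ᶠ z in 𝓝 x, α g z = z := by
    refine bochner_local hΦ (hα g).continuous (π g) (heq g) x (hi x) (hx g) fun v => ?_
    rw [← (bochner_chart hΦ x).2]
    have e : Φ ∘ α g = (π g).toContinuousLinearEquiv ∘ Φ := funext (heq g)
    have a1 := mfderiv_comp_apply_of_eq x (hΦd x) (hd g x) (hx g) v
    have a2 := mfderiv_comp_apply x
      ((π g).toContinuousLinearEquiv.mdifferentiableAt (x := Φ x)) (hΦd x) v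
    rw [ContinuousLinearEquiv.mfderiv_eq] at a2
    rw [e, a2] at a1
    exact a1.trans (congrArg _ (h2 v))
  have h4 : IsClopen {y | ∀ᶠ z in 𝓝 y, α g z = z} :=
    ⟨bochner_closed hΦ hinj hi (hα g).continuous (π g) (heq g), isOpen_setOfPred_eventually_nhds⟩
  have h5 := h4.eq_univ ⟨x, h3⟩
  ext y
  have : y ∈ {y | ∀ᶠ z in 𝓝 y, α g z = z} := h5 ▸ Set.mem_univ y
  exact Filter.Eventually.self_of_nhds (p := fun z => α g z = z) (x := y) this

end Pool.Agent.P.MP_d483fb_an
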