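import Pool.Agent.P.MP_d483fb_an.Rd

/-!
Comparison of singular homology with the concrete complex of singular chains.
-/

set_option autoImplicit false

namespace Pool.Agent.P.MP_d483fb_an

open CategoryTheory Limits AlgebraicTopology Simplicial

theorem bridge_rank_short (S : ShortComplex (ModuleCat.{0} ℚ)) :
    Module.rank ℚ S.homology = rd (LinearMap.ker S.g.hom) (LinearMap.range S.f.hom) := by
  rw [S.moduleCatHomologyIso.toLinearEquiv.rank_eq]
  let φ : LinearMap.ker S.g.hom →ₗ[ℚ] (S.X₂ ⧸ LinearMap.range S.f.hom) :=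
    (LinearMap.range S.f.hom).mkQ ∘ₗ (LinearMap.ker S.g.hom).subtype
  have h1 : LinearMap.range S.moduleCatToCycles = LinearMap.ker φ := by
    ext x
    simp only [φ, LinearMap.mem_ker, LinearMap.comp_apply, Submodule.mkQ_apply,
      Submodule.Quotient.mk_eq_zero, LinearMap.mem_range, Submodule.subtype_apply]
    constructor
    · rintro ⟨y, rfl⟩
      exact ⟨y, rfl⟩
    · rintro ⟨y, hy⟩
      exact ⟨y, Subtype.ext hy⟩
  have h2 : LinearMap.range φ = (LinearMap.ker S.g.hom).map (LinearMap.range S.f.hom).mkQ := by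
    simp only [φ, LinearMap.range_comp, Submodule.range_subtype]
  have e := (Submodule.quotEquivOfEq _ _ h1).trans φ.quotKerEquivRange
  rw [rd, ← h2]
  exact e.rank_eq

theorem bridge_rank_complex (C : ChainComplex (ModuleCat.{0} ℚ) ℕ) (n : ℕ) :
    Module.rank ℚ (C.homology n) =
      hr (V := fun n => C.X n) (fun n => (C.d (n + 1) n).hom) ⊤ n := by
  cases n with
  | zero =>
    rw [(C.homologyIsoSc' 1 0 0 (by simp) (by simp)).toLinearEquiv.rank_eq, bridge_rank_short]
    have h0 : C.d 0 0 = 0 := C.shape 0 0 (by simp)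
    have h1 : LinearMap.ker (C.sc' 1 0 0).g.hom = ⊤ := by
      change LinearMap.ker (C.d 0 0).hom = ⊤
      rw [h0]; simp
    rw [h1, hr, bdy, cyc, Pi.top_apply, Pi.top_apply, Submodule.map_top]
    rfl
  | succ n =>
    rw [(C.homologyIsoSc' (n + 2) (n + 1) n (by simp) (by simp)).toLinearEquiv.rank_eq,
      bridge_rank_short, hr, bdy, cyc, Pi.top_apply, Pi.top_apply, Submodule.map_top, top_inf_eq]
    rfl

section

variable (X : Type) [TopologicalSpace X]

/-- The singular chain complex of the library. -/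
noncomputable abbrev bridgeCx : ChainComplex (ModuleCat.{0} ℚ) ℕ :=
  (TopCat.toSSet.obj (TopCat.of X)).chainComplex (ModuleCat.of ℚ ℚ)

/-- Simplices of the singular simplicial set. -/
noncomputable def bridgeSimp (n : ℕ) : (TopCat.toSSet.obj (TopCat.of X)) _⦋n⦌ ≃ Simp X n :=
  (TopCat.of X).toSSetObjEquiv (Opposite.op ⦋n⦌)

theorem bridgeSimp_symm_face {n : ℕ} (i : Fin (n + 2)) (σ : Simp X (n + 1)) :
    (bridgeSimp X n).symm (face i σ) =
      (TopCat.toSSet.obj (TopCat.of X)).δ i ((bridgeSimp X (n + 1)).symm σ) := rfl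

/-- The comparison map. -/
noncomputable def bridgeTo (n : ℕ) : Chn X n →ₗ[ℚ] (bridgeCx X).X n :=
  Finsupp.linearCombination ℚ fun σ : Simp X n =>
    ((TopCat.toSSet.obj (TopCat.of X)).ιChainComplex (R := ModuleCat.of ℚ ℚ)
      ((bridgeSimp X n).symm σ)).hom (1 : ℚ)

/-- The inverse of the comparison map. -/
noncomputable def bridgeInv (n : ℕ) : (bridgeCx X).X n ⟶ ModuleCat.of ℚ (Chn X n) :=
  Sigma.desc fun x => ModuleCat.ofHom (Finsupp.lsingle (bridgeSimp X n x))

theorem bridge_ι_inv (n : ℕ) (x : (TopCat.toSSet.obj (TopCat.of X)) _⦋n⦌) :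
    (TopCat.toSSet.obj (TopCat.of X)).ιChainComplex (R := ModuleCat.of ℚ ℚ) x ≫ bridgeInv X n =
      ModuleCat.ofHom (Finsupp.lsingle (bridgeSimp X n x)) :=
  Sigma.ι_desc _ _

theorem bridgeTo_single (n : ℕ) (σ : Simp X n) (c : ℚ) :
    bridgeTo X n (Finsupp.single σ c) =
      ((TopCat.toSSet.obj (TopCat.of X)).ιChainComplex (R := ModuleCat.of ℚ ℚ)
        ((bridgeSimp X n).symm σ)).hom c := by
  rw [bridgeTo, Finsupp.linearCombination_single, ← map_smul, smul_eq_mul, mul_one]

theorem bridgeInv_to (n : ℕ) (c : Chn X n) : (bridgeInv X n).hom (bridgeTo X n c) = c := by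
  induction c using Finsupp.induction_linear with
  | zero => simp
  | add a b ha hb => rw [map_add, map_add, ha, hb]
  | single σ c =>
    rw [bridgeTo_single]
    have h := congrArg (fun f => f.hom c) (bridge_ι_inv X n ((bridgeSimp X n).symm σ))
    simpa using h

theorem bridgeTo_inv (n : ℕ) (c : (bridgeCx X).X n) :
    bridgeTo X n ((bridgeInv X n).hom c) = c := by
  have h : bridgeInv X n ≫ ModuleCat.ofHom (bridgeTo X n) = 𝟙 _ := by
    refine SSet.chainComplex_hom_ext fun x => ?_
    rw [← Category.assoc, bridge_ι_inv, Category.comp_id]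
    ext
    simp [bridgeTo_single]
  exact congrArg (fun f => f.hom c) h

theorem bridgeTo_bd (n : ℕ) (c : Chn X (n + 1)) :
    bridgeTo X n (bd X n c) = ((bridgeCx X).d (n + 1) n).hom (bridgeTo X (n + 1) c) := by
  induction c using Finsupp.induction_linear with
  | zero => simp
  | add a b ha hb => rw [map_add, map_add, ha, hb, map_add, map_add]
  | single σ c =>
    have h := congrArg (fun f => f.hom c)
      ((TopCat.toSSet.obj (TopCat.of X)).ιChainComplex_d (ModuleCat.of ℚ ℚ)
        ((bridgeSimp X (n + 1)).symm σ))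
    simp only [ModuleCat.hom_comp, LinearMap.comp_apply, ModuleCat.hom_sum,
      LinearMap.sum_apply] at h
    rw [bridgeTo_single, h, bd, Finsupp.linearCombination_single, map_smul, map_sum,
      Finset.smul_sum]
    refine Finset.sum_congr rfl fun i _ => ?_
    rw [map_smul, bridgeTo_single, bridgeSimp_symm_face, ← map_smul, ← map_smul]
    rw [ModuleCat.hom_zsmul, LinearMap.smul_apply, ← map_zsmul]
    congr 1
    simp [mul_comm]

end

theorem rank_homology (X : Type) [TopologicalSpace X] (n : ℕ) :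
    Module.rank ℚ (((AlgebraicTopology.singularHomologyFunctor (ModuleCat.{0} ℚ) n).obj
      (ModuleCat.of ℚ ℚ)).obj (TopCat.of X)) = hr (bd X) ⊤ n := by
  have h1 := bridge_rank_complex (bridgeCx X) n
  have h2 := hr_map (d := bd X) (V' := fun n => (bridgeCx X).X n)
    (d' := fun n => ((bridgeCx X).d (n + 1) n).hom) (bridgeTo X)
    (fun n => Function.LeftInverse.injective (bridgeInv_to X n)) (bridgeTo_bd X) ⊤ n
  have h3 : (fun n => ((⊤ : ∀ n, Submodule ℚ (Chn X n)) n).map (bridgeTo X n)) = ⊤ := by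
    funext n
    rw [Pi.top_apply, Pi.top_apply, Submodule.map_top, LinearMap.range_eq_top]
    exact Function.RightInverse.surjective (bridgeTo_inv X n)
  rw [h3] at h2
  exact h1.trans h2

theorem eulerChar_eq_chi (X : Type) [TopologicalSpace X] : eulerChar X = chi (bd X) ⊤ := by
  unfold eulerChar chi
  refine finsum_congr fun n => ?_
  rw [← rank_homology, Module.finrank]

theorem hr_subtype {X : Type} [TopologicalSpace X] (S : Set X) (n : ℕ) :
    hr (bd X) (chn S) n = hr (bd S) ⊤ n := by
  let j : C(S, X) := ⟨Subtype.val, continuous_subtype_val⟩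
  let f : ∀ n, Chn S n →ₗ[ℚ] Chn X n := fun n =>
    Finsupp.lmapDomain ℚ ℚ fun σ : Simp S n => j.comp σ
  have hinj : ∀ n, Function.Injective (f n) := fun n =>
    Finsupp.mapDomain_injective fun σ τ h => by
      ext t
      exact congrArg (fun g : Simp X n => g t) h
  have hc : ∀ n c, f n (bd S n c) = bd X n (f (n + 1) c) := by
    intro n c
    induction c using Finsupp.induction_linear with
    | zero => simp
    | add a b ha hb => rw [map_add, map_add, ha, hb, map_add, map_add]
    | single σ c =>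
      simp only [f, bd, Finsupp.lmapDomain_apply, Finsupp.mapDomain_single,
        Finsupp.linearCombination_single, map_smul, map_sum]
      rfl
  have h2 := hr_map (d := bd S) (d' := bd X) f hinj hc ⊤ n
  have h3 : (fun n => ((⊤ : ∀ n, Submodule ℚ (Chn S n)) n).map (f n)) = chn S := by
    funext n
    rw [Pi.top_apply, ← Finsupp.supported_univ, Finsupp.lmapDomain_supported, chn]
    congr 1
    ext σ
    constructor
    · rintro ⟨τ, _, rfl⟩ _ ⟨t, rfl⟩
      exact (τ t).2
    · intro h
      exact ⟨⟨fun t => ⟨σ t, h ⟨t, rfl⟩⟩, σ.continuous.subtype_mk _⟩, trivial, rfl⟩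
  rw [h3] at h2
  exact h2

theorem hr_contractible (X : Type) [TopologicalSpace X] [ContractibleSpace X] :
    hr (bd X) ⊤ 0 = 1 ∧ ∀ n, hr (bd X) ⊤ (n + 1) = 0 := by
  constructor
  · rw [← rank_homology]
    have : PathConnectedSpace (TopCat.of X) := inferInstanceAs (PathConnectedSpace X)
    rw [(asIso ((TopCat.of X).singularHomology₀ε (ModuleCat.of ℚ ℚ))).toLinearEquiv.rank_eq]
    exact Module.rank_self ℚ
  · intro n
    rw [← rank_homology]
    obtain ⟨e⟩ := ContractibleSpace.hequiv_unit X
    obtain ⟨H⟩ := e.left_inv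
    let F := (singularHomologyFunctor (ModuleCat.{0} ℚ) (n + 1)).obj (ModuleCat.of ℚ ℚ)
    let f : TopCat.of X ⟶ TopCat.of Unit := TopCat.ofHom e.toFun
    let g : TopCat.of Unit ⟶ TopCat.of X := TopCat.ofHom e.invFun
    have h1 : F.map (f ≫ g) = F.map (𝟙 (TopCat.of X)) :=
      TopCat.Homotopy.congr_homologyMap_singularChainComplexFunctor
        (f := f ≫ g) (g := 𝟙 (TopCat.of X)) H (ModuleCat.of ℚ ℚ) (n + 1)
    have h2 : IsZero (F.obj (TopCat.of Unit)) :=
      isZero_singularHomologyFunctor_of_totallyDisconnectedSpace _ _ _ _ (Nat.succ_ne_zero n)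
    have h3 : IsZero (F.obj (TopCat.of X)) := by
      rw [IsZero.iff_id_eq_zero, ← F.map_id, ← h1, F.map_comp, h2.eq_of_tgt (F.map f) 0,
        zero_comp]
    have := ModuleCat.isZero_iff_subsingleton.mp h3
    exact rank_subsingleton' ℚ (F.obj (TopCat.of X))

end Pool.Agent.P.MP_d483fb_an
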