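import Pool.Agent.P.MP_d483fb_an.Smith

set_option autoImplicit false

namespace Pool.Agent.P.MP_d483fb_an

variable {V : Type} [AddCommGroup V] [Module ℚ V] {B : LinearMap.BilinForm ℚ V}
  {Λ : Submodule ℤ V} {e₁ f₁ e₂ f₂ : V}

/-- The core computation: an Eichler transformation attached to a pair congruent to `e₁, e₂`. -/
theorem cent_core (hΛ : Lat B Λ) (hF : Frame B Λ e₁ f₁ e₂ f₂) {m : ℕ} (hm : 0 < m)
    {K : Subgroup (V ≃ₗ[ℚ] V)} (hK : Nrm (OL B Λ) K) (h₁ : Lvl B Λ m K e₁)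
    (h₁' : Lvl B Λ m K f₁) {v₁ v₂ a b : V} (ha : a ∈ Λ) (hb : b ∈ Λ)
    (e1 : v₁ = e₁ + (m : ℚ) • a) (e2 : v₂ = e₂ + (m : ℚ) • b) (h11 : B v₁ v₁ = 0)
    (h12 : B v₁ v₂ = 0) (hv : Lvl B Λ m K v₁) (r s : ℤ)
    (hw : B v₁ ((((m : ℤ) * r : ℤ) : ℚ) • e₁ + ((1 + (m : ℤ) * s : ℤ) : ℚ) • e₂) = 0) :
    eich B v₁ v₂ * (eich B e₁ e₂)⁻¹ ∈ K := by
  have hB := hΛ.symm
  have hm' : (m : ℚ) ≠ 0 := by exact_mod_cast hm.ne'
  have h21 : B e₂ e₁ = 0 := (hB _ _).trans hF.e₁e₂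
  have hlw := lvl_plane hΛ hF hK h₁ h₁' ((m : ℤ) * r) (1 + (m : ℤ) * s)
  set w : V := (((m : ℤ) * r : ℤ) : ℚ) • e₁ + ((1 + (m : ℤ) * s : ℤ) : ℚ) • e₂ with hwdef
  have hww : B w w = 0 := by
    simp only [hwdef, map_add, map_smul, LinearMap.add_apply, LinearMap.smul_apply, hF.e₁e₁,
      hF.e₁e₂, hF.e₂e₂, h21, smul_zero, add_zero]
  have he₁w : B e₁ w = 0 := by
    simp only [hwdef, map_add, map_smul, hF.e₁e₁, hF.e₁e₂, smul_zero, add_zero]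
  have hwe₁ : B w e₁ = 0 := (hB _ _).trans he₁w
  have hwv : B w v₁ = 0 := (hB _ _).trans hw
  -- first step
  set u' : V := b - ((r : ℚ) • e₁ + (s : ℚ) • e₂) with hu'
  have hu'Λ : u' ∈ Λ :=
    Λ.sub_mem hb (Λ.add_mem (intCast_smul_mem hF.me₁ r) (intCast_smul_mem hF.me₂ s))
  have d1 : v₂ = (m : ℚ) • u' + w := by
    rw [e2, hu', hwdef]
    push_cast
    module
  have hvu' : B v₁ u' = 0 := by
    have h := h12
    rw [d1, map_add, map_smul, hw, add_zero, smul_eq_mul] at h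
    exact (mul_eq_zero.1 h).resolve_left hm'
  have s1 : eich B v₁ v₂ = eich B v₁ ((m : ℚ) • u') * eich B v₁ w := by
    rw [d1]
    exact eich_add hB h11 (by rw [map_smul, hvu', smul_zero]) hw
  -- second step
  have d2 : -v₁ = (m : ℚ) • (-a) + -e₁ := by
    rw [e1]
    module
  have hwa : B w (-a) = 0 := by
    have h := hwv
    rw [e1, map_add, map_smul, hwe₁, zero_add, smul_eq_mul] at h
    rw [map_neg, (mul_eq_zero.1 h).resolve_left hm', neg_zero]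
  have s2 : eich B v₁ w = eich B w ((m : ℚ) • (-a)) * eich B e₁ w := by
    rw [eich_swap hB h11 hw hww, eich_swap hB hF.e₁e₁ he₁w hww, d2]
    exact eich_add hB hww (by rw [map_smul, hwa, smul_zero]) (by rw [map_neg, hwe₁, neg_zero])
  -- third step
  have hse : B e₁ ((s : ℚ) • e₂) = 0 := by rw [map_smul, hF.e₁e₂, smul_zero]
  have d3 : w = ((m : ℚ) • ((s : ℚ) • e₂) + e₂) + ((m : ℚ) * r) • e₁ := by
    rw [hwdef]
    push_cast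
    module
  have s3 : eich B e₁ w = eich B e₁ ((m : ℚ) • ((s : ℚ) • e₂)) * eich B e₁ e₂ := by
    have hme : B e₁ ((m : ℚ) • ((s : ℚ) • e₂)) = 0 := by rw [map_smul, hse, smul_zero]
    rw [d3, eich_add_smul hB hF.e₁e₁ (by rw [map_add, hme, hF.e₁e₂, add_zero])]
    exact eich_add hB hF.e₁e₁ hme hF.e₁e₂
  rw [s1, s2, s3, mul_assoc, mul_assoc, mul_assoc, mul_inv_cancel, mul_one]
  exact K.mul_mem (hv u' hu'Λ hvu') (K.mul_mem (hlw (-a) (Λ.neg_mem ha) hwa)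
    (h₁ _ (intCast_smul_mem hF.me₂ s) hse))

/-- A congruence subgroup centralises the long root element modulo `K`. -/
theorem cent (hΛ : Lat B Λ) (hF : Frame B Λ e₁ f₁ e₂ f₂) {u₀ : V} (hu₀ : u₀ ∈ Λ)
    (hp : Perp B e₁ f₁ e₂ f₂ u₀) (ha : B u₀ u₀ ≠ 0) {m : ℕ} (hm : 0 < m)
    {K : Subgroup (V ≃ₗ[ℚ] V)} (hK : Nrm (OL B Λ) K) (h₁ : Lvl B Λ m K e₁)
    (h₁' : Lvl B Λ m K f₁) :
    ∃ M : ℕ, 0 < M ∧ ∀ g ∈ Cong B Λ M, g * eich B e₁ e₂ * g⁻¹ * (eich B e₁ e₂)⁻¹ ∈ K := by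
  have hB := hΛ.symm
  obtain ⟨c, hc⟩ := hΛ.even u₀ hu₀
  have hc0 : c ≠ 0 := by
    rintro rfl
    exact ha (by rw [hc]; simp)
  obtain ⟨p1, p2, p3, -⟩ := hp
  refine ⟨m ^ 3 * c.natAbs ^ 2, by positivity, fun g hg => ?_⟩
  obtain ⟨hgO, hgc⟩ := mem_Cong.1 hg
  have hM : ((m ^ 3 * c.natAbs ^ 2 : ℕ) : ℚ) = (m : ℚ) ^ 3 * (c : ℚ) ^ 2 := by
    rw [Nat.cast_mul, Nat.cast_pow, Nat.cast_pow, Nat.cast_natAbs, Int.cast_abs, sq_abs]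
  have hfu : B f₁ ((m : ℚ) • u₀) = 0 := by rw [map_smul, p2, smul_zero]
  set n := eich B f₁ ((m : ℚ) • u₀) with hn
  have hnK : n ∈ K := h₁' u₀ hu₀ p2
  have hnO : n ∈ OL B Λ := eich_mem_OL hΛ hF.mf₁ (natCast_smul_mem hu₀ m)
  have hngO : n * g ∈ OL B Λ := (OL B Λ).mul_mem hnO hgO
  have hfe : B f₁ e₁ = 1 := (hB _ _).trans hF.e₁f₁
  have hne₁ : n e₁ = e₁ + (m : ℚ) • u₀ - ((m : ℚ) ^ 2 * c) • f₁ := by
    have h0 : B u₀ e₁ = 0 := (hB _ _).trans p1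
    rw [hn, eich_apply hB hF.f₁f₁ hfu]
    simp only [map_smul, LinearMap.smul_apply, smul_eq_mul, hfe, h0, hc]
    module
  have hne₂ : n e₂ = e₂ := by
    have h0 : B u₀ e₂ = 0 := (hB _ _).trans p3
    exact eich_fix hB hF.f₁f₁ hfu hF.f₁e₂
      (by rw [map_smul, LinearMap.smul_apply, h0, smul_zero])
  obtain ⟨a, haΛ, ga⟩ := hgc e₁ hF.me₁
  obtain ⟨b, hbΛ, gb⟩ := hgc e₂ hF.me₂
  rw [hM] at ga gb
  have hna : n a ∈ Λ := (hnO.2 a).2 haΛ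
  have hnb : n b ∈ Λ := (hnO.2 b).2 hbΛ
  obtain ⟨k, hk⟩ := hΛ.int hF.me₁ hna
  obtain ⟨t, ht⟩ := hΛ.int hF.me₂ hna
  have v1 : (n * g) e₁ =
      e₁ + (m : ℚ) • u₀ - ((m : ℚ) ^ 2 * c) • f₁ + ((m : ℚ) ^ 3 * (c : ℚ) ^ 2) • n a := by
    rw [mul_apply', ga, map_add, map_smul, hne₁]
  have v2 : (n * g) e₂ = e₂ + ((m : ℚ) ^ 3 * (c : ℚ) ^ 2) • n b := by
    rw [mul_apply', gb, map_add, map_smul, hne₂]
  have b1 : B e₁ ((n * g) e₁) = -((m : ℚ) ^ 2 * c) + (m : ℚ) ^ 3 * (c : ℚ) ^ 2 * k := by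
    rw [v1]
    simp only [map_add, map_sub, map_smul, smul_eq_mul, hF.e₁e₁, hF.e₁f₁, p1, hk]
    ring
  have b2 : B e₂ ((n * g) e₁) = (m : ℚ) ^ 3 * (c : ℚ) ^ 2 * t := by
    have h21 : B e₂ e₁ = 0 := (hB _ _).trans hF.e₁e₂
    have h2f : B e₂ f₁ = 0 := (hB _ _).trans hF.f₁e₂
    rw [v1]
    simp only [map_add, map_sub, map_smul, smul_eq_mul, h21, h2f, p3, ht]
    ring
  have core := cent_core hΛ hF hm hK h₁ h₁' (v₁ := (n * g) e₁) (v₂ := (n * g) e₂)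
    (a := u₀ - (((m : ℤ) * c : ℤ) : ℚ) • f₁ + (((m : ℤ) ^ 2 * c ^ 2 : ℤ) : ℚ) • n a)
    (b := (((m : ℤ) ^ 2 * c ^ 2 : ℤ) : ℚ) • n b)
    (Λ.add_mem (Λ.sub_mem hu₀ (intCast_smul_mem hF.mf₁ _)) (intCast_smul_mem hna _))
    (intCast_smul_mem hnb _)
    (by rw [v1]; push_cast; module) (by rw [v2]; push_cast; module)
    (by rw [hngO.1, hF.e₁e₁]) (by rw [hngO.1, hF.e₁e₂])
    (Lvl.conj hΛ hK hF.e₁e₁ h₁ hngO) (c * t) (-(c * k))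
    (by
      rw [map_add, map_smul, map_smul, hB _ e₁, hB _ e₂, b1, b2, smul_eq_mul, smul_eq_mul]
      push_cast
      ring)
  rw [← eich_conj hB hngO.1 hF.e₁e₁ hF.e₁e₂] at core
  have hE : eich B e₁ e₂ ∈ OL B Λ := eich_mem_OL hΛ hF.me₁ hF.me₂
  have e : g * eich B e₁ e₂ * g⁻¹ * (eich B e₁ e₂)⁻¹ =
      n⁻¹ * (n * g * eich B e₁ e₂ * (n * g)⁻¹ * (eich B e₁ e₂)⁻¹) *
        (eich B e₁ e₂ * n * (eich B e₁ e₂)⁻¹) := by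
    group
  rw [e]
  exact K.mul_mem (K.mul_mem (K.inv_mem hnK) core) (hK _ hE _ hnK)

end Pool.Agent.P.MP_d483fb_an
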