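import Pool.Agent.P.MP_d483fb_an.Eich

set_option autoImplicit false

namespace Pool.Agent.P.MP_d483fb_an

variable {V : Type} [AddCommGroup V] [Module ℚ V] {B : LinearMap.BilinForm ℚ V}
  {Λ : Submodule ℤ V} {e₁ f₁ e₂ f₂ : V}

theorem Congr_relIndex_ne_zero {G F : Type} [Group G] [Finite F] {H K : Subgroup G} (φ : K → F)
    (h : ∀ g g' : K, φ g = φ g' → ((g⁻¹ * g' : K) : G) ∈ H) : H.relIndex K ≠ 0 := by
  rw [Subgroup.relIndex, Subgroup.index_ne_zero_iff_finite]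
  refine Finite.of_injective (fun q : K ⧸ H.subgroupOf K => φ q.out) fun q q' hq => ?_
  rw [← QuotientGroup.out_eq' q, ← QuotientGroup.out_eq' q', QuotientGroup.eq]
  exact h _ _ hq

theorem finite_mod (hΛ : Λ.FG) {M : ℕ} (hM : 0 < M) :
    ∃ T : Set V, T.Finite ∧ ∀ x ∈ Λ, ∃ t ∈ T, ∃ y ∈ Λ, x = t + (M : ℚ) • y := by
  classical
  obtain ⟨s, rfl⟩ := hΛ
  induction s using Finset.induction_on with
  | empty =>
    refine ⟨{0}, Set.finite_singleton _, fun x hx => ⟨0, rfl, 0, Submodule.zero_mem _, ?_⟩⟩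
    simpa using hx
  | insert a s _ ih =>
    obtain ⟨T, hT, h⟩ := ih
    refine ⟨Set.image2 (fun (r : ℤ) t => (r : ℚ) • a + t) (Set.Ico 0 M) T,
      (Set.finite_Ico _ _).image2 _ hT, fun x hx => ?_⟩
    rw [Finset.coe_insert] at hx ⊢
    obtain ⟨c, z, hz, rfl⟩ := Submodule.mem_span_insert.1 hx
    obtain ⟨t, ht, y, hy, rfl⟩ := h z hz
    have hM' : (0 : ℤ) < M := by exact_mod_cast hM
    refine ⟨_, ⟨c % M, ⟨Int.emod_nonneg _ hM'.ne', Int.emod_lt_of_pos _ hM'⟩, t, ht, rfl⟩,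
      (c / M) • a + y, Submodule.mem_span_insert.2 ⟨_, y, hy, rfl⟩, ?_⟩
    have e : (c : ℚ) = ((c % M : ℤ) : ℚ) + (M : ℚ) * ((c / M : ℤ) : ℚ) := by
      exact_mod_cast (Int.emod_add_mul_ediv c M).symm
    rw [← Int.cast_smul_eq_zsmul ℚ c, ← Int.cast_smul_eq_zsmul ℚ (c / M), e]
    module

theorem cong_le {M M' : ℕ} (h : M ∣ M') : Cong B Λ M' ≤ Cong B Λ M := by
  obtain ⟨k, rfl⟩ := h
  refine fun g hg => ⟨hg.1, fun x hx => ?_⟩
  obtain ⟨y, hy, e⟩ := hg.2 x hx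
  exact ⟨(k : ℚ) • y, natCast_smul_mem hy k, by rw [e, Nat.cast_mul, mul_smul]⟩

theorem cong_nrm (M : ℕ) : Nrm (OL B Λ) (Cong B Λ M) := by
  refine fun γ hγ g hg => ⟨(OL B Λ).mul_mem ((OL B Λ).mul_mem hγ hg.1) ((OL B Λ).inv_mem hγ),
    fun x hx => ?_⟩
  obtain ⟨y, hy, e⟩ := hg.2 (γ⁻¹ x) ((((OL B Λ).inv_mem hγ).2 x).2 hx)
  refine ⟨γ y, (hγ.2 y).2 hy, ?_⟩
  rw [mul_apply', mul_apply', e, map_add, map_smul, apply_inv_apply']

theorem cong_relIndex (hΛ : Λ.FG) {M : ℕ} (hM : 0 < M) :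
    (Cong B Λ M).relIndex (OL B Λ) ≠ 0 := by
  obtain ⟨T, hT, h⟩ := finite_mod hΛ hM
  obtain ⟨s, hs⟩ := hΛ
  have := hT.to_subtype
  choose t ht y hy e using h
  have hm : ∀ (g : OL B Λ) (x : s), (g : V ≃ₗ[ℚ] V) x ∈ Λ := fun g x =>
    (g.2.2 x).2 (hs ▸ Submodule.subset_span x.2)
  refine Congr_relIndex_ne_zero (F := s → T) (fun g x => ⟨t _ (hm g x), ht _ _⟩)
    fun g g' hg => ⟨(g⁻¹ * g').2, fun x hx => ?_⟩
  rw [← hs] at hx
  induction hx using Submodule.span_induction with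
  | mem x hx =>
    have h1 : t _ (hm g ⟨x, hx⟩) = t _ (hm g' ⟨x, hx⟩) :=
      congrArg Subtype.val (congrFun hg ⟨x, hx⟩)
    have h2 := e _ (hm g ⟨x, hx⟩)
    have h3 := e _ (hm g' ⟨x, hx⟩)
    refine ⟨(g : V ≃ₗ[ℚ] V)⁻¹ (y _ (hm g' ⟨x, hx⟩) - y _ (hm g ⟨x, hx⟩)),
      (((OL B Λ).inv_mem g.2).2 _).2 (Λ.sub_mem (hy _ _) (hy _ _)), ?_⟩
    have h4 : (g' : V ≃ₗ[ℚ] V) x = (g : V ≃ₗ[ℚ] V) x +
        (M : ℚ) • (y _ (hm g' ⟨x, hx⟩) - y _ (hm g ⟨x, hx⟩)) := by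
      rw [smul_sub, ← sub_eq_iff_eq_add'.2 h2, ← sub_eq_iff_eq_add'.2 h3, h1]
      abel
    refine (congrArg (fun v => (g : V ≃ₗ[ℚ] V)⁻¹ v) h4).trans ?_
    simp only [map_add, map_smul, inv_apply_apply']
  | zero => exact ⟨0, Λ.zero_mem, by simp⟩
  | add x x' _ _ h1 h2 =>
    obtain ⟨a, ha, e1⟩ := h1
    obtain ⟨b, hb, e2⟩ := h2
    refine ⟨a + b, Λ.add_mem ha hb, ?_⟩
    rw [map_add, e1, e2, smul_add]
    abel
  | smul c x _ h1 =>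
    obtain ⟨a, ha, e1⟩ := h1
    refine ⟨c • a, Λ.smul_mem c ha, ?_⟩
    rw [map_zsmul, e1, smul_add, smul_comm c]

theorem Congr_exists_smul {L : Submodule ℤ V} (hL : Submodule.span ℚ (L : Set V) = ⊤) (x : V) :
    ∃ k : ℕ, 0 < k ∧ (k : ℚ) • x ∈ L := by
  have hx : x ∈ Submodule.span ℚ (L : Set V) := hL ▸ Submodule.mem_top
  induction hx using Submodule.span_induction with
  | mem x hx => exact ⟨1, one_pos, by simpa using hx⟩
  | zero => exact ⟨1, one_pos, by simp⟩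
  | add x x' _ _ h1 h2 =>
    obtain ⟨k, hk, h1⟩ := h1
    obtain ⟨l, hl, h2⟩ := h2
    refine ⟨k * l, mul_pos hk hl, ?_⟩
    have e : ((k * l : ℕ) : ℚ) • (x + x') = (l : ℚ) • (k : ℚ) • x + (k : ℚ) • (l : ℚ) • x' := by
      push_cast
      module
    rw [e]
    exact L.add_mem (natCast_smul_mem h1 l) (natCast_smul_mem h2 k)
  | smul c x _ h1 =>
    obtain ⟨k, hk, h1⟩ := h1
    refine ⟨k * c.den, mul_pos hk c.den_pos, ?_⟩
    have e : ((k * c.den : ℕ) : ℚ) • c • x = (c.num : ℚ) • (k : ℚ) • x := by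
      rw [← Rat.mul_den_eq_num c]
      push_cast
      module
    rw [e]
    exact intCast_smul_mem h1 _

theorem exists_smul_mem {L : Submodule ℤ V} (hL : Submodule.span ℚ (L : Set V) = ⊤) (hΛ : Λ.FG) :
    ∃ k : ℕ, 0 < k ∧ ∀ x ∈ Λ, (k : ℚ) • x ∈ L := by
  classical
  obtain ⟨s, rfl⟩ := hΛ
  induction s using Finset.induction_on with
  | empty =>
    refine ⟨1, one_pos, fun x hx => ?_⟩
    have : x = 0 := by simpa using hx
    simp [this]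
  | insert a s _ ih =>
    obtain ⟨k, hk, h1⟩ := ih
    obtain ⟨l, hl, h2⟩ := Congr_exists_smul hL a
    refine ⟨k * l, mul_pos hk hl, fun x hx => ?_⟩
    rw [Finset.coe_insert] at hx
    obtain ⟨c, z, hz, rfl⟩ := Submodule.mem_span_insert.1 hx
    have e : ((k * l : ℕ) : ℚ) • (c • a + z) =
        (k : ℚ) • (c : ℚ) • (l : ℚ) • a + (l : ℚ) • (k : ℚ) • z := by
      rw [← Int.cast_smul_eq_zsmul ℚ c]
      push_cast
      module
    rw [e]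
    exact L.add_mem (natCast_smul_mem (intCast_smul_mem h2 c) k) (natCast_smul_mem (h1 z hz) l)

/-- The groups of two lattices are commensurable. -/
theorem OL_relIndex {L : Submodule ℤ V} (hL : L.FG) (hL' : Submodule.span ℚ (L : Set V) = ⊤)
    (hΛ : Λ.FG) (hΛ' : Submodule.span ℚ (Λ : Set V) = ⊤) : (OL B L).relIndex (OL B Λ) ≠ 0 := by
  obtain ⟨k, hk, h1⟩ := exists_smul_mem hL' hΛ
  obtain ⟨l, hl, h2⟩ := exists_smul_mem hΛ' hL
  have key : ∀ g ∈ Cong B Λ (l * k), ∀ x ∈ L, g x ∈ L := by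
    intro g hg x hx
    obtain ⟨y, hy, e⟩ := hg.2 _ (h2 x hx)
    have hl' : (l : ℚ) ≠ 0 := by exact_mod_cast hl.ne'
    rw [map_smul, Nat.cast_mul, mul_smul, ← smul_add] at e
    rw [smul_right_injective V hl' e]
    exact L.add_mem hx (h1 y hy)
  have hle : Cong B Λ (l * k) ≤ OL B L := fun g hg => ⟨hg.1.1, fun x => ⟨fun hx => by
    have := key g⁻¹ ((Cong B Λ (l * k)).inv_mem hg) _ hx
    rwa [inv_apply_apply'] at this, key g hg x⟩⟩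
  exact fun h => cong_relIndex hΛ (mul_pos hl hk) (Subgroup.relIndex_eq_zero_of_le_left hle h)

theorem ample_of_relIndex (hB : ∀ x y, B x y = B y x) (hΛ : Λ.FG)
    (hΛ' : Submodule.span ℚ (Λ : Set V) = ⊤) {Γ : Subgroup (V ≃ₗ[ℚ] V)} (hΓ : Γ ≤ OL B Λ)
    (hi : Γ.relIndex (OL B Λ) ≠ 0) : Ample B Γ := by
  refine ⟨fun g hg => (hΓ hg).1, fun z hz u hu => ?_⟩
  have h0 : ∀ (φ : V →ₗ[ℚ] ℚ) (w : V), ∃ k : ℕ, 0 < k ∧ ∀ x ∈ Λ, (k : ℚ) • φ x • w ∈ Λ := by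
    intro φ w
    obtain ⟨k, hk, h⟩ := exists_smul_mem hΛ'
      (hΛ.map ((φ.smulRight w).restrictScalars ℤ))
    exact ⟨k, hk, fun x hx => h _ (Submodule.mem_map_of_mem hx)⟩
  obtain ⟨k₁, hk₁, h1⟩ := h0 (B z) u
  obtain ⟨k₂, hk₂, h2⟩ := h0 (B u) z
  obtain ⟨k₃, hk₃, h3⟩ := h0 (B z) ((B u u / 2) • z)
  have key : ∀ ε : ℤ, ∀ x ∈ Λ, eich B z ((ε : ℚ) • ((k₁ * k₂ * k₃ : ℕ) : ℚ) • u) x ∈ Λ := by
    intro ε x hx
    have e : eich B z ((ε : ℚ) • ((k₁ * k₂ * k₃ : ℕ) : ℚ) • u) x =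
        x + ((ε * k₂ * k₃ : ℤ) : ℚ) • (k₁ : ℚ) • B z x • u -
          ((ε * k₁ * k₃ : ℤ) : ℚ) • (k₂ : ℚ) • B u x • z -
          ((ε ^ 2 * k₁ ^ 2 * k₂ ^ 2 * k₃ : ℤ) : ℚ) • (k₃ : ℚ) • B z x • (B u u / 2) • z := by
      rw [eich_apply hB hz (by simp [hu])]
      simp only [map_smul, LinearMap.smul_apply, smul_eq_mul]
      push_cast
      module
    rw [e]
    exact Λ.sub_mem (Λ.sub_mem (Λ.add_mem hx (intCast_smul_mem (h1 x hx) _))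
      (intCast_smul_mem (h2 x hx) _)) (intCast_smul_mem (h3 x hx) _)
  have hu' : B z (((k₁ * k₂ * k₃ : ℕ) : ℚ) • u) = 0 := by simp [hu]
  have hmem : eich B z (((k₁ * k₂ * k₃ : ℕ) : ℚ) • u) ∈ OL B Λ := by
    refine ⟨eich_mem_OG _ _, fun x => ⟨fun hx => ?_, fun hx => ?_⟩⟩
    · have := key (-1) _ hx
      rwa [Int.cast_neg, Int.cast_one, neg_one_smul, eich_neg hB hz hu', inv_apply_apply'] at this
    · have := key 1 _ hx
      rwa [Int.cast_one, one_smul] at this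
  obtain ⟨n, hn, -, h⟩ := Subgroup.exists_pow_mem_of_relIndex_ne_zero hi hmem
  refine ⟨n * (k₁ * k₂ * k₃), by positivity, ?_⟩
  rw [Nat.cast_mul n, mul_smul, eich_natCast_smul hB hz hu']
  exact h.1

end Pool.Agent.P.MP_d483fb_an
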