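import Mathlib

/-!
Definitions used in the statements: the Euler characteristic of a space (rational singular
homology) and the integral orthogonal group of a symmetric integral matrix.
-/

set_option autoImplicit false

open scoped Matrix

namespace Pool.Agent.P.MP_d483fb_an

/-- The Euler characteristic: alternating sum of the dimensions of the rational singular
homology groups. -/
noncomputable def eulerChar (X : Type) [TopologicalSpace X] : ℤ :=
  ∑ᶠ i : ℕ, (-1) ^ i * (Module.finrank ℚ
    (((AlgebraicTopology.singularHomologyFunctor (ModuleCat.{0} ℚ) i).obj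
      (ModuleCat.of ℚ ℚ)).obj (TopCat.of X)) : ℤ)

/-- The group of invertible integral matrices `g` with `gᵀ Q g = Q`. -/
def orth {n : ℕ} (Q : Matrix (Fin n) (Fin n) ℤ) : Subgroup (GL (Fin n) ℤ) where
  carrier := {g | (g : Matrix (Fin n) (Fin n) ℤ)ᵀ * Q * (g : Matrix (Fin n) (Fin n) ℤ) = Q}
  one_mem' := by simp
  mul_mem' := by
    intro a b ha hb
    simp only [Set.mem_ofPred_eq, Units.val_mul, Matrix.transpose_mul] at ha hb ⊢
    calc _ = (b : Matrix (Fin n) (Fin n) ℤ)ᵀ *
          ((a : Matrix (Fin n) (Fin n) ℤ)ᵀ * Q * (a : Matrix (Fin n) (Fin n) ℤ)) *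
          (b : Matrix (Fin n) (Fin n) ℤ) := by simp only [Matrix.mul_assoc]
      _ = Q := by rw [ha, hb]
  inv_mem' := by
    intro a ha
    simp only [Set.mem_ofPred_eq] at ha ⊢
    have h : a.val * (a⁻¹).val = 1 := Units.mul_inv a
    calc (a⁻¹).valᵀ * Q * (a⁻¹).val = (a⁻¹).valᵀ * (a.valᵀ * Q * a.val) * (a⁻¹).val := by rw [ha]
      _ = (a.val * (a⁻¹).val)ᵀ * Q * (a.val * (a⁻¹).val) := by
          simp only [Matrix.transpose_mul, Matrix.mul_assoc]
      _ = Q := by rw [h]; simp

end Pool.Agent.P.MP_d483fb_an
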