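import Pool.Agent.P.MP_d483fb_an.Base

set_option autoImplicit false

namespace Pool.Agent.P.MP_d483fb_an

theorem diam_aff_val {k n : ℕ} (v : Fin (k + 1) → Dl n) (t : Dl k) :
    (aff v t).1 = ∑ i, t i • (v i).1 := rfl

theorem aff_vertex {k n : ℕ} (v : Fin (k + 1) → Dl n) (i : Fin (k + 1)) :
    aff v (stdSimplex.vertex i) = v i := by
  apply Subtype.ext
  rw [diam_aff_val, stdSimplex.vertex_coe, Finset.sum_eq_single i]
  · simp
  · intro j _ hj
    rw [Pi.single_eq_of_ne hj, zero_smul]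
  · intro h
    exact absurd (Finset.mem_univ i) h

theorem aff_id (n : ℕ) :
    aff (fun i : Fin (n + 1) => (stdSimplex.vertex i : Dl n)) = ContinuousMap.id _ := by
  ext1 t
  apply Subtype.ext
  rw [diam_aff_val]
  funext j
  rw [Finset.sum_apply, Finset.sum_eq_single j]
  · simp only [Pi.smul_apply, Pi.single_eq_same, smul_eq_mul, mul_one, ContinuousMap.id_apply]
    rfl
  · intro i _ hi
    simp only [Pi.smul_apply, smul_eq_mul]
    rw [Pi.single_eq_of_ne hi.symm, mul_zero]
  · intro h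
    exact absurd (Finset.mem_univ j) h

theorem aff_comp {j k n : ℕ} (w : Fin (k + 1) → Dl n) (v : Fin (j + 1) → Dl k) :
    (aff w).comp (aff v) = aff (aff w ∘ v) := by
  ext1 t
  apply Subtype.ext
  rw [ContinuousMap.comp_apply, diam_aff_val, diam_aff_val]
  have h1 : ∀ a : Fin (k + 1), (aff v t) a = ∑ i, t i * (v i) a := by
    intro a
    change (aff v t).1 a = _
    rw [diam_aff_val, Finset.sum_apply]
    rfl
  simp only [h1, Function.comp_apply, diam_aff_val, Finset.sum_smul, Finset.smul_sum, mul_smul]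
  exact Finset.sum_comm

theorem aff_face {k n : ℕ} (v : Fin (k + 2) → Dl n) (i : Fin (k + 2)) :
    face i (aff v) = aff (v ∘ i.succAbove) := by
  ext1 t
  apply Subtype.ext
  change (aff v (stdSimplex.map i.succAbove t)).1 = _
  rw [diam_aff_val, diam_aff_val, stdSimplex.map_coe]
  simp only [FunOnFinite.linearMap_apply_apply, Finset.sum_smul, Function.comp_apply]
  rw [← Finset.sum_fiberwise Finset.univ i.succAbove (fun a => t a • (v (i.succAbove a)).1)]
  refine Finset.sum_congr rfl fun b _ => Finset.sum_congr rfl fun a ha => ?_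
  rw [(Finset.mem_filter.1 ha).2]

theorem diam_dist_aff {k n : ℕ} (w : Fin (k + 1) → Dl n) (p : Dl n) (t : Dl k) :
    dist (aff w t) p ≤ ∑ i, t i * dist (w i) p := by
  rw [Subtype.dist_eq, diam_aff_val, dist_eq_norm]
  have h : (∑ i, t i • (w i).1) - p.1 = ∑ i, t i • ((w i).1 - p.1) := by
    simp only [smul_sub, Finset.sum_sub_distrib, ← Finset.sum_smul, stdSimplex.sum_eq_one,
      one_smul]
  rw [h]
  refine (norm_sum_le _ _).trans (Finset.sum_le_sum fun i _ => ?_)
  rw [norm_smul, Real.norm_of_nonneg (stdSimplex.zero_le t i), Subtype.dist_eq, dist_eq_norm]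

theorem dist_aff_le {k n : ℕ} (w : Fin (k + 1) → Dl n) {p : Dl n} {r : ℝ}
    (h : ∀ i, dist (w i) p ≤ r) (t : Dl k) : dist (aff w t) p ≤ r := by
  refine (diam_dist_aff w p t).trans ?_
  calc ∑ i, t i * dist (w i) p ≤ ∑ i, t i * r :=
        Finset.sum_le_sum fun i _ => mul_le_mul_of_nonneg_left (h i) (stdSimplex.zero_le t i)
    _ = r := by rw [← Finset.sum_mul, stdSimplex.sum_eq_one, one_mul]

theorem diam_bary {k n : ℕ} (v : Fin (k + 1) → Dl n) {r : ℝ}
    (h : ∀ i j, dist (v i) (v j) ≤ r) (j : Fin (k + 1)) :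
    dist (v j) (bary n k v) ≤ (k : ℝ) / (k + 1) * r := by
  rw [dist_comm, bary]
  refine (diam_dist_aff v (v j) _).trans ?_
  have hb : ∀ i : Fin (k + 1),
      (stdSimplex.barycenter : Dl k) i = ((k : ℝ) + 1)⁻¹ := by
    intro i
    change (stdSimplex.barycenter : Dl k).1 i = _
    rw [stdSimplex.barycenter_apply]
    simp
  simp only [hb]
  rw [← Finset.mul_sum, Fin.sum_univ_succAbove _ j, dist_self, zero_add]
  have h1 : ∑ i : Fin k, dist (v (j.succAbove i)) (v j) ≤ ∑ _i : Fin k, r :=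
    Finset.sum_le_sum fun i _ => h _ _
  rw [Finset.sum_const, Finset.card_univ, Fintype.card_fin, nsmul_eq_mul] at h1
  have h2 : (0 : ℝ) ≤ ((k : ℝ) + 1)⁻¹ := by positivity
  calc ((k : ℝ) + 1)⁻¹ * ∑ i : Fin k, dist (v (j.succAbove i)) (v j)
      ≤ ((k : ℝ) + 1)⁻¹ * (k * r) := mul_le_mul_of_nonneg_left h1 h2
    _ = (k : ℝ) / (k + 1) * r := by rw [div_eq_mul_inv]; ring

theorem diam_asd (n : ℕ) : ∀ (k : ℕ) (v : Fin (k + 1) → Dl n) (r : ℝ),
    (∀ i j, dist (v i) (v j) ≤ r) →
    ∀ w ∈ (asd (bary n) k (Finsupp.single v 1)).support,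
      (∀ (p : Dl n) (s : ℝ), (∀ j, dist (v j) p ≤ s) → ∀ i, dist (w i) p ≤ s) ∧
        ∀ i j, dist (w i) (w j) ≤ (k : ℝ) / (k + 1) * r := by
  classical
  intro k
  induction k with
  | zero =>
    intro v r _ w hw
    have hw' : w ∈ (Finsupp.single v (1 : ℚ)).support := hw
    have e : w = v := Finset.mem_singleton.1 (Finsupp.support_single_subset hw')
    subst e
    refine ⟨fun p s h i => h i, fun i j => ?_⟩
    have : i = j := Subsingleton.elim (α := Fin 1) i j
    subst this
    simp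
  | succ k ih =>
    intro v r hv w hw
    have hr : 0 ≤ r := le_trans dist_nonneg (hv 0 0)
    rw [asd, Finsupp.linearCombination_single, one_smul, acone, Finsupp.lmapDomain_apply] at hw
    obtain ⟨w', hw', rfl⟩ := Finset.mem_image.1 (Finsupp.mapDomain_support hw)
    rw [abd, Finsupp.linearCombination_single, one_smul, map_sum] at hw'
    obtain ⟨a, _, ha⟩ := Finset.mem_biUnion.1 (Finsupp.support_finsetSum hw')
    rw [map_smul] at ha
    obtain ⟨h1, h2⟩ := ih (v ∘ a.succAbove) r (fun i j => hv _ _) w' (Finsupp.support_smul ha)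
    have hb : ∀ i, dist (w' i) (bary n (k + 1) v) ≤ ((k + 1 : ℕ) : ℝ) / ((k + 1 : ℕ) + 1) * r :=
      h1 _ _ fun j => diam_bary v hv _
    have hmono : (k : ℝ) / (k + 1) * r ≤ ((k + 1 : ℕ) : ℝ) / ((k + 1 : ℕ) + 1) * r := by
      refine mul_le_mul_of_nonneg_right ?_ hr
      rw [div_le_div_iff₀ (by positivity) (by positivity)]
      push_cast
      nlinarith
    refine ⟨fun p s h i => ?_, fun i j => ?_⟩
    · refine Fin.cases ?_ (fun i => ?_) i
      · rw [Fin.cons_zero]
        exact dist_aff_le v h _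
      · rw [Fin.cons_succ]
        exact h1 p s (fun j => h _) i
    · refine Fin.cases ?_ (fun i => ?_) i <;> refine Fin.cases ?_ (fun j => ?_) j
      · rw [dist_self]
        positivity
      · rw [Fin.cons_zero, Fin.cons_succ, dist_comm]
        exact hb j
      · rw [Fin.cons_zero, Fin.cons_succ]
        exact hb i
      · rw [Fin.cons_succ, Fin.cons_succ]
        exact (h2 i j).trans hmono

theorem diam_asd_chain (n k : ℕ) (r : ℝ) (c : AC (Dl n) k)
    (hc : ∀ v ∈ c.support, ∀ i j, dist (v i) (v j) ≤ r) :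
    ∀ w ∈ (asd (bary n) k c).support, ∀ i j, dist (w i) (w j) ≤ (k : ℝ) / (k + 1) * r := by
  classical
  intro w hw
  have e : c = ∑ v ∈ c.support, c v • Finsupp.single v (1 : ℚ) := by
    conv_lhs => rw [← Finsupp.sum_single c]
    refine Finset.sum_congr rfl fun v _ => ?_
    rw [Finsupp.smul_single, smul_eq_mul, mul_one]
  rw [e, map_sum] at hw
  obtain ⟨v, hv, hw'⟩ := Finset.mem_biUnion.1 (Finsupp.support_finsetSum hw)
  rw [map_smul] at hw'
  exact (diam_asd n k v r (hc v hv) w (Finsupp.support_smul hw')).2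

theorem diam_asd_pow (n m : ℕ) :
    ∀ w ∈ ((asd (bary n) n ^ m) (Finsupp.single
      (fun i : Fin (n + 1) => (stdSimplex.vertex i : Dl n)) 1)).support,
      ∀ i j, dist (w i) (w j) ≤ ((n : ℝ) / (n + 1)) ^ m := by
  induction m with
  | zero =>
    intro w _ i j
    rw [pow_zero, Subtype.dist_eq]
    exact (Metric.dist_le_diam_of_mem (bounded_stdSimplex _) (w i).2 (w j).2).trans
      diam_stdSimplex_le
  | succ m ih =>
    rw [pow_succ', Module.End.mul_apply, pow_succ']
    exact diam_asd_chain n n _ _ ih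

/-- Iterated barycentric subdivision produces small simplices. -/
theorem exists_small (n : ℕ) {ε : ℝ} (hε : 0 < ε) : ∃ m : ℕ,
    ∀ w ∈ ((asd (bary n) n ^ m) (Finsupp.single
      (fun i : Fin (n + 1) => (stdSimplex.vertex i : Dl n)) 1)).support,
      ∀ i j, dist (w i) (w j) ≤ ε := by
  have h : (n : ℝ) / (n + 1) < 1 := by
    rw [div_lt_one (by positivity)]
    linarith
  obtain ⟨m, hm⟩ := exists_pow_lt_of_lt_one hε h
  exact ⟨m, fun w hw i j => (diam_asd_pow n m w hw i j).trans hm.le⟩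

end Pool.Agent.P.MP_d483fb_an
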