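import Pool.Agent.P.MP_d483fb_an.Base

set_option autoImplicit false

namespace Pool.Agent.P.MP_d483fb_an

open scoped IsMulCommutative

theorem Dietz_core {G : Type} [Group G] (Z : Subgroup G) [hZ : Z.Normal] [Z.FiniteIndex]
    {R : Set G} (hR : R.Finite) {m : ℕ} (hm : 0 < m) (h1 : ∀ r ∈ R, r ^ m = 1)
    (h2 : ∀ r ∈ R, ∀ z ∈ Z, z * r = r * z) : Finite (Subgroup.normalClosure R) := by
  have hS : (Group.conjugatesOfSet R).Finite := by
    refine ((hR.prod (Set.finite_univ (α := G ⧸ Z))).image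
      fun p => p.2.out * p.1 * p.2.out⁻¹).subset fun x hx => ?_
    obtain ⟨r, hr, hc⟩ := Group.mem_conjugatesOfSet_iff.1 hx
    obtain ⟨g, rfl⟩ := isConj_iff.1 hc
    obtain ⟨z, hz⟩ := QuotientGroup.mk_out_eq_mul Z g
    refine ⟨(r, (g : G ⧸ Z)), ⟨hr, trivial⟩, ?_⟩
    simp only [hz]
    rw [mul_assoc g, h2 r hr z z.2]
    group
  have hS1 : ∀ x ∈ Group.conjugatesOfSet R, x ^ m = 1 ∧ ∀ z ∈ Z, z * x = x * z := by
    intro x hx
    obtain ⟨r, hr, hc⟩ := Group.mem_conjugatesOfSet_iff.1 hx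
    obtain ⟨g, rfl⟩ := isConj_iff.1 hc
    refine ⟨by rw [conj_pow, h1 r hr]; simp, fun z hz => ?_⟩
    have := h2 r hr _ (hZ.conj_mem' z hz g)
    calc z * (g * r * g⁻¹) = g * (g⁻¹ * z * g * r) * g⁻¹ := by group
      _ = g * r * g⁻¹ * z := by rw [this]; group
  unfold Subgroup.normalClosure
  set S := Group.conjugatesOfSet R
  have : Finite S := hS
  set H := Subgroup.closure S with hH
  have hc : Z.subgroupOf H ≤ Subgroup.center H := by
    intro z hz
    rw [Subgroup.mem_center_iff]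
    intro h
    have : H ≤ Subgroup.centralizer {(z : G)} := (Subgroup.closure_le _).2 fun x hx =>
      Subgroup.mem_centralizer_singleton_iff.2 ((hS1 x hx).2 z hz).symm
    exact Subtype.ext (Subgroup.mem_centralizer_singleton_iff.1 (this h.2))
  have : (Subgroup.center H).FiniteIndex := Subgroup.finiteIndex_of_le hc
  have hφ : ∀ (x : G) (hx : x ∈ H), MonoidHom.transferCenterPow H ⟨x, hx⟩ ^ m = 1 := by
    intro x hx
    induction hx using Subgroup.closure_induction with
    | mem x hx =>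
      rw [← map_pow, show (⟨x, _⟩ : H) ^ m = 1 from Subtype.ext (hS1 x hx).1, map_one]
    | one => exact (congrArg (· ^ m) (map_one _)).trans (one_pow m)
    | mul x y hx hy kx ky =>
      rw [show (⟨x * y, _⟩ : H) = ⟨x, hx⟩ * ⟨y, hy⟩ from rfl, map_mul, mul_pow, kx, ky, one_mul]
    | inv x hx kx => rw [show (⟨x⁻¹, _⟩ : H) = ⟨x, hx⟩⁻¹ from rfl, map_inv, inv_pow, kx, inv_one]
  have : Group.FG (Subgroup.center H) := Subgroup.fg_of_index_ne_zero _
  have : Finite (Subgroup.center H) := by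
    refine CommGroup.finite_of_fg_isMulTorsion _ fun c => ?_
    refine isOfFinOrder_iff_pow_eq_one.2 ⟨(Subgroup.center H).index * m,
      Nat.mul_pos (Nat.pos_of_ne_zero Subgroup.FiniteIndex.index_ne_zero) hm, Subtype.ext ?_⟩
    have := congrArg Subtype.val (hφ c.1.1 c.1.2)
    rw [Subgroup.coe_pow, MonoidHom.transferCenterPow_apply, ← pow_mul] at this
    exact this
  exact Finite.of_subgroup_quotient (Subgroup.center H)

/-- Finitely many torsion elements with finite conjugacy classes generate a finite normal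
subgroup (modulo `K`). -/
theorem dietz {G : Type} [Group G] (K Z : Subgroup G) [K.Normal] [Z.Normal] [Z.FiniteIndex]
    {R : Set G} (hR : R.Finite) {m : ℕ} (hm : 0 < m) (h1 : ∀ r ∈ R, r ^ m ∈ K)
    (h2 : ∀ r ∈ R, ∀ z ∈ Z, z * r * z⁻¹ * r⁻¹ ∈ K) :
    K.relIndex (Subgroup.normalClosure R ⊔ K) ≠ 0 := by
  have hs := QuotientGroup.mk'_surjective K
  have : (Z.map (QuotientGroup.mk' K)).Normal := Subgroup.Normal.map inferInstance _ hs
  have : (Z.map (QuotientGroup.mk' K)).FiniteIndex :=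
    ⟨ne_zero_of_dvd_ne_zero Subgroup.FiniteIndex.index_ne_zero (Subgroup.index_map_dvd _ hs)⟩
  have hfin := Dietz_core (Z.map (QuotientGroup.mk' K)) (hR.image (QuotientGroup.mk' K)) hm
    (by
      rintro _ ⟨r, hr, rfl⟩
      rw [← map_pow]
      exact (QuotientGroup.eq_one_iff _).2 (h1 r hr))
    (by
      rintro _ ⟨r, hr, rfl⟩ _ ⟨z, hz, rfl⟩
      have : QuotientGroup.mk' K (z * r * z⁻¹ * r⁻¹) = 1 :=
        (QuotientGroup.eq_one_iff _).2 (h2 r hr z hz)
      rw [map_mul, map_mul, map_mul, map_inv, map_inv, mul_inv_eq_one, mul_inv_eq_iff_eq_mul] at this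
      exact this)
  rw [Subgroup.relIndex_sup_right]
  conv_lhs => rw [← QuotientGroup.ker_mk' K]
  rw [Subgroup.relIndex_ker, Subgroup.map_normalClosure _ _ hs]
  exact Nat.card_pos.ne'

end Pool.Agent.P.MP_d483fb_an
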