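import Pool.Agent.P.MP_d483fb_an.Base

/-! Basic properties of Eichler transformations. -/

set_option autoImplicit false

namespace Pool.Agent.P.MP_d483fb_an

variable {V : Type} [AddCommGroup V] [Module ℚ V] {B : LinearMap.BilinForm ℚ V}
  {Λ : Submodule ℤ V}

theorem mul_apply' (g h : V ≃ₗ[ℚ] V) (x : V) : (g * h) x = g (h x) := rfl

theorem one_apply' (x : V) : (1 : V ≃ₗ[ℚ] V) x = x := rfl

theorem apply_inv_apply' (g : V ≃ₗ[ℚ] V) (x : V) : g (g⁻¹ x) = x := g.apply_symm_apply x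

theorem inv_apply_apply' (g : V ≃ₗ[ℚ] V) (x : V) : g⁻¹ (g x) = x := g.symm_apply_apply x

theorem mem_OG {g : V ≃ₗ[ℚ] V} : g ∈ OG B ↔ ∀ x y, B (g x) (g y) = B x y := Iff.rfl

theorem mem_OL {g : V ≃ₗ[ℚ] V} : g ∈ OL B Λ ↔ g ∈ OG B ∧ ∀ x, g x ∈ Λ ↔ x ∈ Λ := Iff.rfl

theorem mem_Cong {M : ℕ} {g : V ≃ₗ[ℚ] V} :
    g ∈ Cong B Λ M ↔ g ∈ OL B Λ ∧ ∀ x ∈ Λ, ∃ y ∈ Λ, g x = x + (M : ℚ) • y := Iff.rfl

theorem OG_left {g : V ≃ₗ[ℚ] V} (hg : g ∈ OG B) (x y : V) : B (g x) y = B x (g⁻¹ y) := by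
  rw [← hg x (g⁻¹ y), apply_inv_apply']

theorem OG_right {g : V ≃ₗ[ℚ] V} (hg : g ∈ OG B) (x y : V) : B x (g y) = B (g⁻¹ x) y := by
  rw [← hg (g⁻¹ x) y, apply_inv_apply']

theorem eich_mem_OG (z u : V) : eich B z u ∈ OG B := by
  by_cases h : (∀ x y, B x y = B y x) ∧ B z z = 0 ∧ B z u = 0
  · obtain ⟨hB, hz, hu⟩ := h
    intro x y
    have h1 : B u z = 0 := by rw [hB, hu]
    simp only [eich_apply hB hz hu, map_add, map_sub, map_smul, LinearMap.add_apply,
      LinearMap.sub_apply, LinearMap.smul_apply, smul_eq_mul, hz, hu, h1, hB x u, hB x z]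
    ring
  · rw [eich, dif_neg h]
    exact (OG B).one_mem

theorem eich_add (hB : ∀ x y, B x y = B y x) {z u u' : V} (hz : B z z = 0) (hu : B z u = 0)
    (hu' : B z u' = 0) : eich B z (u + u') = eich B z u * eich B z u' := by
  ext x
  have h := eichL_eichL hB hz hu hu' x
  simp only [eichL_apply] at h
  rw [mul_apply', eich_apply hB hz (by simp [hu, hu']), eich_apply hB hz hu, eich_apply hB hz hu']
  exact h.symm

theorem eich_zero_right (z : V) : eich B z 0 = 1 := by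
  by_cases h : (∀ x y, B x y = B y x) ∧ B z z = 0 ∧ B z 0 = 0
  · ext x
    simp [eich_apply h.1 h.2.1 h.2.2]
  · rw [eich, dif_neg h]

theorem eich_zero_left (u : V) : eich B 0 u = 1 := by
  by_cases h : (∀ x y, B x y = B y x) ∧ B 0 0 = 0 ∧ B 0 u = 0
  · ext x
    simp [eich_apply h.1 h.2.1 h.2.2]
  · rw [eich, dif_neg h]

theorem eich_neg (hB : ∀ x y, B x y = B y x) {z u : V} (hz : B z z = 0) (hu : B z u = 0) :
    eich B z (-u) = (eich B z u)⁻¹ := by
  rw [eq_inv_iff_mul_eq_one, ← eich_add hB hz (by simp [hu]) hu, neg_add_cancel, eich_zero_right]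

theorem eich_natCast_smul (hB : ∀ x y, B x y = B y x) {z u : V} (hz : B z z = 0) (hu : B z u = 0)
    (k : ℕ) : eich B z ((k : ℚ) • u) = eich B z u ^ k := by
  induction k with
  | zero => simp [eich_zero_right]
  | succ k ih =>
    rw [Nat.cast_succ, add_smul, one_smul, eich_add hB hz (by simp [hu]) hu, ih, pow_succ]

theorem eich_intCast_smul (hB : ∀ x y, B x y = B y x) {z u : V} (hz : B z z = 0) (hu : B z u = 0)
    (k : ℤ) : eich B z ((k : ℚ) • u) = eich B z u ^ k := by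
  obtain ⟨n, rfl | rfl⟩ := k.eq_nat_or_neg
  · rw [Int.cast_natCast, eich_natCast_smul hB hz hu, zpow_natCast]
  · rw [Int.cast_neg, Int.cast_natCast, neg_smul, eich_neg hB hz (by simp [hu]),
      eich_natCast_smul hB hz hu, zpow_neg, zpow_natCast]

theorem eich_conj (hB : ∀ x y, B x y = B y x) {g : V ≃ₗ[ℚ] V} (hg : g ∈ OG B) {z u : V}
    (hz : B z z = 0) (hu : B z u = 0) : g * eich B z u * g⁻¹ = eich B (g z) (g u) := by
  ext x
  rw [mul_apply', mul_apply', eich_apply hB hz hu,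
    eich_apply hB (by rw [hg, hz]) (by rw [hg, hu]), hg u u, OG_left hg z x, OG_left hg u x]
  simp only [map_add, map_sub, map_smul, apply_inv_apply']

theorem eich_smul_left (hB : ∀ x y, B x y = B y x) {z u : V} (hz : B z z = 0) (hu : B z u = 0)
    (c : ℚ) : eich B (c • z) u = eich B z (c • u) := by
  ext x
  rw [eich_apply hB (by simp [hz]) (by simp [hu]), eich_apply hB hz (by simp [hu])]
  simp only [map_smul, LinearMap.smul_apply, smul_eq_mul]
  module

theorem eich_add_smul (hB : ∀ x y, B x y = B y x) {z u : V} (hz : B z z = 0) (hu : B z u = 0)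
    (c : ℚ) : eich B z (u + c • z) = eich B z u := by
  ext x
  have h1 : B u z = 0 := by rw [hB, hu]
  rw [eich_apply hB hz (by simp [hu, hz]), eich_apply hB hz hu]
  simp only [map_add, map_smul, LinearMap.add_apply, LinearMap.smul_apply, smul_eq_mul, hz, hu, h1]
  module

theorem eich_smul_self (hB : ∀ x y, B x y = B y x) {z : V} (hz : B z z = 0) (c : ℚ) :
    eich B z (c • z) = 1 := by
  have h := eich_add_smul hB hz (u := 0) (by simp) c
  rwa [zero_add, eich_zero_right] at h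

theorem eich_swap (hB : ∀ x y, B x y = B y x) {z u : V} (hz : B z z = 0) (hu : B z u = 0)
    (hu' : B u u = 0) : eich B z u = eich B u (-z) := by
  ext x
  have h1 : B u z = 0 := by rw [hB, hu]
  rw [eich_apply hB hz hu, eich_apply hB hu' (by simp [h1])]
  simp only [map_neg, LinearMap.neg_apply, hz, hu']
  module

theorem eich_fix (hB : ∀ x y, B x y = B y x) {z u x : V} (hz : B z z = 0) (hu : B z u = 0)
    (hx : B z x = 0) (hx' : B u x = 0) : eich B z u x = x := by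
  simp [eich_apply hB hz hu, hx, hx']

theorem Lat.int (hΛ : Lat B Λ) {x y : V} (hx : x ∈ Λ) (hy : y ∈ Λ) : ∃ k : ℤ, B x y = k := by
  obtain ⟨a, ha⟩ := hΛ.even x hx
  obtain ⟨b, hb⟩ := hΛ.even y hy
  obtain ⟨c, hc⟩ := hΛ.even (x + y) (Λ.add_mem hx hy)
  refine ⟨c - a - b, ?_⟩
  simp only [map_add, LinearMap.add_apply, ha, hb, hΛ.symm y x] at hc
  push_cast
  linarith

theorem intCast_smul_mem {x : V} (hx : x ∈ Λ) (k : ℤ) : (k : ℚ) • x ∈ Λ := by
  rw [Int.cast_smul_eq_zsmul]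
  exact Λ.smul_mem k hx

theorem natCast_smul_mem {x : V} (hx : x ∈ Λ) (k : ℕ) : (k : ℚ) • x ∈ Λ := by
  have := intCast_smul_mem hx (k : ℤ)
  rwa [Int.cast_natCast] at this

theorem eich_apply_mem (hΛ : Lat B Λ) {z u x : V} (hz : z ∈ Λ) (hu : u ∈ Λ) (hx : x ∈ Λ) :
    eich B z u x ∈ Λ := by
  by_cases h : (∀ x y, B x y = B y x) ∧ B z z = 0 ∧ B z u = 0
  · obtain ⟨a, ha⟩ := hΛ.int hz hx
    obtain ⟨b, hb⟩ := hΛ.int hu hx
    obtain ⟨c, hc⟩ := hΛ.even u hu
    have e : (2 * (c : ℚ) / 2 * a) = ((c * a : ℤ) : ℚ) := by push_cast; ring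
    rw [eich_apply h.1 h.2.1 h.2.2, ha, hb, hc, e]
    exact Λ.sub_mem (Λ.sub_mem (Λ.add_mem hx (intCast_smul_mem hu a)) (intCast_smul_mem hz b))
      (intCast_smul_mem hz _)
  · rw [eich, dif_neg h]
    exact hx

theorem eich_mem_OL (hΛ : Lat B Λ) {z u : V} (hz : z ∈ Λ) (hu : u ∈ Λ) : eich B z u ∈ OL B Λ := by
  refine ⟨eich_mem_OG z u, fun x => ⟨fun hx => ?_, eich_apply_mem hΛ hz hu⟩⟩
  by_cases h : (∀ x y, B x y = B y x) ∧ B z z = 0 ∧ B z u = 0
  · have := eich_apply_mem hΛ hz (Λ.neg_mem hu) hx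
    rwa [eich_neg h.1 h.2.1 h.2.2, inv_apply_apply'] at this
  · rwa [eich, dif_neg h] at hx

/-- A vector orthogonal to `i` given vectors and outside the span of `j` given vectors. -/
theorem exists_perp_not_mem (hB : QS B) {i j : ℕ} (a : Fin i → V) (b : Fin j → V)
    (h : i + j < Module.finrank ℚ V) :
    ∃ u, (∀ t, B (a t) u = 0) ∧ u ∉ Submodule.span ℚ (Set.range b) := by
  have := hB.fin
  by_contra hc
  push Not at hc
  let φ : V →ₗ[ℚ] (Fin i → ℚ) := LinearMap.pi fun t => B (a t)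
  have hle : LinearMap.ker φ ≤ Submodule.span ℚ (Set.range b) := fun u hu =>
    hc u fun t => congrFun (LinearMap.mem_ker.1 hu) t
  have h1 := Submodule.finrank_mono hle
  have h2 : Module.finrank ℚ (Submodule.span ℚ (Set.range b)) ≤ j := by
    have := finrank_range_le_card (R := ℚ) b
    rw [Fintype.card_fin] at this
    exact this
  have h3 := LinearMap.finrank_range_add_finrank_ker φ
  have h4 : Module.finrank ℚ (LinearMap.range φ) ≤ i := by
    simpa using Submodule.finrank_le (LinearMap.range φ)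
  omega

/-- A vector orthogonal to `z` but not to `y`. -/
theorem exists_dual (hB : QS B) {z y : V} (hy : y ∉ Submodule.span ℚ {z}) :
    ∃ x, B z x = 0 ∧ B y x = 1 := by
  by_contra hc
  push Not at hc
  have h0 : ∀ x, B z x = 0 → B y x = 0 := by
    intro x hx
    by_contra h
    exact hc ((B y x)⁻¹ • x) (by simp [hx]) (by simp [h])
  by_cases hz : z = 0
  · apply hy
    rw [hB.nondeg y fun x => h0 x (by simp [hz])]
    exact Submodule.zero_mem _
  · obtain ⟨w, hw⟩ : ∃ w, B z w ≠ 0 := by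
      by_contra h
      push Not at h
      exact hz (hB.nondeg z h)
    apply hy
    have : y - (B y w / B z w) • z = 0 := by
      refine hB.nondeg _ fun x => ?_
      have h1 := h0 (x - (B z x / B z w) • w) (by simp [hw])
      simp only [map_sub, map_smul, smul_eq_mul, LinearMap.sub_apply, LinearMap.smul_apply] at h1 ⊢
      field_simp at h1 ⊢
      linarith
    rw [sub_eq_zero.1 this]
    exact Submodule.smul_mem _ _ (Submodule.mem_span_singleton_self z)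

theorem Frame.swap₁ {e₁ f₁ e₂ f₂ : V} (hB : ∀ x y, B x y = B y x) (h : Frame B Λ e₁ f₁ e₂ f₂) :
    Frame B Λ f₁ e₁ e₂ f₂ :=
  ⟨h.mf₁, h.me₁, h.me₂, h.mf₂, h.f₁f₁, h.e₁e₁, h.e₂e₂, h.f₂f₂, (hB _ _).trans h.e₁f₁, h.e₂f₂,
    h.f₁e₂, h.f₁f₂, h.e₁e₂, h.e₁f₂⟩

theorem Frame.swap₂ {e₁ f₁ e₂ f₂ : V} (hB : ∀ x y, B x y = B y x) (h : Frame B Λ e₁ f₁ e₂ f₂) :
    Frame B Λ e₁ f₁ f₂ e₂ :=
  ⟨h.me₁, h.mf₁, h.mf₂, h.me₂, h.e₁e₁, h.f₁f₁, h.f₂f₂, h.e₂e₂, h.e₁f₁, (hB _ _).trans h.e₂f₂,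
    h.e₁f₂, h.e₁e₂, h.f₁f₂, h.f₁e₂⟩

end Pool.Agent.P.MP_d483fb_an
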