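import Pool.Agent.P.MP_d483fb_an.Base

set_option autoImplicit false

namespace Pool.Agent.P.MP_d483fb_an

open scoped Manifold ContDiff

variable {m : ℕ} {M : Type} [TopologicalSpace M] [T2Space M] [CompactSpace M]
  [ChartedSpace (EuclideanSpace ℝ (Fin m)) M] [IsManifold (𝓡 m) ∞ M]

/-- The permutation representation of `P` on `P`-indexed families of vectors. -/
noncomputable def embedRep (P : Type) [Group P] [Fintype P] (N : ℕ) :
    P →* (EuclideanSpace ℝ (P × Fin N) ≃ₗᵢ[ℝ] EuclideanSpace ℝ (P × Fin N)) where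
  toFun g := LinearIsometryEquiv.piLpCongrLeft 2 ℝ ℝ ((Equiv.mulLeft g).prodCongr (Equiv.refl _))
  map_one' := by
    ext w q
    change w (1⁻¹ * q.1, q.2) = w q
    rw [inv_one, one_mul]
  map_mul' g h := by
    ext w q
    change w ((g * h)⁻¹ * q.1, q.2) = w (h⁻¹ * (g⁻¹ * q.1), q.2)
    rw [mul_inv_rev, mul_assoc]

theorem embedRep_apply (P : Type) [Group P] [Fintype P] (N : ℕ) (g : P)
    (w : EuclideanSpace ℝ (P × Fin N)) (q : P × Fin N) :
    embedRep P N g w q = w (g⁻¹ * q.1, q.2) := rfl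

/-- Equivariant embedding into an orthogonal representation. -/
theorem exists_equivariant_embedding {P : Type} [Group P] [Finite P] (α : P →* Equiv.Perm M)
    (hα : ∀ g, ContMDiff (𝓡 m) (𝓡 m) ∞ (α g)) :
    ∃ (W : Type) (_ : NormedAddCommGroup W) (_ : InnerProductSpace ℝ W) (_ : FiniteDimensional ℝ W)
      (Φ : M → W) (π : P →* (W ≃ₗᵢ[ℝ] W)), ContMDiff (𝓡 m) 𝓘(ℝ, W) ∞ Φ ∧ Function.Injective Φ ∧
      (∀ x, Function.Injective (mfderiv (𝓡 m) 𝓘(ℝ, W) Φ x)) ∧ ∀ g x, Φ (α g x) = π g (Φ x) := by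
  classical
  have := Fintype.ofFinite P
  obtain ⟨N, ι, hs, he, hd⟩ := exists_embedding_euclidean_of_compact (I := 𝓡 m) (M := M)
  let Φ : M → EuclideanSpace ℝ (P × Fin N) := fun x =>
    WithLp.toLp 2 fun q => ι (α q.1⁻¹ x) q.2
  have hΦ : ContMDiff (𝓡 m) 𝓘(ℝ, EuclideanSpace ℝ (P × Fin N)) ∞ Φ := by
    have h1 : ContMDiff (𝓡 m) 𝓘(ℝ, P × Fin N → ℝ) ∞
        fun x (q : P × Fin N) => ι (α q.1⁻¹ x) q.2 := by
      refine contMDiff_pi_space.2 fun q => ?_
      exact (EuclideanSpace.proj (𝕜 := ℝ) q.2).contMDiff.comp (hs.comp (hα _))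
    exact (EuclideanSpace.equiv (P × Fin N) ℝ).symm.toContinuousLinearMap.contMDiff.comp h1
  let pr : EuclideanSpace ℝ (P × Fin N) →L[ℝ] EuclideanSpace ℝ (Fin N) :=
    (EuclideanSpace.equiv (Fin N) ℝ).symm.toContinuousLinearMap.comp
      (ContinuousLinearMap.pi fun i => EuclideanSpace.proj (𝕜 := ℝ) ((1 : P), i))
  have hpr : ι = pr ∘ Φ := by
    funext x
    ext i
    change ι x i = ι (α 1⁻¹ x) i
    rw [inv_one, map_one, Equiv.Perm.one_apply]
  refine ⟨EuclideanSpace ℝ (P × Fin N), inferInstance, inferInstance, inferInstance, Φ,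
    embedRep P N, hΦ, ?_, fun x => ?_, fun g x => ?_⟩
  · have h1 := he.injective
    rw [hpr] at h1
    exact h1.of_comp
  · have h1 := hd x
    rw [hpr, mfderiv_comp x pr.mdifferentiableAt (hΦ.mdifferentiableAt (by simp))] at h1
    exact Function.Injective.of_comp (f := mfderiv _ _ pr (Φ x)) h1
  · ext q
    rw [embedRep_apply]
    simp [Φ]

end Pool.Agent.P.MP_d483fb_an
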