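import Pool.Agent.P.MP_d483fb_an.Smith
import Pool.Agent.P.MP_d483fb_an.Congr

set_option autoImplicit false

namespace Pool.Agent.P.MP_d483fb_an

variable {V : Type} [AddCommGroup V] [Module ℚ V] {B : LinearMap.BilinForm ℚ V}
  {Λ : Submodule ℤ V} {e₁ f₁ e₂ f₂ : V}

/-- The pointwise stabiliser of `P` meets finitely many cosets of `E`. -/
def OrbCov (B : LinearMap.BilinForm ℚ V) (Λ : Submodule ℤ V) (E : Subgroup (V ≃ₗ[ℚ] V))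
    (P : Set V) : Prop :=
  ∃ S : Set (V ≃ₗ[ℚ] V), S.Finite ∧ (∀ s ∈ S, s ∈ OL B Λ) ∧
    ∀ g ∈ OL B Λ, (∀ y ∈ P, g y = y) → ∃ s ∈ S, s⁻¹ * g ∈ E

theorem orb_step {E : Subgroup (V ≃ₗ[ℚ] V)} (hE : Nrm (OL B Λ) E) {P : Set V} (x : V)
    {T : Set V} (hT : T.Finite)
    (h : ∀ g ∈ OL B Λ, (∀ y ∈ P, g y = y) →
      ∃ ε ∈ E, ε ∈ OL B Λ ∧ (∀ y ∈ P, ε y = y) ∧ ε (g x) ∈ T)
    (hc : OrbCov B Λ E (insert x P)) : OrbCov B Λ E P := by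
  classical
  obtain ⟨S, hS, hSO, hS'⟩ := hc
  have hch : ∀ t : V, ∃ r : V ≃ₗ[ℚ] V, r ∈ OL B Λ ∧ (∀ y ∈ P, r y = y) ∧
      ((∃ g ∈ OL B Λ, (∀ y ∈ P, g y = y) ∧ g x = t) → r x = t) := by
    intro t
    by_cases ht : ∃ g ∈ OL B Λ, (∀ y ∈ P, g y = y) ∧ g x = t
    · obtain ⟨g, hg, hg', hg''⟩ := ht
      exact ⟨g, hg, hg', fun _ => hg''⟩
    · exact ⟨1, (OL B Λ).one_mem, fun _ _ => rfl, fun h => absurd h ht⟩
  choose r hrO hrP hrx using hch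
  refine ⟨Set.image2 (fun t s => r t * s) T S, hT.image2 _ hS, ?_, ?_⟩
  · rintro _ ⟨t, _, s, hs, rfl⟩
    exact (OL B Λ).mul_mem (hrO t) (hSO s hs)
  · intro g hg hgP
    obtain ⟨ε, hεE, hεO, hεP, hεT⟩ := h g hg hgP
    have hεg : ∀ y ∈ P, (ε * g) y = y := fun y hy => by rw [mul_apply', hgP y hy, hεP y hy]
    have ht : r (ε (g x)) x = ε (g x) :=
      hrx _ ⟨ε * g, (OL B Λ).mul_mem hεO hg, hεg, rfl⟩
    set t := ε (g x) with htdef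
    obtain ⟨s, hs, hsE⟩ := hS' ((r t)⁻¹ * (ε * g))
      ((OL B Λ).mul_mem ((OL B Λ).inv_mem (hrO t)) ((OL B Λ).mul_mem hεO hg)) (by
        intro y hy
        rcases hy with rfl | hy
        · have h0 := inv_apply_apply' (r t) y
          rw [ht] at h0
          rw [mul_apply', mul_apply', ← htdef, h0]
        · rw [mul_apply', hεg y hy]
          conv_lhs => rw [← hrP t y hy]
          exact inv_apply_apply' _ _)
    refine ⟨r t * s, ⟨t, hεT, s, hs, rfl⟩, ?_⟩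
    have h1 := hE (r t * s)⁻¹ ((OL B Λ).inv_mem ((OL B Λ).mul_mem (hrO t) (hSO s hs))) ε⁻¹
      (E.inv_mem hεE)
    have h2 := E.mul_mem h1 hsE
    have e : (r t * s)⁻¹ * ε⁻¹ * (r t * s)⁻¹⁻¹ * (s⁻¹ * ((r t)⁻¹ * (ε * g))) =
        (r t * s)⁻¹ * g := by group
    rwa [e] at h2

theorem orb_fin {E : Subgroup (V ≃ₗ[ℚ] V)} (hc : OrbCov B Λ E ∅) : E.relIndex (OL B Λ) ≠ 0 := by
  obtain ⟨S, hS, hSO, hS'⟩ := hc
  have : Finite S := hS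
  have hfin : Finite ((OL B Λ) ⧸ E.subgroupOf (OL B Λ)) := by
    refine Finite.of_surjective
      (fun s : S => (QuotientGroup.mk (⟨s.1, hSO s.1 s.2⟩ : OL B Λ) :
        (OL B Λ) ⧸ E.subgroupOf (OL B Λ))) ?_
    intro q
    obtain ⟨g, rfl⟩ := QuotientGroup.mk_surjective q
    obtain ⟨s, hs, hsE⟩ := hS' g.1 g.2 (by simp)
    refine ⟨⟨s, hs⟩, ?_⟩
    rw [QuotientGroup.eq, Subgroup.mem_subgroupOf]
    exact hsE
  exact Subgroup.index_ne_zero_of_finite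

theorem orb_mod (hΛ : Λ.FG) {M : ℕ} (hM : 0 < M) {A : Set V} (hA : ∀ v ∈ A, v ∈ Λ) :
    ∃ T : Set V, T.Finite ∧ (∀ t ∈ T, t ∈ A) ∧
      ∀ v ∈ A, ∃ t ∈ T, ∃ y ∈ Λ, t = v + (M : ℚ) • y := by
  classical
  obtain ⟨T₀, hT₀, h⟩ := finite_mod hΛ hM
  have hch : ∀ t : V, ∃ w : V, (∃ v ∈ A, ∃ y ∈ Λ, v = t + (M : ℚ) • y) →
      w ∈ A ∧ ∃ y ∈ Λ, w = t + (M : ℚ) • y := by
    intro t
    by_cases ht : ∃ v ∈ A, ∃ y ∈ Λ, v = t + (M : ℚ) • y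
    · obtain ⟨v, hv, hv'⟩ := ht
      exact ⟨v, fun _ => ⟨hv, hv'⟩⟩
    · exact ⟨0, fun h => absurd h ht⟩
  choose w hw using hch
  refine ⟨w '' T₀ ∩ A, (hT₀.image w).inter_of_left _, fun t ht => ht.2, fun v hv => ?_⟩
  obtain ⟨t, ht, y, hy, e⟩ := h v (hA v hv)
  obtain ⟨h1, y', hy', e'⟩ := hw t ⟨v, hv, y, hy, e⟩
  refine ⟨w t, ⟨⟨t, ht, rfl⟩, h1⟩, y' - y, Λ.sub_mem hy' hy, ?_⟩
  rw [e', e, smul_sub]
  abel

theorem orb_dec (hΛ : Lat B Λ) (hF : Frame B Λ e₁ f₁ e₂ f₂) {k : ℕ} {u : Fin k → V}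
    (hu : Compl B Λ e₁ f₁ e₂ f₂ u) {x : V} (hx : ∀ j, B (u j) x = 0) :
    x = B f₁ x • e₁ + B e₁ x • f₁ + B f₂ x • e₂ + B e₂ x • f₂ := by
  have hB := hΛ.symm
  rw [← sub_eq_zero]
  refine hu.span _ ⟨?_, ?_, ?_, ?_⟩ fun j => ?_
  · simp [hF.e₁e₁, hF.e₁f₁, hF.e₁e₂, hF.e₁f₂]
  · simp [hF.f₁f₁, hB f₁ e₁, hF.e₁f₁, hF.f₁e₂, hF.f₁f₂]
  · simp [hF.e₂e₂, hB e₂ e₁, hB e₂ f₁, hF.e₁e₂, hF.f₁e₂, hF.e₂f₂]
  · simp [hF.f₂f₂, hB f₂ e₁, hB f₂ f₁, hB f₂ e₂, hF.e₁f₂, hF.f₁f₂, hF.e₂f₂]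
  · obtain ⟨h1, h2, h3, h4⟩ := hu.perp j
    simp [hx j, hB (u j) e₁, hB (u j) f₁, hB (u j) e₂, hB (u j) f₂, h1, h2, h3, h4]

theorem orb_pm (hΛ : Lat B Λ) {e f v w : V} (he : e ∈ Λ) (hf : f ∈ Λ) (hee : B e e = 0)
    (hff : B f f = 0) (hef : B e f = 1) (hv : v ∈ Λ) (hw : w ∈ Λ)
    (hdec : v = B f v • e + B e v • f) (hvv : B v v = 0) (hvw : B v w = 1) :
    v ∈ ({e, -e, f, -f} : Set V) := by
  have hB := hΛ.symm
  obtain ⟨a, ha⟩ := hΛ.int hf hv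
  obtain ⟨b, hb⟩ := hΛ.int he hv
  obtain ⟨c, hc⟩ := hΛ.int he hw
  obtain ⟨d, hd⟩ := hΛ.int hf hw
  rw [ha, hb] at hdec
  rw [hdec] at hvv hvw
  simp only [map_add, map_smul, LinearMap.add_apply, LinearMap.smul_apply, smul_eq_mul, hee, hff,
    hef, hB f e, hc, hd] at hvv hvw
  have h1 : a * b = 0 := by
    have : (a : ℚ) * b = 0 := by linarith
    exact_mod_cast this
  have h2 : a * c + b * d = 1 := by exact_mod_cast hvw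
  simp only [Set.mem_insert_iff, Set.mem_singleton_iff]
  rcases mul_eq_zero.1 h1 with h | h
  · rw [h, zero_mul, zero_add] at h2
    rcases Int.eq_one_or_neg_one_of_mul_eq_one h2 with h3 | h3
    · rw [hdec, h, h3]; simp
    · rw [hdec, h, h3]; simp
  · rw [h, zero_mul, add_zero] at h2
    rcases Int.eq_one_or_neg_one_of_mul_eq_one h2 with h3 | h3
    · rw [hdec, h, h3]; simp
    · rw [hdec, h, h3]; simp

theorem orb_perp {g : V ≃ₗ[ℚ] V} (hg : g ∈ OL B Λ) {y : V} (hy : g y = y) (x : V) :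
    B y (g x) = B y x := by
  conv_lhs => rw [← hy]
  exact hg.1 y x

theorem orb_last (hΛ : Lat B Λ) (hF : Frame B Λ e₁ f₁ e₂ f₂) {k : ℕ} {u : Fin k → V}
    (hu : Compl B Λ e₁ f₁ e₂ f₂ u) (E : Subgroup (V ≃ₗ[ℚ] V)) :
    OrbCov B Λ E (insert e₂ (insert f₁ (insert e₁ (Set.range u)))) := by
  have hB := hΛ.symm
  refine ⟨{1}, Set.finite_singleton _, fun s hs => hs ▸ (OL B Λ).one_mem, fun g hg hgP => ?_⟩
  have h1 : g e₁ = e₁ := hgP _ (by simp)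
  have h2 : g f₁ = f₁ := hgP _ (by simp)
  have h3 : g e₂ = e₂ := hgP _ (by simp)
  have h5 : ∀ j, g (u j) = u j := fun j => hgP _ (by simp)
  have h4 : g f₂ = f₂ := by
    have hd := orb_dec hΛ hF hu (x := g f₂) fun j => by
      rw [orb_perp hg (h5 j), hB, (hu.perp j).2.2.2]
    rw [orb_perp hg h1, orb_perp hg h2, orb_perp hg h3, hF.f₁f₂, hF.e₁f₂, hF.e₂f₂] at hd
    have hn : B (g f₂) (g f₂) = 0 := by rw [hg.1, hF.f₂f₂]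
    set c := B f₂ (g f₂)
    rw [hd] at hn
    simp only [map_add, map_smul, LinearMap.add_apply, LinearMap.smul_apply, smul_eq_mul,
      zero_smul, zero_add, one_smul, hF.e₂e₂, hF.e₂f₂, hF.f₂f₂, hB f₂ e₂] at hn
    have hc : c = 0 := by linarith
    rw [hd, hc]
    simp
  refine ⟨1, rfl, ?_⟩
  have : g = 1 := by
    ext x
    rw [one_apply', ← sub_eq_zero]
    refine hu.span _ ⟨?_, ?_, ?_, ?_⟩ fun j => ?_
    · rw [map_sub, orb_perp hg h1, sub_self]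
    · rw [map_sub, orb_perp hg h2, sub_self]
    · rw [map_sub, orb_perp hg h3, sub_self]
    · rw [map_sub, orb_perp hg h4, sub_self]
    · rw [map_sub, orb_perp hg (h5 j), sub_self]
  rw [this]
  simp

theorem orb_e₂ (hΛ : Lat B Λ) (hF : Frame B Λ e₁ f₁ e₂ f₂) {k : ℕ} {u : Fin k → V}
    (hu : Compl B Λ e₁ f₁ e₂ f₂ u) {E : Subgroup (V ≃ₗ[ℚ] V)} (hE : Nrm (OL B Λ) E) :
    OrbCov B Λ E (insert f₁ (insert e₁ (Set.range u))) := by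
  have hB := hΛ.symm
  refine orb_step hE e₂ (T := {e₂, -e₂, f₂, -f₂}) (Set.toFinite _) (fun g hg hgP => ?_)
    (orb_last hΛ hF hu E)
  refine ⟨1, E.one_mem, (OL B Λ).one_mem, fun _ _ => rfl, ?_⟩
  have h1 : g e₁ = e₁ := hgP _ (by simp)
  have h2 : g f₁ = f₁ := hgP _ (by simp)
  have h5 : ∀ j, g (u j) = u j := fun j => hgP _ (by simp)
  have hd := orb_dec hΛ hF hu (x := g e₂) fun j => by
    rw [orb_perp hg (h5 j), hB, (hu.perp j).2.2.1]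
  rw [orb_perp hg h1, orb_perp hg h2, hF.f₁e₂, hF.e₁e₂, zero_smul, zero_smul, zero_add,
    zero_add] at hd
  rw [one_apply']
  exact orb_pm hΛ hF.me₂ hF.mf₂ hF.e₂e₂ hF.f₂f₂ hF.e₂f₂ ((hg.2 _).2 hF.me₂) ((hg.2 _).2 hF.mf₂) hd
    (by rw [hg.1, hF.e₂e₂]) (by rw [hg.1, hF.e₂f₂])

theorem orb_f₁ (hΛ : Lat B Λ) (hF : Frame B Λ e₁ f₁ e₂ f₂) {k : ℕ} {u : Fin k → V}
    (hu : Compl B Λ e₁ f₁ e₂ f₂ u) {E : Subgroup (V ≃ₗ[ℚ] V)} (hE : Nrm (OL B Λ) E)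
    (h4 : H4 B e₁ f₁ e₂ f₂ ≤ E) : OrbCov B Λ E (insert e₁ (Set.range u)) := by
  have hB := hΛ.symm
  refine orb_step hE f₁ (T := {f₁}) (Set.toFinite _) (fun g hg hgP => ?_) (orb_e₂ hΛ hF hu hE)
  have h1 : g e₁ = e₁ := hgP _ (by simp)
  have h5 : ∀ j, g (u j) = u j := fun j => hgP _ (by simp)
  have hv : g f₁ ∈ Λ := (hg.2 _).2 hF.mf₁
  obtain ⟨c, hc⟩ := hΛ.int hF.mf₂ hv
  obtain ⟨d, hd⟩ := hΛ.int hF.me₂ hv
  have hdec := orb_dec hΛ hF hu (x := g f₁) fun j => by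
    rw [orb_perp hg (h5 j), hB, (hu.perp j).2.1]
  rw [orb_perp hg h1, hF.e₁f₁, hc, hd] at hdec
  have hn : B (g f₁) (g f₁) = 0 := by rw [hg.1, hF.f₁f₁]
  set a := B f₁ (g f₁)
  have hw : B e₁ (((-c : ℤ) : ℚ) • e₂ + ((-d : ℤ) : ℚ) • f₂) = 0 := by simp [hF.e₁e₂, hF.e₁f₂]
  have hH : eich B e₁ (((-c : ℤ) : ℚ) • e₂ + ((-d : ℤ) : ℚ) • f₂) ∈ H4 B e₁ f₁ e₂ f₂ := by
    rw [eich_add hB hF.e₁e₁ (by simp [hF.e₁e₂]) (by simp [hF.e₁f₂]),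
      eich_intCast_smul hB hF.e₁e₁ hF.e₁e₂, eich_intCast_smul hB hF.e₁e₁ hF.e₁f₂]
    exact Subgroup.mul_mem _ (Subgroup.zpow_mem _ (Subgroup.subset_closure (by simp)) _)
      (Subgroup.zpow_mem _ (Subgroup.subset_closure (by simp)) _)
  refine ⟨_, h4 hH, H4_le_OL hΛ hF hH, ?_, ?_⟩
  · rintro y (rfl | ⟨j, rfl⟩)
    · exact eich_fix hB hF.e₁e₁ hw hF.e₁e₁ (by rw [hB, hw])
    · exact H4_fix hΛ hF hH (hu.perp j)
  · rw [hdec] at hn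
    simp only [map_add, map_smul, LinearMap.add_apply, LinearMap.smul_apply, smul_eq_mul,
      hF.e₁e₁, hF.f₁f₁, hF.e₂e₂, hF.f₂f₂, hF.e₁f₁, hF.e₂f₂, hF.e₁e₂, hF.e₁f₂, hF.f₁e₂, hF.f₁f₂,
      hB f₁ e₁, hB e₂ e₁, hB f₂ e₁, hB e₂ f₁, hB f₂ f₁, hB f₂ e₂] at hn
    have ha : a = -(c * d) := by linarith
    rw [Set.mem_singleton_iff, eich_apply hB hF.e₁e₁ hw, hdec, ha]
    simp only [map_add, map_smul, LinearMap.add_apply, LinearMap.smul_apply, smul_eq_mul,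
      hF.e₁e₁, hF.f₁f₁, hF.e₂e₂, hF.f₂f₂, hF.e₁f₁, hF.e₂f₂, hF.e₁e₂, hF.e₁f₂, hF.f₁e₂, hF.f₁f₂,
      hB f₁ e₁, hB e₂ e₁, hB f₂ e₁, hB e₂ f₁, hB f₂ f₁, hB f₂ e₂]
    push_cast
    module

theorem orb_e₁ (hΛ : Lat B Λ) (hF : Frame B Λ e₁ f₁ e₂ f₂) {k : ℕ} {u : Fin k → V}
    (hu : Compl B Λ e₁ f₁ e₂ f₂ u) {E : Subgroup (V ≃ₗ[ℚ] V)} (hE : Nrm (OL B Λ) E)
    (h4 : H4 B e₁ f₁ e₂ f₂ ≤ E) : OrbCov B Λ E (Set.range u) := by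
  have hB := hΛ.symm
  refine orb_step hE e₁ (T := {e₁, -e₁, f₁, -f₁}) (Set.toFinite _) (fun g hg hgP => ?_)
    (orb_f₁ hΛ hF hu hE h4)
  have h5 : ∀ j, g (u j) = u j := fun j => hgP _ (by simp)
  obtain ⟨h, hh, ha, hb⟩ := smith hΛ hF ((hg.2 _).2 hF.me₁)
  have hhO := H4_le_OL hΛ hF hh
  have hhu : ∀ j, h (u j) = u j := fun j => H4_fix hΛ hF hh (hu.perp j)
  refine ⟨h, h4 hh, hhO, ?_, ?_⟩
  · rintro y ⟨j, rfl⟩
    exact hhu j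
  · have hd := orb_dec hΛ hF hu (x := h (g e₁)) fun j => by
      rw [orb_perp hhO (hhu j), orb_perp hg (h5 j), hB, (hu.perp j).1]
    rw [ha, hb, zero_smul, zero_smul, add_zero, add_zero] at hd
    exact orb_pm hΛ hF.me₁ hF.mf₁ hF.e₁e₁ hF.f₁f₁ hF.e₁f₁ ((hhO.2 _).2 ((hg.2 _).2 hF.me₁))
      ((hhO.2 _).2 ((hg.2 _).2 hF.mf₁)) hd (by rw [hhO.1, hg.1, hF.e₁e₁])
      (by rw [hhO.1, hg.1, hF.e₁f₁])

theorem orb_u (hΛ : Lat B Λ) (hF : Frame B Λ e₁ f₁ e₂ f₂) {m : ℕ} (hm : 0 < m)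
    {E : Subgroup (V ≃ₗ[ℚ] V)} (hE : Nrm (OL B Λ) E) (h4 : H4 B e₁ f₁ e₂ f₂ ≤ E)
    (h₂ : Lvl B Λ m E e₂) (h₂' : Lvl B Λ m E f₂) {P : Set V} {x : V} (hx : x ∈ Λ)
    (hxx : B x x ≠ 0) (hP : ∀ y ∈ P, Perp B e₁ f₁ e₂ f₂ y) (hPx : ∀ y ∈ P, B y x = 0)
    (hc : OrbCov B Λ E (insert x P)) : OrbCov B Λ E P := by
  have hB := hΛ.symm
  obtain ⟨q, hq⟩ := hΛ.int hx hx
  have hq0 : (q : ℚ) ≠ 0 := hq ▸ hxx
  have hq1 : q ≠ 0 := by exact_mod_cast hq0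
  have hm0 : (m : ℚ) ≠ 0 := by exact_mod_cast hm.ne'
  obtain ⟨T, hT, hTA, hT'⟩ := orb_mod hΛ.fg (M := m * m * (q.natAbs * q.natAbs))
    (by have := Int.natAbs_pos.2 hq1; positivity)
    (A := {v | v ∈ Λ ∧ B e₂ v = 0 ∧ B f₂ v = m * q ∧ B v v = q ∧ ∀ y ∈ P, B y v = 0})
    (fun v hv => hv.1)
  refine orb_step hE x hT (fun g hg hgP => ?_) hc
  obtain ⟨h, hh, ha, hb⟩ := smith hΛ hF ((hg.2 _).2 hx)
  have hhO := H4_le_OL hΛ hF hh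
  have hhP : ∀ y ∈ P, h y = y := fun y hy => H4_fix hΛ hF hh (hP y hy)
  set v := h (g x) with hvdef
  have hvΛ : v ∈ Λ := (hhO.2 _).2 ((hg.2 _).2 hx)
  have hvv : B v v = q := by rw [hvdef, hhO.1, hg.1, hq]
  have hvP : ∀ y ∈ P, B y v = 0 := fun y hy => by
    rw [hvdef, orb_perp hhO (hhP y hy), orb_perp hg (hgP y hy), hPx y hy]
  have hw : B e₂ ((m : ℚ) • -v) = 0 := by simp [ha]
  have hε₁E : eich B e₂ ((m : ℚ) • -v) ∈ E := h₂ _ (Λ.neg_mem hvΛ) (by simp [ha])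
  have hε₁O : eich B e₂ ((m : ℚ) • -v) ∈ OL B Λ :=
    eich_mem_OL hΛ hF.me₂ (natCast_smul_mem (Λ.neg_mem hvΛ) m)
  have hε₁P : ∀ y ∈ P, eich B e₂ ((m : ℚ) • -v) y = y := fun y hy =>
    eich_fix hB hF.e₂e₂ hw (hP y hy).2.2.1 (by simp [hB v y, hvP y hy])
  have hv' : eich B e₂ ((m : ℚ) • -v) v = v + ((m : ℚ) * q) • e₂ := by
    rw [eich_apply hB hF.e₂e₂ hw]
    simp only [map_smul, map_neg, LinearMap.smul_apply, LinearMap.neg_apply, smul_eq_mul, ha, hvv]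
    module
  set v' := eich B e₂ ((m : ℚ) • -v) v with hv'def
  have ha' : B e₂ v' = 0 := by rw [hv']; simp [ha, hF.e₂e₂]
  have hb' : B f₂ v' = m * q := by rw [hv']; simp [hb, hB f₂ e₂, hF.e₂f₂]
  have hvv' : B v' v' = q := by rw [hv'def, hε₁O.1, hvv]
  have hvP' : ∀ y ∈ P, B y v' = 0 := fun y hy => by
    rw [hv'def, orb_perp hε₁O (hε₁P y hy), hvP y hy]
  obtain ⟨t, ht, y₀, hy₀, e⟩ := hT' v' ⟨(hε₁O.2 _).2 hvΛ, ha', hb', hvv', hvP'⟩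
  obtain ⟨-, hta, htb, htt, htP⟩ := hTA t ht
  have hcast : ((m * m * (q.natAbs * q.natAbs) : ℕ) : ℚ) = m * q * m * q := by
    have : ((q.natAbs * q.natAbs : ℕ) : ℤ) = q * q := Int.natAbs_mul_self
    have h2 : ((q.natAbs * q.natAbs : ℕ) : ℚ) = q * q := by
      rw [← Int.cast_natCast, this, Int.cast_mul]
    rw [Nat.cast_mul, h2]
    push_cast
    ring
  have hz : (q : ℚ) • y₀ ∈ Λ := intCast_smul_mem hy₀ q
  rw [hcast, mul_smul _ (q : ℚ)] at e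
  set z := (q : ℚ) • y₀
  have hκ : (m : ℚ) * q * m ≠ 0 := mul_ne_zero (mul_ne_zero hm0 hq0) hm0
  have hzf : B f₂ z = 0 := by
    rw [e, map_add, map_smul, hb', smul_eq_mul, add_eq_left] at htb
    exact (mul_eq_zero.1 htb).resolve_left hκ
  have hzP : ∀ y ∈ P, B y z = 0 := fun y hy => by
    have := htP y hy
    rw [e, map_add, map_smul, hvP' y hy, smul_eq_mul, zero_add] at this
    exact (mul_eq_zero.1 this).resolve_left hκ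
  have hw' : B f₂ ((m : ℚ) • z) = 0 := by simp [hzf]
  have hε₂E : eich B f₂ ((m : ℚ) • z) ∈ E := h₂' _ hz hzf
  have hε₂O : eich B f₂ ((m : ℚ) • z) ∈ OL B Λ := eich_mem_OL hΛ hF.mf₂ (natCast_smul_mem hz m)
  have hε₂P : ∀ y ∈ P, eich B f₂ ((m : ℚ) • z) y = y := fun y hy =>
    eich_fix hB hF.f₂f₂ hw' (hP y hy).2.2.2 (by simp [hB z y, hzP y hy])
  have hn : B z v' = -((m : ℚ) * q * m * B z z / 2) := by
    rw [e] at htt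
    simp only [map_add, map_smul, LinearMap.add_apply, LinearMap.smul_apply, smul_eq_mul, hvv',
      hB v' z] at htt
    have : (m : ℚ) * q * m * (B z v' + (m : ℚ) * q * m * B z z / 2) = 0 := by linarith
    have := (mul_eq_zero.1 this).resolve_left hκ
    linarith
  refine ⟨eich B f₂ ((m : ℚ) • z) * (eich B e₂ ((m : ℚ) • -v) * h),
    E.mul_mem hε₂E (E.mul_mem hε₁E (h4 hh)),
    (OL B Λ).mul_mem hε₂O ((OL B Λ).mul_mem hε₁O hhO), fun y hy => ?_, ?_⟩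
  · rw [mul_apply', mul_apply', hhP y hy, hε₁P y hy, hε₂P y hy]
  · rw [mul_apply', mul_apply', ← hvdef, ← hv'def]
    have : eich B f₂ ((m : ℚ) • z) v' = t := by
      rw [eich_apply hB hF.f₂f₂ hw', e]
      simp only [map_smul, LinearMap.smul_apply, smul_eq_mul, hb', hn]
      module
    rw [this]
    exact ht

/-- Finitely many orbits. -/
theorem relIndex_of_H4_le (hΛ : Lat B Λ) (hF : Frame B Λ e₁ f₁ e₂ f₂) {k : ℕ} {u : Fin k → V}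
    (hu : Compl B Λ e₁ f₁ e₂ f₂ u) {m : ℕ} (hm : 0 < m) {E : Subgroup (V ≃ₗ[ℚ] V)}
    (hE : Nrm (OL B Λ) E) (h4 : H4 B e₁ f₁ e₂ f₂ ≤ E) (h₂ : Lvl B Λ m E e₂)
    (h₂' : Lvl B Λ m E f₂) : E.relIndex (OL B Λ) ≠ 0 := by
  classical
  have key : ∀ s : Finset (Fin k), OrbCov B Λ E (u '' s) → OrbCov B Λ E ∅ := by
    intro s
    induction s using Finset.induction_on with
    | empty => simp
    | insert j s hj ih =>
      intro hc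
      rw [Finset.coe_insert, Set.image_insert_eq] at hc
      refine ih (orb_u hΛ hF hm hE h4 h₂ h₂' (hu.mem j) (hu.aniso j) ?_ ?_ hc)
      · rintro _ ⟨i, _, rfl⟩
        exact hu.perp i
      · rintro _ ⟨i, hi, rfl⟩
        exact hu.orth i j fun h => hj (h ▸ hi)
  refine orb_fin (key Finset.univ ?_)
  rw [Finset.coe_univ, Set.image_univ]
  exact orb_e₁ hΛ hF hu hE h4

end Pool.Agent.P.MP_d483fb_an
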