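import Pool.Agent.P.MP_d483fb_an.Cent
import Pool.Agent.P.MP_d483fb_an.Dietz
import Pool.Agent.P.MP_d483fb_an.Orbits

set_option autoImplicit false

namespace Pool.Agent.P.MP_d483fb_an

variable {V : Type} [AddCommGroup V] [Module ℚ V] {B : LinearMap.BilinForm ℚ V}
  {Λ : Submodule ℤ V} {e₁ f₁ e₂ f₂ : V}

/-- The normal subgroup generated by Eichler transformations of level `m` has finite index. -/
theorem relIndex_of_lvl (hΛ : Lat B Λ) (hF : Frame B Λ e₁ f₁ e₂ f₂) {k : ℕ} {u : Fin k → V}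
    (hu : Compl B Λ e₁ f₁ e₂ f₂ u) {m : ℕ} (hm : 0 < m) {K : Subgroup (V ≃ₗ[ℚ] V)}
    (hK : Nrm (OL B Λ) K) (h₁ : Lvl B Λ m K e₁) (h₁' : Lvl B Λ m K f₁) (h₂ : Lvl B Λ m K e₂)
    (h₂' : Lvl B Λ m K f₂) : K.relIndex (OL B Λ) ≠ 0 := by
  have hB := hΛ.symm
  let j : Fin k := ⟨0, hu.pos⟩
  obtain ⟨p1, p2, p3, p4⟩ := hu.perp j
  obtain ⟨M₁, hM₁, c₁⟩ := cent hΛ hF (hu.mem j) ⟨p1, p2, p3, p4⟩ (hu.aniso j) hm hK h₁ h₁'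
  obtain ⟨M₂, hM₂, c₂⟩ := cent hΛ (hF.swap₂ hB) (hu.mem j) ⟨p1, p2, p4, p3⟩ (hu.aniso j) hm hK h₁ h₁'
  obtain ⟨M₃, hM₃, c₃⟩ := cent hΛ (hF.swap₁ hB) (hu.mem j) ⟨p2, p1, p3, p4⟩ (hu.aniso j) hm hK h₁' h₁
  obtain ⟨M₄, hM₄, c₄⟩ := cent hΛ ((hF.swap₁ hB).swap₂ hB) (hu.mem j) ⟨p2, p1, p4, p3⟩ (hu.aniso j)
    hm hK h₁' h₁
  set M := M₁ * M₂ * M₃ * M₄ with hM
  have hM0 : 0 < M := by positivity
  have d₁ : M₁ ∣ M := ⟨M₂ * M₃ * M₄, by rw [hM]; ring⟩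
  have d₂ : M₂ ∣ M := ⟨M₁ * M₃ * M₄, by rw [hM]; ring⟩
  have d₃ : M₃ ∣ M := ⟨M₁ * M₂ * M₄, by rw [hM]; ring⟩
  have d₄ : M₄ ∣ M := ⟨M₁ * M₂ * M₃, by rw [hM]; ring⟩
  let K' : Subgroup (OL B Λ) := K.subgroupOf (OL B Λ)
  let Z : Subgroup (OL B Λ) := (Cong B Λ M).subgroupOf (OL B Λ)
  have : K'.Normal := ⟨fun x hx g => hK g.1 g.2 x.1 hx⟩
  have : Z.Normal := ⟨fun x hx g => cong_nrm M g.1 g.2 x.1 hx⟩
  have : Z.FiniteIndex := ⟨cong_relIndex hΛ.fg hM0⟩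
  let R : Set (OL B Λ) :=
    Subtype.val ⁻¹' {eich B e₁ e₂, eich B e₁ f₂, eich B f₁ e₂, eich B f₁ f₂}
  have hR : R.Finite := Set.Finite.preimage Subtype.val_injective.injOn (Set.toFinite _)
  have h1 : ∀ r ∈ R, r ^ m ∈ K' := by
    intro r hr
    change r.1 ^ m ∈ K
    rcases hr with h | h | h | h <;> rw [h]
    · rw [← eich_natCast_smul hB hF.e₁e₁ hF.e₁e₂]
      exact h₁ _ hF.me₂ hF.e₁e₂
    · rw [← eich_natCast_smul hB hF.e₁e₁ hF.e₁f₂]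
      exact h₁ _ hF.mf₂ hF.e₁f₂
    · rw [← eich_natCast_smul hB hF.f₁f₁ hF.f₁e₂]
      exact h₁' _ hF.me₂ hF.f₁e₂
    · rw [← eich_natCast_smul hB hF.f₁f₁ hF.f₁f₂]
      exact h₁' _ hF.mf₂ hF.f₁f₂
  have h2 : ∀ r ∈ R, ∀ z ∈ Z, z * r * z⁻¹ * r⁻¹ ∈ K' := by
    intro r hr z hz
    change z.1 * r.1 * z.1⁻¹ * r.1⁻¹ ∈ K
    have hz' : z.1 ∈ Cong B Λ M := hz
    rcases hr with h | h | h | h <;> rw [h]
    · exact c₁ _ (cong_le d₁ hz')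
    · exact c₂ _ (cong_le d₂ hz')
    · exact c₃ _ (cong_le d₃ hz')
    · exact c₄ _ (cong_le d₄ hz')
  have hd := dietz K' Z hR hm h1 h2
  let E' : Subgroup (OL B Λ) := Subgroup.normalClosure R ⊔ K'
  have hE' : E'.Normal := inferInstance
  let E : Subgroup (V ≃ₗ[ℚ] V) := E'.map (OL B Λ).subtype
  have hE : Nrm (OL B Λ) E := by
    rintro g hg _ ⟨x, hx, rfl⟩
    exact ⟨_, hE'.conj_mem x hx ⟨g, hg⟩, rfl⟩
  have hRE : ∀ x (hx : x ∈ OL B Λ), (⟨x, hx⟩ : OL B Λ) ∈ R → x ∈ E := fun x hx h =>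
    ⟨⟨x, hx⟩, Subgroup.mem_sup_left (Subgroup.subset_normalClosure h), rfl⟩
  have h4 : H4 B e₁ f₁ e₂ f₂ ≤ E := by
    rw [H4, Subgroup.closure_le]
    intro x hx
    exact hRE x (H4_le_OL hΛ hF (Subgroup.subset_closure hx)) hx
  have hl : ∀ z ∈ Λ, Lvl B Λ m K z → Lvl B Λ m E z := fun z hz h v hv hzv =>
    ⟨⟨_, eich_mem_OL hΛ hz (natCast_smul_mem hv m)⟩, Subgroup.mem_sup_right (h v hv hzv), rfl⟩
  have hi := relIndex_of_H4_le hΛ hF hu hm hE h4 (hl _ hF.me₂ h₂) (hl _ hF.mf₂ h₂')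
  have hEE : E.subgroupOf (OL B Λ) = E' :=
    Subgroup.comap_map_eq_self_of_injective (OL B Λ).subtype_injective E'
  rw [Subgroup.relIndex, hEE] at hi
  change K'.index ≠ 0
  rw [← Subgroup.relIndex_mul_index (show K' ≤ E' from le_sup_right)]
  exact mul_ne_zero hd hi

end Pool.Agent.P.MP_d483fb_an
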