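import Pool.Agent.P.MP_d483fb_an.Eich

set_option autoImplicit false

namespace Pool.Agent.P.MP_d483fb_an

variable {V : Type} [AddCommGroup V] [Module ℚ V] {B : LinearMap.BilinForm ℚ V}
  {Λ : Submodule ℤ V} {e₁ f₁ e₂ f₂ : V}

theorem first_comm (hB : QS B) {Γ N : Subgroup (V ≃ₗ[ℚ] V)} (hΓ : Ample B Γ) (hN : Nrm Γ N)
    {c : V ≃ₗ[ℚ] V} (hc : c ∈ N) (hO : c ∈ OG B) {z u : V} (hz : B z z = 0) (hu : B z u = 0) :
    ∃ m : ℚ, m ≠ 0 ∧ eich B (c z) (m • c u) * (eich B z (m • u))⁻¹ ∈ N := by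
  obtain ⟨m, hm, hγ⟩ := hΓ.2 z hz u hu
  refine ⟨m, by exact_mod_cast hm.ne', ?_⟩
  have h := N.mul_mem hc (hN _ hγ _ (N.inv_mem hc))
  rw [← map_smul, ← eich_conj hB.symm hO hz (by simp [hu])]
  simpa only [mul_assoc] using h

theorem first_smul_mem {z y : V} {m : ℚ} (hm : m ≠ 0) (h : m • y ∈ Submodule.span ℚ {z}) :
    y ∈ Submodule.span ℚ {z} := by
  have := Submodule.smul_mem _ m⁻¹ h
  rwa [smul_smul, inv_mul_cancel₀ hm, one_smul] at this

theorem first_ne_neg {c : V ≃ₗ[ℚ] V} {z : V} (hz : z ≠ 0) (h : c z = z) :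
    c ≠ LinearEquiv.neg ℚ := by
  rintro rfl
  apply hz
  have h1 : -z = z := h
  have h2 : (2 : ℚ) • z = 0 := by rw [two_smul]; nth_rewrite 1 [← h1]; exact neg_add_cancel z
  exact (smul_eq_zero.1 h2).resolve_left two_ne_zero

theorem first_A1 (hB : QS B) {Γ N : Subgroup (V ≃ₗ[ℚ] V)} (hΓ : Ample B Γ) (hN : Nrm Γ N)
    {c : V ≃ₗ[ℚ] V} (hc : c ∈ N) (hO : c ∈ OG B) (h1 : c ≠ 1) (h2 : c ≠ LinearEquiv.neg ℚ)
    {z : V} (hz0 : z ≠ 0) (hz : B z z = 0) {l : ℚ} (hl : c z = l • z) :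
    ∃ z y, z ≠ 0 ∧ B z z = 0 ∧ B z y = 0 ∧ y ∉ Submodule.span ℚ {z} ∧ eich B z y ∈ N := by
  have hs := hB.symm
  have hl0 : l ≠ 0 := by
    rintro rfl
    rw [zero_smul] at hl
    exact hz0 (c.injective (by rw [hl, map_zero]))
  have hperp : ∀ u, B z u = 0 → B z (c u) = 0 := by
    intro u hu
    have := hO z u
    rw [hl, map_smul, LinearMap.smul_apply, smul_eq_mul, hu] at this
    exact (mul_eq_zero.1 this).resolve_left hl0
  by_cases hall : ∀ u, B z u = 0 → l • c u - u ∈ Submodule.span ℚ {z}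
  swap
  · push Not at hall
    obtain ⟨u, hu, hu'⟩ := hall
    obtain ⟨m, hm, h⟩ := first_comm hB hΓ hN hc hO hz hu
    refine ⟨z, m • (l • c u - u), hz0, hz, by simp [hu, hperp u hu],
      fun hx => hu' (first_smul_mem hm hx), ?_⟩
    rw [hl, eich_smul_left hs hz (by simp [hperp u hu]), ← eich_neg hs hz (by simp [hu]),
      ← eich_add hs hz (by simp [hperp u hu]) (by simp [hu])] at h
    convert h using 2
    module
  have hall' : ∀ u, B z u = 0 → ∃ t : ℚ, l • c u = u + t • z := by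
    intro u hu
    obtain ⟨t, ht⟩ := Submodule.mem_span_singleton.1 (hall u hu)
    exact ⟨t, by rw [ht]; abel⟩
  have hsq : ∀ x y, B (l • c x) (l • c y) = l * l * B x y := by
    intro x y
    simp only [map_smul, LinearMap.smul_apply, smul_eq_mul, hO x y]
    ring
  have hll : l * l = 1 := by
    obtain ⟨u, hu, hu'⟩ := exists_perp_not_mem hB ![z] ![z] (by have := hB.five; omega)
    have hu0 : B z u = 0 := hu 0
    obtain ⟨u', k1, k2⟩ := exists_dual hB (z := z) (y := u) (by simpa using hu')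
    obtain ⟨t, ht⟩ := hall' u hu0
    obtain ⟨t', ht'⟩ := hall' u' k1
    have := hsq u u'
    rw [ht, ht'] at this
    simp only [map_add, map_smul, LinearMap.add_apply, LinearMap.smul_apply, smul_eq_mul, hz, k1,
      k2, hs u z, hu0] at this
    linarith
  obtain ⟨f, hf⟩ : ∃ f, B z f = 1 := by
    by_contra hn
    push Not at hn
    refine hz0 (hB.nondeg z fun y => ?_)
    by_contra h
    exact hn ((B z y)⁻¹ • y) (by simp [h])
  obtain ⟨y, hy⟩ : ∃ y, l • c f = f + y := ⟨l • c f - f, by abel⟩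
  have hzz : l • c z = z := by rw [hl, smul_smul, hll, one_smul]
  have hzy : B z y = 0 := by
    have := hsq z f
    rw [hzz, hy, map_add, hf, hll] at this
    linarith
  have hyy : 2 * B y f + B y y = 0 := by
    have := hsq f f
    rw [hy, hll] at this
    simp only [map_add, LinearMap.add_apply, hs f y] at this
    linarith
  have hE : ∀ x, l • c x = eich B z y x := by
    intro x
    have hu : B z (x - B z x • f) = 0 := by simp [hf]
    obtain ⟨t, ht⟩ := hall' _ hu
    have k1 := hsq f (x - B z x • f)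
    rw [hy, ht, hll] at k1
    simp only [map_add, map_sub, map_smul, LinearMap.add_apply, smul_eq_mul, hs f z, hf, hs y z,
      hzy] at k1
    have k2 : t = - B y x - B y y / 2 * B z x := by linear_combination k1 + B z x / 2 * hyy
    have k3 : l • c x = l • c (x - B z x • f) + B z x • (l • c f) := by
      simp only [map_sub, map_smul]; module
    rw [k3, ht, hy, eich_apply hs hz hzy, k2]
    module
  refine ⟨z, y + y, hz0, hz, by simp [hzy], fun hx => ?_, ?_⟩
  · rw [← two_smul ℚ y] at hx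
    obtain ⟨t, ht⟩ := Submodule.mem_span_singleton.1 (first_smul_mem two_ne_zero hx)
    rw [← ht, eich_smul_self hs hz] at hE
    rcases mul_self_eq_one_iff.1 hll with rfl | rfl
    · exact h1 (LinearEquiv.ext fun x => by simpa using hE x)
    · refine h2 (LinearEquiv.ext fun x => ?_)
      have := hE x
      rw [neg_smul, one_smul, one_apply', neg_eq_iff_eq_neg] at this
      exact this
  · have : eich B z (y + y) = c * c := by
      rw [eich_add hs hz hzy hzy]
      ext x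
      rw [mul_apply', mul_apply', ← hE, ← hE, map_smul, smul_smul, hll, one_smul]
    rw [this]
    exact N.mul_mem hc hc

theorem first_inv_fix {g : V ≃ₗ[ℚ] V} {x : V} (h : g x = x) : g⁻¹ x = x := by
  nth_rewrite 1 [← h]
  exact inv_apply_apply' g x

/-- A normalised subgroup with a noncentral element contains an Eichler transformation. -/
theorem exists_eich_mem (hB : QS B) {Γ N : Subgroup (V ≃ₗ[ℚ] V)} (hΓ : Ample B Γ) (hN : Nrm Γ N)
    {d : V ≃ₗ[ℚ] V} (hd : d ∈ N) (hO : d ∈ OG B) (h1 : d ≠ 1) (h2 : d ≠ LinearEquiv.neg ℚ) :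
    ∃ z y, z ≠ 0 ∧ B z z = 0 ∧ B z y = 0 ∧ y ∉ Submodule.span ℚ {z} ∧ eich B z y ∈ N := by
  have hs := hB.symm
  have h5 := hB.five
  by_cases hex : ∃ z, z ≠ 0 ∧ B z z = 0 ∧ B z (d z) = 0
  · obtain ⟨z, hz0, hz, hzd⟩ := hex
    by_cases hsp : d z ∈ Submodule.span ℚ {z}
    · obtain ⟨l, hl⟩ := Submodule.mem_span_singleton.1 hsp
      exact first_A1 hB hΓ hN hd hO h1 h2 hz0 hz hl.symm
    obtain ⟨u, hu, hu'⟩ := exists_perp_not_mem hB ![z, d⁻¹ z] ![z, d⁻¹ z] (by omega)
    have u0 : B z u = 0 := hu 0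
    have u1 : B (d⁻¹ z) u = 0 := hu 1
    obtain ⟨m, hm, h⟩ := first_comm hB hΓ hN hd hO hz u0
    have k1 : B (d z) (d z) = 0 := by rw [hO, hz]
    have k2 : B (d z) (m • d u) = 0 := by simp [hO z u, u0]
    have k3 : B z (m • u) = 0 := by simp [u0]
    have hfix : (eich B (d z) (m • d u) * (eich B z (m • u))⁻¹) z = z := by
      rw [mul_apply', first_inv_fix (eich_fix hs hz k3 hz (by rw [hs, k3]))]
      refine eich_fix hs k1 k2 (by rw [hs, hzd]) ?_
      rw [hs, map_smul, OG_right hO, u1, smul_zero]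
    refine first_A1 hB hΓ hN h ((OG B).mul_mem (eich_mem_OG _ _) ((OG B).inv_mem (eich_mem_OG _ _)))
      (fun he => hu' ?_) (first_ne_neg hz0 hfix) hz0 hz (l := 1) (by rw [hfix, one_smul])
    rw [mul_inv_eq_one] at he
    obtain ⟨x, x1, x2⟩ := exists_dual hB hsp
    have k4 := congrArg (fun g : V ≃ₗ[ℚ] V => d⁻¹ (g x)) he
    simp only [eich_apply hs k1 k2, eich_apply hs hz k3, x1, x2] at k4
    generalize B (m • d u) x = a at k4
    generalize B (m • d u) (m • d u) = b at k4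
    generalize B (m • u) x = a' at k4
    generalize B (m • u) (m • u) = b' at k4
    simp only [map_add, map_sub, map_smul, inv_apply_apply'] at k4
    have k5 : u = (m⁻¹ * (a + b / 2)) • z + (-(m⁻¹ * a')) • d⁻¹ z := by
      have k6 : m • u = (a + b / 2) • z + (-a') • d⁻¹ z := by
        linear_combination (norm := module) k4
      calc u = m⁻¹ • m • u := by rw [smul_smul, inv_mul_cancel₀ hm, one_smul]
        _ = _ := by rw [k6]; module
    rw [k5]
    exact Submodule.add_mem _ (Submodule.smul_mem _ _ (Submodule.subset_span ⟨0, rfl⟩))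
      (Submodule.smul_mem _ _ (Submodule.subset_span ⟨1, rfl⟩))
  push Not at hex
  obtain ⟨z, y, hli, zz, zy, yy⟩ := hB.plane
  have hz0 : z ≠ 0 := hli.ne_zero 0
  have hβ : B z (d⁻¹ z) ≠ 0 := by rw [← OG_left hO, hs]; exact hex z hz0 zz
  obtain ⟨v, hv⟩ : ∃ v, v = B y (d⁻¹ z) • z + (-B z (d⁻¹ z)) • y := ⟨_, rfl⟩
  have hv0 : v ≠ 0 := fun h =>
    hβ (neg_eq_zero.1 (LinearIndependent.pair_iff.1 hli _ _ (hv.symm.trans h)).2)
  have vv : B v v = 0 := by simp [hv, zz, zy, yy, hs y z]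
  have vz : B v z = 0 := by simp [hv, zz, zy, hs y z]
  have vd : B v (d⁻¹ z) = 0 := by simp [hv]; ring
  obtain ⟨u, hu, hu'⟩ := exists_perp_not_mem hB ![v, z, d⁻¹ z] ![v] (by omega)
  have u0 : B v u = 0 := hu 0
  have u1 : B z u = 0 := hu 1
  have u2 : B (d⁻¹ z) u = 0 := hu 2
  obtain ⟨m, hm, h⟩ := first_comm hB hΓ hN hd hO vv u0
  have k1 : B (d v) (d v) = 0 := by rw [hO, vv]
  have k2 : B (d v) (m • d u) = 0 := by simp [hO v u, u0]
  have k3 : B v (m • u) = 0 := by simp [u0]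
  have hfix : (eich B (d v) (m • d u) * (eich B v (m • u))⁻¹) z = z := by
    rw [mul_apply', first_inv_fix (eich_fix hs vv k3 vz (by rw [hs]; simp [u1]))]
    refine eich_fix hs k1 k2 (by rw [OG_left hO, vd]) ?_
    rw [hs, map_smul, OG_right hO, u2, smul_zero]
  refine first_A1 hB hΓ hN h ((OG B).mul_mem (eich_mem_OG _ _) ((OG B).inv_mem (eich_mem_OG _ _)))
    (fun he => hu' ?_) (first_ne_neg hz0 hfix) hz0 zz (l := 1) (by rw [hfix, one_smul])
  rw [mul_inv_eq_one] at he
  have hb : B (d v) v ≠ 0 := by rw [hs]; exact hex v hv0 vv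
  have k4 : d⁻¹ (eich B (d v) (m • d u) v) = d⁻¹ v := by
    rw [he, eich_fix hs vv k3 vv (by rw [hs, k3])]
  rw [eich_apply hs k1 k2] at k4
  generalize B (m • d u) v = a at k4
  generalize B (m • d u) (m • d u) = b at k4
  generalize B (d v) v = β at k4 hb
  simp only [map_add, map_sub, map_smul, inv_apply_apply'] at k4
  have k5 : (β * m) • u ∈ Submodule.span ℚ {v} :=
    Submodule.mem_span_singleton.2 ⟨a + b / 2 * β, by linear_combination (norm := module) -k4⟩
  simpa using first_smul_mem (mul_ne_zero hb hm) k5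

end Pool.Agent.P.MP_d483fb_an
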