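import Pool.Agent.P.MP_d483fb_an.Nerve
import Pool.Agent.P.MP_d483fb_an.Cover
import Pool.Agent.P.MP_d483fb_an.Embed

set_option autoImplicit false

namespace Pool.Agent.P.MP_d483fb_an

open scoped Manifold ContDiff Pointwise Topology

/-- A sum of an invariant function over an invariant finite set is divisible by every common
divisor of the orbit sizes. -/
lemma Fixed_orbit_sum {P Y : Type} [Group P] [MulAction P Y] (f : Y → ℤ)
    (hf : ∀ (g : P) y, f (g • y) = f y) (d : ℕ) (S : Finset Y) :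
    (∀ (g : P), ∀ y ∈ S, g • y ∈ S) → (∀ y ∈ S, d ∣ (MulAction.stabilizer P y).index) →
      (d : ℤ) ∣ ∑ y ∈ S, f y := by
  classical
  induction S using Finset.strongInduction with
  | H S ih =>
    intro h1 h2
    rcases S.eq_empty_or_nonempty with rfl | ⟨y, hy⟩
    · simp
    have h3 : MulAction.orbit P y = ↑(S.filter fun z => z ∈ MulAction.orbit P y) := by
      ext z
      simp only [Finset.coe_filter, Set.mem_ofPred_eq, iff_and_self]
      rintro ⟨g, rfl⟩
      exact h1 g y hy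
    rw [← Finset.sum_filter_add_sum_filter_not S fun z => z ∈ MulAction.orbit P y]
    refine dvd_add ?_ (ih _ ?_ ?_ fun z hz => h2 z (Finset.mem_filter.1 hz).1)
    · rw [Finset.sum_congr rfl (g := fun _ => f y), Finset.sum_const, nsmul_eq_mul]
      · have h4 := h2 y hy
        rw [MulAction.index_stabilizer, h3, Set.ncard_coe_finset] at h4
        exact Dvd.dvd.mul_right (Int.natCast_dvd_natCast.2 h4) _
      · intro z hz
        obtain ⟨g, rfl⟩ := (Finset.mem_filter.1 hz).2
        exact hf g y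
    · exact Finset.filter_ssubset.2 ⟨y, hy, not_not.2 (MulAction.mem_orbit_self y)⟩
    · intro g z hz
      obtain ⟨h4, h5⟩ := Finset.mem_filter.1 hz
      refine Finset.mem_filter.2 ⟨h1 g z h4, fun ⟨k, hk⟩ => h5 ⟨g⁻¹ * k, ?_⟩⟩
      simp only at hk ⊢
      rw [mul_smul, hk, inv_smul_smul]

variable {m : ℕ} {M : Type} [TopologicalSpace M] [T2Space M] [CompactSpace M]
  [ChartedSpace (EuclideanSpace ℝ (Fin m)) M] [IsManifold (𝓡 m) ∞ M]

/-- A subgroup of small index of a finite `ℓ`-group has a fixed point. -/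
theorem exists_fixed {ℓ : ℕ} (hℓ : ℓ.Prime) {P : Type} [Group P] [Finite P] (hP : IsPGroup ℓ P)
    (α : P →* Equiv.Perm M) (hα : ∀ g, ContMDiff (𝓡 m) (𝓡 m) ∞ (α g)) (hχ : eulerChar M ≠ 0) :
    ∃ H : Subgroup P, H.index ∣ ℓ ^ padicValInt ℓ (eulerChar M) ∧ ∃ x : M, ∀ h ∈ H, α h x = x := by
  classical
  have := Fact.mk hℓ
  have := Fintype.ofFinite P
  by_contra hcon
  obtain ⟨W, _, _, _, Φ, π, h1, h2, h3, h4⟩ := exists_equivariant_embedding α hα
  obtain ⟨r₀, hr₀, hr⟩ := exists_convex_radius Φ h1 h2 h3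
  have hc := h1.continuous
  have key : ∀ H : Subgroup P, ∀ᶠ r in 𝓝[>] (0 : ℝ), ∀ x,
      (∀ h ∈ H, dist (Φ (α h x)) (Φ x) < 2 * r) → ∃ x : M, ∀ h ∈ H, α h x = x := by
    intro H
    by_cases hH : ∃ x : M, ∀ h ∈ H, α h x = x
    · exact .of_forall fun _ _ _ => hH
    obtain ⟨δ, hδ, h5⟩ := isCompact_univ.exists_forall_le' (a := 0)
      (f := fun x : M => dist (fun h : H => Φ (α h x)) fun _ => Φ x)
      (Continuous.continuousOn (Continuous.dist
        (continuous_pi fun h => hc.comp (hα h).continuous) (continuous_pi fun _ => hc)))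
      fun x _ => dist_pos.2 fun e => hH ⟨x, fun h hh => h2 (congrFun e ⟨h, hh⟩)⟩
    filter_upwards [Ioo_mem_nhdsGT (half_pos hδ)] with r hr x hx
    have h6 := (dist_pi_lt_iff (f := fun h : H => Φ (α h x)) (g := fun _ => Φ x) hδ).2
      fun h => (hx h h.2).trans (by linarith [hr.2])
    exact absurd (h5 x trivial) (not_le.2 h6)
  obtain ⟨r, h5, h6⟩ := ((Filter.eventually_all.2 key).and (Ioo_mem_nhdsGT hr₀)).exists
  set U : M → Set M := fun x => {y | dist (Φ y) (Φ x) < r} with hU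
  have hUo : ∀ x, IsOpen (U x) := fun x => isOpen_lt (hc.dist continuous_const) continuous_const
  obtain ⟨t, ht⟩ := CompactSpace.elim_nhds_subcover U fun x =>
    (hUo x).mem_nhds (by simpa [hU] using h6.1)
  let _ : MulAction P M := MulAction.compHom M α
  have hs : ∀ (g : P) (x : M), g • x = α g x := fun _ _ => rfl
  set F : Finset M := (Finset.univ : Finset P) • t with hF
  have hcov : ⋃ i ∈ F, U i = Set.univ := by
    refine Set.eq_univ_of_univ_subset (ht.symm.subset.trans ?_)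
    refine Set.biUnion_subset_biUnion_left fun x hx => ?_
    exact Finset.mem_smul.2 ⟨1, Finset.mem_univ _, x, hx, one_smul _ _⟩
  have h7 := eulerChar_cover F U hUo hcov fun σ _ => hr r h6.1 h6.2.le σ
  have h8 := Fixed_orbit_sum (P := P) (fun σ : Finset M => (-1 : ℤ) ^ (σ.card + 1))
    (fun g σ => by rw [Finset.card_smul_finset]) (ℓ ^ (padicValInt ℓ (eulerChar M) + 1))
    (F.powerset.filter fun σ => σ.Nonempty ∧ (⋂ i ∈ σ, U i).Nonempty) ?_ ?_
  · have h9 : (ℓ : ℤ) ^ (padicValInt ℓ (eulerChar M) + 1) ∣ eulerChar M := by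
      conv_rhs => rw [h7]
      exact_mod_cast h8
    rcases (padicValInt_dvd_iff _ _).1 h9 with h | h
    · exact hχ h
    · omega
  · intro g σ hσ
    simp only [Finset.mem_filter, Finset.mem_powerset] at hσ ⊢
    obtain ⟨k1, k2, y, k3⟩ := hσ
    refine ⟨fun z hz => ?_, k2.smul_finset, g • y, ?_⟩
    · obtain ⟨x, hx, rfl⟩ := Finset.mem_smul_finset.1 hz
      obtain ⟨k, -, u, hu, rfl⟩ := Finset.mem_smul.1 (k1 hx)
      exact Finset.mem_smul.2 ⟨g * k, Finset.mem_univ _, u, hu, mul_smul _ _ _⟩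
    · simp only [Set.mem_iInter] at k3 ⊢
      intro z hz
      obtain ⟨x, hx, rfl⟩ := Finset.mem_smul_finset.1 hz
      have := k3 x hx
      simp only [hU, Set.mem_ofPred_eq, hs, h4] at this ⊢
      rwa [LinearIsometryEquiv.dist_map]
  · intro σ hσ
    simp only [Finset.mem_filter, Finset.mem_powerset] at hσ
    obtain ⟨-, ⟨x, hx⟩, y, k3⟩ := hσ
    simp only [Set.mem_iInter, hU, Set.mem_ofPred_eq] at k3
    have k4 := h5 (MulAction.stabilizer P σ) x fun h hh => by
      have k5 : h • x ∈ σ := by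
        rw [← MulAction.mem_stabilizer_iff.1 hh]
        exact Finset.smul_mem_smul_finset hx
      have := dist_triangle_left (Φ (α h x)) (Φ x) (Φ y)
      linarith [k3 _ k5, k3 x hx, hs h x ▸ k3 _ k5]
    obtain ⟨k, hk⟩ := hP.index (MulAction.stabilizer P σ)
    rw [hk]
    refine pow_dvd_pow _ (Nat.succ_le_of_lt (not_le.1 fun h => hcon ⟨_, ?_, k4⟩))
    rw [hk]
    exact pow_dvd_pow _ h

end Pool.Agent.P.MP_d483fb_an
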