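import Pool.Agent.P.MP_d483fb_an.Eich

set_option autoImplicit false

namespace Pool.Agent.P.MP_d483fb_an

variable {V : Type} [AddCommGroup V] [Module ℚ V] {B : LinearMap.BilinForm ℚ V}
  {Λ : Submodule ℤ V} {e₁ f₁ e₂ f₂ : V}

theorem FrameEx_lat (hB : ∀ x y, B x y = B y x) {S : Set V} (hS : S.Finite)
    (h1 : ∀ x ∈ S, ∀ y ∈ S, ∃ k : ℤ, B x y = k) (h2 : ∀ x ∈ S, ∃ k : ℤ, B x x = 2 * k) :
    Lat B (Submodule.span ℤ S) := by
  have hi : ∀ x ∈ Submodule.span ℤ S, ∀ y ∈ Submodule.span ℤ S, ∃ k : ℤ, B x y = k := by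
    intro x hx y hy
    induction hx, hy using Submodule.span_induction₂ with
    | mem_mem x y hx hy => exact h1 x hx y hy
    | zero_left => exact ⟨0, by simp⟩
    | zero_right => exact ⟨0, by simp⟩
    | add_left x y z _ _ _ a b =>
      obtain ⟨a, ha⟩ := a; obtain ⟨b, hb⟩ := b; exact ⟨a + b, by simp [ha, hb]⟩
    | add_right x y z _ _ _ a b =>
      obtain ⟨a, ha⟩ := a; obtain ⟨b, hb⟩ := b; exact ⟨a + b, by simp [ha, hb]⟩
    | smul_left r x y _ _ a => obtain ⟨a, ha⟩ := a; exact ⟨r * a, by simp [ha]⟩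
    | smul_right r x y _ _ a => obtain ⟨a, ha⟩ := a; exact ⟨r * a, by simp [ha]⟩
  refine ⟨hB, Submodule.fg_span hS, fun x hx => ?_⟩
  induction hx using Submodule.span_induction with
  | mem x hx => exact h2 x hx
  | zero => exact ⟨0, by simp⟩
  | add x y hx hy a b =>
    obtain ⟨a, ha⟩ := a; obtain ⟨b, hb⟩ := b; obtain ⟨c, hc⟩ := hi x hx y hy
    refine ⟨a + b + c, ?_⟩
    simp only [map_add, LinearMap.add_apply, ha, hb, hB y x, hc]
    push_cast; ring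
  | smul r x _ a =>
    obtain ⟨a, ha⟩ := a
    refine ⟨r * r * a, ?_⟩
    simp only [map_zsmul, LinearMap.smul_apply, ha, zsmul_eq_mul]
    push_cast; ring

theorem FrameEx_pairs (hB : QS B) : ∃ e₁ f₁ e₂ f₂ : V, Frame B ⊤ e₁ f₁ e₂ f₂ := by
  obtain ⟨x, y, hl, xx, xy, yy⟩ := hB.plane
  have s := hB.symm
  rw [LinearIndependent.pair_iff] at hl
  obtain ⟨f, yf, xf⟩ := exists_dual hB (z := y) (y := x) (fun h => by
    obtain ⟨c, hc⟩ := Submodule.mem_span_singleton.1 h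
    simpa using (hl 1 (-c) (by rw [← hc]; module)).1)
  obtain ⟨g, xg, yg⟩ := exists_dual hB (z := x) (y := y) (fun h => by
    obtain ⟨c, hc⟩ := Submodule.mem_span_singleton.1 h
    simpa using (hl (-c) 1 (by rw [← hc]; module)).2)
  obtain ⟨f₁, xf1, yf1, ff1⟩ : ∃ f₁, B x f₁ = 1 ∧ B y f₁ = 0 ∧ B f₁ f₁ = 0 :=
    ⟨f - (B f f / 2) • x, by simp [xf, xx], by simp [yf, s y x, xy], by
      simp [s f x, xf, xx]; ring⟩
  obtain ⟨g', xg', yg', fg'⟩ : ∃ g', B x g' = 0 ∧ B y g' = 1 ∧ B f₁ g' = 0 :=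
    ⟨g - B f₁ g • x, by simp [xg, xx], by simp [yg, s y x, xy], by simp [s f₁ x, xf1]⟩
  exact ⟨x, f₁, y, g' - (B g' g' / 2) • y, trivial, trivial, trivial, trivial, xx, ff1, yy,
    by simp [s g' y, yg', yy]; ring, xf1, by simp [yg', yy], xy, by simp [xg', xy],
    by rw [s, yf1], by simp [fg', s f₁ y, yf1]⟩

theorem exists_frame (hB : QS B) :
    ∃ (Λ : Submodule ℤ V) (e₁ f₁ e₂ f₂ : V) (k : ℕ) (u : Fin k → V), Lat B Λ ∧
      Frame B Λ e₁ f₁ e₂ f₂ ∧ Compl B Λ e₁ f₁ e₂ f₂ u ∧ Submodule.span ℚ (Λ : Set V) = ⊤ := by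
  obtain ⟨e₁, f₁, e₂, f₂, -, -, -, -, a1, a2, a3, a4, a5, a6, a7, a8, a9, a10⟩ := FrameEx_pairs hB
  have s := hB.symm
  have := hB.fin
  let W : Submodule ℚ V :=
    { carrier := {v | Perp B e₁ f₁ e₂ f₂ v}
      add_mem' := fun ha hb => by
        obtain ⟨h1, h2, h3, h4⟩ := ha; obtain ⟨k1, k2, k3, k4⟩ := hb
        simp [Perp, *]
      zero_mem' := by simp [Perp]
      smul_mem' := fun c _ ha => by
        obtain ⟨h1, h2, h3, h4⟩ := ha
        simp [Perp, *] }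
  have hp : ∀ v, v - B f₁ v • e₁ - B e₁ v • f₁ - B f₂ v • e₂ - B e₂ v • f₂ ∈ W := fun v => by
    refine ⟨?_, ?_, ?_, ?_⟩ <;>
      simp [s f₁ e₁, s e₂ e₁, s f₂ e₁, s e₂ f₁, s f₂ f₁, s f₂ e₂, *]
  obtain ⟨b, hb⟩ := LinearMap.BilinForm.exists_orthogonal_basis (B := B.restrict W)
    ⟨fun x y => s x y⟩
  have hb' : ∀ i j, i ≠ j → B (b i) (b j) = 0 := hb
  have hz : ∀ x ∈ W, (∀ j, B (b j) x = 0) → x = 0 := by
    intro x hx h
    have k1 : B x ∘ₗ W.subtype = 0 := b.ext fun j => by simpa [s x] using h j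
    refine hB.nondeg x fun v => ?_
    have k2 : B x _ = 0 := congrArg (fun g => g ⟨_, hp v⟩) k1
    obtain ⟨h1, h2, h3, h4⟩ := hx
    simpa [s x e₁, s x f₁, s x e₂, s x f₂, h1, h2, h3, h4] using k2
  have han : ∀ j, B (b j) (b j) ≠ 0 := fun j h => b.ne_zero j (Subtype.ext (hz _ (b j).2 fun i => by
    by_cases e : i = j
    · rw [e, h]
    · exact hb' i j e))
  let c : Fin (Module.finrank ℚ W) → ℚ := fun j => 2 * (B (b j) (b j)).den
  have hc : ∀ j, c j ≠ 0 := fun j => by simp [c]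
  let u : Fin (Module.finrank ℚ W) → V := fun j => c j • (b j : V)
  have up : ∀ j, Perp B e₁ f₁ e₂ f₂ (u j) := fun j => W.smul_mem _ (b j).2
  have uo : ∀ i j, i ≠ j → B (u i) (u j) = 0 := fun i j h => by simp [u, hb' i j h]
  have ue : ∀ j, ∃ k : ℤ, B (u j) (u j) = 2 * k := fun j => by
    refine ⟨2 * (B (b j) (b j)).den * (B (b j) (b j)).num, ?_⟩
    simp only [u, c, map_smul, LinearMap.smul_apply, smul_eq_mul]
    push_cast
    rw [← Rat.mul_den_eq_num]; ring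
  let S : Set V := {e₁, f₁, e₂, f₂} ∪ Set.range u
  have mS : ∀ x ∈ S, x ∈ Submodule.span ℤ S := fun x hx => Submodule.subset_span hx
  have m1 := mS e₁ (by simp [S])
  have m2 := mS f₁ (by simp [S])
  have m3 := mS e₂ (by simp [S])
  have m4 := mS f₂ (by simp [S])
  have m5 := fun j => mS (u j) (by simp [S])
  refine ⟨Submodule.span ℤ S, e₁, f₁, e₂, f₂, _, u, FrameEx_lat s
    ((Set.toFinite _).union (Set.finite_range u)) ?_ ?_,
    ⟨m1, m2, m3, m4, a1, a2, a3, a4, a5, a6, a7, a8, a9, a10⟩,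
    ⟨?_, m5, up, uo, fun j => by simp [u, hc j, han j], fun x hx h => hz x hx fun j => by
      simpa [u, hc j] using h j⟩, ?_⟩
  · have k0 : ∀ q : ℚ, q = 0 → ∃ k : ℤ, q = k := fun q h => ⟨0, by simp [h]⟩
    have k1 : ∀ q : ℚ, q = 1 → ∃ k : ℤ, q = k := fun q h => ⟨1, by simp [h]⟩
    have k2 : ∀ x ∈ ({e₁, f₁, e₂, f₂} : Set V), ∀ j, B x (u j) = 0 := by
      rintro x (rfl | rfl | rfl | rfl) j
      exacts [(up j).1, (up j).2.1, (up j).2.2.1, (up j).2.2.2]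
    rintro x (hx | ⟨i, rfl⟩) y (hy | ⟨j, rfl⟩)
    · rcases hx with rfl | rfl | rfl | rfl <;> rcases hy with rfl | rfl | rfl | rfl <;>
        first
        | exact k0 _ ‹_›
        | exact k1 _ ‹_›
        | exact k0 _ ((s _ _).trans ‹_›)
        | exact k1 _ ((s _ _).trans ‹_›)
    · exact k0 _ (k2 x hx j)
    · exact k0 _ ((s _ _).trans (k2 y hy i))
    · by_cases e : i = j
      · obtain ⟨k, hk⟩ := ue j
        exact ⟨2 * k, by rw [e, hk]; push_cast; ring⟩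
      · exact k0 _ (uo i j e)
  · rintro x ((rfl | rfl | rfl | rfl) | ⟨j, rfl⟩)
    exacts [⟨0, by simp [a1]⟩, ⟨0, by simp [a2]⟩, ⟨0, by simp [a3]⟩, ⟨0, by simp [a4]⟩, ue j]
  · obtain ⟨w, h1, h2⟩ := exists_perp_not_mem hB ![e₁, f₁, e₂, f₂] (Fin.elim0 : Fin 0 → V)
      (by have := hB.five; omega)
    refine Module.finrank_pos_iff_exists_ne_zero.2 ⟨⟨w, h1 0, h1 1, h1 2, h1 3⟩, fun h => h2 ?_⟩
    rw [show w = 0 from congrArg Subtype.val h]
    exact Submodule.zero_mem _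
  · set T := Submodule.span ℚ ((Submodule.span ℤ S : Submodule ℤ V) : Set V)
    have mT : ∀ x ∈ Submodule.span ℤ S, x ∈ T := fun x hx => Submodule.subset_span hx
    have hW : ∀ w : W, (w : V) ∈ T := fun w => by
      rw [← b.sum_repr w]
      simp only [AddSubmonoidClass.coe_finsetSum, Submodule.coe_smul]
      exact T.sum_mem fun j _ => T.smul_mem _ ((T.smul_mem_iff (hc j)).1 (mT _ (m5 j)))
    refine eq_top_iff.2 fun v _ => ?_
    have := T.add_mem (T.add_mem (T.add_mem (T.add_mem (hW ⟨_, hp v⟩)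
      (T.smul_mem (B e₂ v) (mT _ m4))) (T.smul_mem (B f₂ v) (mT _ m3)))
      (T.smul_mem (B e₁ v) (mT _ m2))) (T.smul_mem (B f₁ v) (mT _ m1))
    simpa using this

end Pool.Agent.P.MP_d483fb_an
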