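import Pool.Agent.P.MP_d483fb_an.Fixed
import Pool.Agent.P.MP_d483fb_an.Bochner
import Pool.Agent.P.MP_d483fb_an.AbRep

set_option autoImplicit false

namespace Pool.Agent.P.MP_d483fb_an

open scoped Manifold ContDiff

variable {m : ℕ} {M : Type} [TopologicalSpace M] [T2Space M] [CompactSpace M] [ConnectedSpace M]
  [ChartedSpace (EuclideanSpace ℝ (Fin m)) M] [IsManifold (𝓡 m) ∞ M]

/-- A subgroup of small index of a finite `ℓ`-group has a representation of dimension `m` whose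
kernel acts trivially. -/
theorem exists_rep {ℓ : ℕ} (hℓ : ℓ.Prime) {P : Type} [Group P] [Finite P] (hP : IsPGroup ℓ P)
    (α : P →* Equiv.Perm M) (hα : ∀ g, ContMDiff (𝓡 m) (𝓡 m) ∞ (α g)) (hχ : eulerChar M ≠ 0) :
    ∃ H : Subgroup P, H.index ∣ ℓ ^ padicValInt ℓ (eulerChar M) ∧
      ∃ ρ : H →* Matrix (Fin m) (Fin m) ℝ, ∀ g : H, ρ g = 1 → α g = 1 := by
  obtain ⟨H, hH, x, hx⟩ := exists_fixed hℓ hP α hα hχ
  obtain ⟨ρ, hρ⟩ := exists_tangent_rep (α.comp H.subtype) (fun g => hα g) x fun g => hx g g.2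
  exact ⟨H, hH, ρ, hρ⟩

/-- The order of an abelian `ℓ`-group acting on `M` is bounded in terms of the kernel. -/
theorem card_sq_le {ℓ s : ℕ} (hℓ : ℓ.Prime) (he : 3 ≤ ℓ ^ s) {A : Type} [CommGroup A] [Finite A]
    (hA : ∀ a : A, a ^ ℓ ^ s = 1) (α : A →* Equiv.Perm M)
    (hα : ∀ g, ContMDiff (𝓡 m) (𝓡 m) ∞ (α g)) (hχ : eulerChar M ≠ 0) :
    Nat.card A ^ 2 ≤ (ℓ ^ s) ^ m * (ℓ ^ padicValInt ℓ (eulerChar M) * Nat.card α.ker) ^ 2 := by
  obtain ⟨H, hH, ρ, hρ⟩ := exists_rep hℓ (fun a => ⟨s, hA a⟩) α hα hχ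
  have h1 := index_ker_sq_le hℓ he (A := H) (fun a => Subtype.ext (hA a)) ρ
  have h2 : H.index ≤ ℓ ^ padicValInt ℓ (eulerChar M) := Nat.le_of_dvd (pow_pos hℓ.pos _) hH
  have h3 : Nat.card ρ.ker ≤ Nat.card α.ker := by
    refine Nat.card_le_card_of_injective (fun g : ρ.ker => (⟨g.1.1, hρ g.1 g.2⟩ : α.ker)) ?_
    intro a b h
    have h' := congrArg Subtype.val h
    exact Subtype.ext (Subtype.ext h')
  calc Nat.card A ^ 2 = ρ.ker.index ^ 2 * (H.index * Nat.card ρ.ker) ^ 2 := by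
        rw [← H.index_mul_card, ← ρ.ker.index_mul_card]; ring
    _ ≤ _ := by gcongr

end Pool.Agent.P.MP_d483fb_an
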