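import Pool.Agent.P.MP_d483fb_an.Eich

set_option autoImplicit false

namespace Pool.Agent.P.MP_d483fb_an

variable {V : Type} [AddCommGroup V] [Module ℚ V] {B : LinearMap.BilinForm ℚ V}
  {Λ : Submodule ℤ V} {e₁ f₁ e₂ f₂ : V}

/-- The directions `u` such that `N` contains a multiple of the Eichler transformation. -/
def spreadY (hB : QS B) (N : Subgroup (V ≃ₗ[ℚ] V)) {z : V} (hz : B z z = 0) : Submodule ℚ V where
  carrier := {u | B z u = 0 ∧ ∃ m : ℕ, 0 < m ∧ eich B z ((m : ℚ) • u) ∈ N}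
  zero_mem' := ⟨by simp, 1, one_pos, by rw [smul_zero, eich_zero_right]; exact N.one_mem⟩
  add_mem' := by
    rintro u v ⟨hu, m, hm, h1⟩ ⟨hv, n, hn, h2⟩
    refine ⟨by simp [hu, hv], m * n, Nat.mul_pos hm hn, ?_⟩
    have e : ((m * n : ℕ) : ℚ) • (u + v) = (n : ℚ) • (m : ℚ) • u + (m : ℚ) • (n : ℚ) • v := by
      push_cast
      module
    rw [e, eich_add hB.symm hz (by simp [hu]) (by simp [hv]),
      eich_natCast_smul hB.symm hz (u := (m : ℚ) • u) (by simp [hu]) n,
      eich_natCast_smul hB.symm hz (u := (n : ℚ) • v) (by simp [hv]) m]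
    exact N.mul_mem (N.pow_mem h1 _) (N.pow_mem h2 _)
  smul_mem' := by
    rintro c u ⟨hu, m, hm, h1⟩
    refine ⟨by simp [hu], m * c.den, Nat.mul_pos hm c.den_pos, ?_⟩
    have e : ((m * c.den : ℕ) : ℚ) • c • u = (c.num : ℚ) • (m : ℚ) • u := by
      rw [smul_smul, smul_smul, ← Rat.mul_den_eq_num c]
      push_cast
      ring_nf
    rw [e, eich_intCast_smul hB.symm hz (by simp [hu])]
    exact N.zpow_mem h1 _

theorem spread_op (hB : QS B) {Γ N : Subgroup (V ≃ₗ[ℚ] V)} (hΓ : Ample B Γ) (hN : Nrm Γ N)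
    {z e w y : V} (hz : B z z = 0) (he : B e e = 0) (hze : B z e = 0) (hzw : B z w = 0)
    (hew : B e w = 0) (hy : y ∈ spreadY hB N hz) : B e y • w - B w y • e ∈ spreadY hB N hz := by
  have st : ∀ γ ∈ Γ, γ z = z → γ y ∈ spreadY hB N hz := by
    intro γ hγ h
    obtain ⟨h1, m, hm, h2⟩ := hy
    have hO := hΓ.1 hγ
    refine ⟨by rw [← h, hO, h1], m, hm, ?_⟩
    have := hN γ hγ _ h2
    rwa [eich_conj hB.symm hO hz (by simp [h1]), h, map_smul] at this
  obtain ⟨k, hk, h⟩ := hΓ.2 e he w hew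
  have hkw : B e ((k : ℚ) • w) = 0 := by simp [hew]
  have hez : B e z = 0 := by rw [hB.symm, hze]
  have hwz : B w z = 0 := by rw [hB.symm, hzw]
  have h' : eich B e (-((k : ℚ) • w)) ∈ Γ := by
    rw [eich_neg hB.symm he hkw]
    exact Γ.inv_mem h
  have a1 := st _ h (eich_fix hB.symm he hkw hez (by simp [hwz]))
  have a2 := st _ h' (eich_fix hB.symm he (by simp [hew]) hez (by simp [hwz]))
  have a3 := (spreadY hB N hz).smul_mem (2 * (k : ℚ))⁻¹ ((spreadY hB N hz).sub_mem a1 a2)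
  have hk' : (k : ℚ) ≠ 0 := by positivity
  convert a3 using 1
  rw [eich_apply hB.symm he hkw, eich_apply hB.symm he (by simp [hew])]
  simp only [map_neg, map_smul, LinearMap.neg_apply, LinearMap.smul_apply, smul_eq_mul]
  match_scalars <;> field_simp <;> ring

theorem spread_iso (hB : QS B) (z : V) :
    ∃ e, B e e = 0 ∧ B z e = 0 ∧ e ∉ Submodule.span ℚ {z} := by
  obtain ⟨x, y, hl, hx, hxy, hy⟩ := hB.plane
  have hyx : B y x = 0 := by rw [hB.symm, hxy]
  rw [LinearIndependent.pair_iff] at hl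
  by_cases h : B z x = 0 ∧ B z y = 0
  · by_cases h1 : x ∈ Submodule.span ℚ {z}
    · refine ⟨y, hy, h.2, fun h2 => ?_⟩
      obtain ⟨a, rfl⟩ := Submodule.mem_span_singleton.1 h1
      obtain ⟨b, rfl⟩ := Submodule.mem_span_singleton.1 h2
      obtain ⟨rfl, h4⟩ := hl b (-a) (by module)
      simpa using (hl 0 1 (by simp)).2
    · exact ⟨x, hx, h.1, h1⟩
  · refine ⟨B z y • x - B z x • y, by simp [hx, hxy, hyx, hy], by simp [mul_comm], fun h1 => h ?_⟩
    obtain ⟨a, ha⟩ := Submodule.mem_span_singleton.1 h1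
    by_cases h0 : a = 0
    · obtain ⟨h2, h3⟩ := hl (B z y) (-B z x) (by rw [neg_smul, ← sub_eq_add_neg, ← ha, h0, zero_smul])
      exact ⟨neg_eq_zero.1 h3, h2⟩
    · have a1 := congrArg (fun v => B v x) ha
      have a2 := congrArg (fun v => B v y) ha
      simp only [map_sub, map_smul, LinearMap.sub_apply, LinearMap.smul_apply, smul_eq_mul, hx,
        hxy, hyx, hy, mul_zero, sub_zero, mul_eq_zero, h0, false_or] at a1 a2
      exact ⟨a1, a2⟩

theorem spread_proj (hB : QS B) {z e f u : V} (he : B e e = 0) (hf : B f f = 0) (hef : B e f = 1)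
    (hze : B z e = 0) (hzf : B z f = 0) (hu : u ∉ Submodule.span ℚ {z}) (heu : B e u = 0)
    (hfu : B f u = 0) : ∃ x, B z x = 0 ∧ B e x = 0 ∧ B f x = 0 ∧ B u x = 1 := by
  obtain ⟨x, h1, h2⟩ := exists_dual hB hu
  have hfe : B f e = 1 := by rw [hB.symm, hef]
  have hue : B u e = 0 := by rw [hB.symm, heu]
  have huf : B u f = 0 := by rw [hB.symm, hfu]
  exact ⟨x - B f x • e - B e x • f, by simp [h1, hze, hzf], by simp [he, hef], by simp [hf, hfe],
    by simp [h2, hue, huf]⟩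

theorem spread_all (hB : QS B) {Γ N : Subgroup (V ≃ₗ[ℚ] V)} (hΓ : Ample B Γ) (hN : Nrm Γ N)
    {z e f w : V} (hz : B z z = 0) (he : B e e = 0) (hf : B f f = 0) (hef : B e f = 1)
    (hze : B z e = 0) (hzf : B z f = 0) (hzw : B z w = 0) (hew : B e w = 0) (hfw : B f w = 0)
    (hw : B w w ≠ 0) (h : e ∈ spreadY hB N hz) : Good B N z := by
  have hfe : B f e = 1 := by rw [hB.symm, hef]
  have a1 : ∀ x, B z x = 0 → B e x = 0 → B f x = 0 → x ∈ spreadY hB N hz := by
    intro x h1 h2 h3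
    have := spread_op hB hΓ hN hz hf hzf h1 h3 h
    rwa [hfe, hB.symm x e, h2, one_smul, zero_smul, sub_zero] at this
  have a2 : f ∈ spreadY hB N hz := by
    have := spread_op hB hΓ hN hz hf hzf hzw hfw (a1 w hzw hew hfw)
    rw [hfw, zero_smul, zero_sub] at this
    exact (Submodule.smul_mem_iff _ hw).1 ((Submodule.neg_mem_iff _).1 this)
  intro u hu
  have a3 := a1 (u - B f u • e - B e u • f) (by simp [hu, hze, hzf]) (by simp [he, hef])
    (by simp [hf, hfe])
  have a4 := Submodule.add_mem _ (Submodule.add_mem _ a3 (Submodule.smul_mem _ (B e u) a2))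
    (Submodule.smul_mem _ (B f u) h)
  rw [sub_add_cancel, sub_add_cancel] at a4
  exact a4.2

theorem spread_twice (hB : QS B) {Γ N : Subgroup (V ≃ₗ[ℚ] V)} (hΓ : Ample B Γ) (hN : Nrm Γ N)
    {z e w y : V} (hz : B z z = 0) (he : B e e = 0) (hze : B z e = 0) (hzw : B z w = 0)
    (hew : B e w = 0) (hw : B w w ≠ 0) (hy : y ∈ spreadY hB N hz) (hey : B e y ≠ 0) :
    e ∈ spreadY hB N hz := by
  have := spread_op hB hΓ hN hz he hze hzw hew (spread_op hB hΓ hN hz he hze hzw hew hy)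
  simp only [map_sub, map_smul, smul_eq_mul, hew, he, hB.symm w e, mul_zero, sub_zero, zero_smul,
    zero_sub] at this
  exact (Submodule.smul_mem_iff _ (mul_ne_zero hey hw)).1 ((Submodule.neg_mem_iff _).1 this)

theorem good_of_eich_mem (hB : QS B) {Γ N : Subgroup (V ≃ₗ[ℚ] V)} (hΓ : Ample B Γ) (hN : Nrm Γ N)
    {z y : V} (hz0 : z ≠ 0) (hz : B z z = 0) (hy : B z y = 0) (hy' : y ∉ Submodule.span ℚ {z})
    (h : eich B z y ∈ N) : Good B N z := by
  have hY : y ∈ spreadY hB N hz := ⟨hy, 1, one_pos, by simpa using h⟩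
  obtain ⟨e, he, hze, he'⟩ := spread_iso hB z
  obtain ⟨f, hf, hzf, hef⟩ : ∃ f, B f f = 0 ∧ B z f = 0 ∧ B e f = 1 := by
    obtain ⟨x, h1, h2⟩ := exists_dual hB he'
    refine ⟨x - (B x x / 2) • e, ?_, by simp [h1, hze], by simp [h2, he]⟩
    simp only [map_sub, map_smul, LinearMap.sub_apply, LinearMap.smul_apply, smul_eq_mul, he, h2,
      hB.symm x e]
    ring
  have hfe : B f e = 1 := by rw [hB.symm, hef]
  obtain ⟨w, hzw, hew, hfw, hw⟩ : ∃ w, B z w = 0 ∧ B e w = 0 ∧ B f w = 0 ∧ B w w ≠ 0 := by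
    obtain ⟨u, h1, h2⟩ := exists_perp_not_mem hB ![z, e, f] ![z] (by have := hB.five; omega)
    have h2' : u ∉ Submodule.span ℚ {z} := by simpa using h2
    have b0 : B z u = 0 := h1 0
    have b1 : B e u = 0 := h1 1
    have b2 : B f u = 0 := h1 2
    obtain ⟨x, c0, c1, c2, c3⟩ := spread_proj hB he hf hef hze hzf h2' b1 b2
    by_cases hu : B u u = 0
    · by_cases hx : B x x = 0
      · refine ⟨u + x, by simp [b0, c0], by simp [b1, c1], by simp [b2, c2], ?_⟩
        simp only [map_add, LinearMap.add_apply, hu, hx, hB.symm x u, c3]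
        norm_num
      · exact ⟨x, c0, c1, c2, hx⟩
    · exact ⟨u, b0, b1, b2, hu⟩
  by_cases h1 : B e y = 0
  · by_cases h2 : B f y = 0
    · obtain ⟨x, c0, c1, c2, c3⟩ := spread_proj hB he hf hef hze hzf hy' h1 h2
      have := spread_op hB hΓ hN hz he hze c0 c1 hY
      rw [h1, hB.symm x y, c3, zero_smul, one_smul, zero_sub] at this
      exact spread_all hB hΓ hN hz he hf hef hze hzf hzw hew hfw hw
        ((Submodule.neg_mem_iff _).1 this)
    · exact spread_all hB hΓ hN hz hf he hfe hzf hze hzw hfw hew hw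
        (spread_twice hB hΓ hN hz hf hzf hzw hfw hw hY h2)
  · exact spread_all hB hΓ hN hz he hf hef hze hzf hzw hew hfw hw
      (spread_twice hB hΓ hN hz he hze hzw hew hw hY h1)

theorem spread_step (hB : QS B) {Γ N : Subgroup (V ≃ₗ[ℚ] V)} (hΓ : Ample B Γ) (hN : Nrm Γ N)
    {z : V} (hz0 : z ≠ 0) (hz : B z z = 0) (h : Good B N z) (w : V) (hw : B w w = 0)
    (hzw : B z w = 0) : Good B N w := by
  by_cases h1 : w ∈ Submodule.span ℚ {z}
  · obtain ⟨c, rfl⟩ := Submodule.mem_span_singleton.1 h1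
    intro u hu
    by_cases hc : c = 0
    · exact ⟨1, one_pos, by rw [hc, zero_smul, eich_zero_left]; exact N.one_mem⟩
    · have hu' : B z u = 0 := by simpa [hc] using hu
      obtain ⟨m, hm, h2⟩ := h (c • u) (by simp [hu'])
      refine ⟨m, hm, ?_⟩
      rwa [eich_smul_left hB.symm hz (by simp [hu']), smul_comm]
  · obtain ⟨m, hm, h2⟩ := h w hzw
    have hm' : (m : ℚ) ≠ 0 := by positivity
    have hw0 : w ≠ 0 := fun h0 => h1 (h0 ▸ Submodule.zero_mem _)
    rw [← eich_smul_left hB.symm hz hzw,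
      eich_swap hB.symm (by simp [hz]) (by simp [hzw]) hw] at h2
    refine good_of_eich_mem hB hΓ hN hw0 hw (by simp [hB.symm w z, hzw]) (fun h3 => h1 ?_) h2
    obtain ⟨c, hc⟩ := Submodule.mem_span_singleton.1 h3
    have hc0 : c ≠ 0 := by
      rintro rfl
      simp [hm', hz0] at hc
    refine Submodule.mem_span_singleton.2 ⟨-(c⁻¹ * m), ?_⟩
    rw [neg_smul, mul_smul, ← smul_neg, ← hc, smul_smul, inv_mul_cancel₀ hc0, one_smul]

theorem good_all (hB : QS B) {Γ N : Subgroup (V ≃ₗ[ℚ] V)} (hΓ : Ample B Γ) (hN : Nrm Γ N)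
    {z : V} (hz0 : z ≠ 0) (hz : B z z = 0) (h : Good B N z) (w : V) (hw : B w w = 0) :
    Good B N w := by
  by_cases h1 : B z w = 0
  · exact spread_step hB hΓ hN hz0 hz h w hw h1
  · obtain ⟨e, he, hze, he'⟩ := spread_iso hB z
    have a0 : e - (B e w / B z w) • z ≠ 0 := fun h0 => he' (by
      rw [sub_eq_zero.1 h0]
      exact Submodule.smul_mem _ _ (Submodule.mem_span_singleton_self z))
    have a1 : B (e - (B e w / B z w) • z) (e - (B e w / B z w) • z) = 0 := by
      simp [he, hz, hze, hB.symm e z]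
    refine spread_step hB hΓ hN a0 a1
      (spread_step hB hΓ hN hz0 hz h _ a1 (by simp [hze, hz])) w hw ?_
    simp only [map_sub, map_smul, LinearMap.sub_apply, LinearMap.smul_apply, smul_eq_mul]
    field_simp
    ring

end Pool.Agent.P.MP_d483fb_an
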