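import Pool.Agent.P.MP_d483fb_an.First
import Pool.Agent.P.MP_d483fb_an.Spread
import Pool.Agent.P.MP_d483fb_an.FI
import Pool.Agent.P.MP_d483fb_an.FrameEx

set_option autoImplicit false

namespace Pool.Agent.P.MP_d483fb_an

variable {V : Type} [AddCommGroup V] [Module ℚ V] {B : LinearMap.BilinForm ℚ V}
  {Λ : Submodule ℤ V} {e₁ f₁ e₂ f₂ : V}

/-- Finitely many right coset representatives. -/
theorem NST_reps {G : Type} [Group G] {H K : Subgroup G} (h : H.relIndex K ≠ 0) :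
    ∃ T : Set G, T.Finite ∧ (∀ t ∈ T, t ∈ K) ∧ ∀ g ∈ K, ∃ t ∈ T, ∃ γ ∈ H, g = γ * t := by
  have : (H.subgroupOf K).FiniteIndex := ⟨h⟩
  refine ⟨Set.range fun q : K ⧸ H.subgroupOf K => ((q.out : K) : G)⁻¹, Set.finite_range _, ?_, ?_⟩
  · rintro _ ⟨q, rfl⟩
    exact K.inv_mem q.out.2
  · intro g hg
    let q : K ⧸ H.subgroupOf K := QuotientGroup.mk ⟨g⁻¹, K.inv_mem hg⟩
    have h1 : (QuotientGroup.mk (⟨g⁻¹, K.inv_mem hg⟩ : K) : K ⧸ H.subgroupOf K) =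
        QuotientGroup.mk q.out := (QuotientGroup.out_eq' q).symm
    rw [QuotientGroup.eq, Subgroup.mem_subgroupOf] at h1
    refine ⟨_, ⟨q, rfl⟩, g * (q.out : K), ?_, by simp⟩
    simpa using h1

theorem NST_mul_level (hB : ∀ x y, B x y = B y x) {N : Subgroup (V ≃ₗ[ℚ] V)} {z u : V}
    (hz : B z z = 0) (hu : B z u = 0) {m : ℕ} (h : eich B z ((m : ℚ) • u) ∈ N) (k : ℕ) :
    eich B z (((k * m : ℕ) : ℚ) • u) ∈ N := by
  rw [Nat.cast_mul, mul_smul, eich_natCast_smul hB hz (by simp [hu])]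
  exact N.pow_mem h k

/-- A uniform level on a finitely generated group of vectors orthogonal to `z`. -/
theorem NST_level_fg (hB : ∀ x y, B x y = B y x) {N : Subgroup (V ≃ₗ[ℚ] V)} {z : V}
    (hz : B z z = 0) (hg : Good B N z) {M : Submodule ℤ V} (hM : M.FG) :
    (∀ u ∈ M, B z u = 0) → ∃ m : ℕ, 0 < m ∧ ∀ u ∈ M, eich B z ((m : ℚ) • u) ∈ N := by
  induction M, hM using Submodule.fg_induction with
  | singleton x =>
    intro h
    have hx := h x (Submodule.mem_span_singleton_self x)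
    obtain ⟨m, hm, hx'⟩ := hg x hx
    refine ⟨m, hm, fun u hu => ?_⟩
    obtain ⟨k, rfl⟩ := Submodule.mem_span_singleton.1 hu
    rw [← Int.cast_smul_eq_zsmul ℚ, smul_comm, eich_intCast_smul hB hz (by simp [hx])]
    exact N.zpow_mem hx' k
  | sup M₁ M₂ _ _ ih₁ ih₂ =>
    intro h
    obtain ⟨m₁, hm₁, h₁⟩ := ih₁ fun u hu => h u (Submodule.mem_sup_left hu)
    obtain ⟨m₂, hm₂, h₂⟩ := ih₂ fun u hu => h u (Submodule.mem_sup_right hu)
    refine ⟨m₁ * m₂, Nat.mul_pos hm₁ hm₂, fun u hu => ?_⟩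
    obtain ⟨a, ha, b, hb, rfl⟩ := Submodule.mem_sup.1 hu
    have ha' := h a (Submodule.mem_sup_left ha)
    have hb' := h b (Submodule.mem_sup_right hb)
    rw [smul_add, eich_add hB hz (by simp [ha']) (by simp [hb'])]
    refine N.mul_mem ?_ (NST_mul_level hB hz hb' (h₂ b hb) m₁)
    rw [mul_comm]
    exact NST_mul_level hB hz ha' (h₁ a ha) m₂

theorem NST_level (hΛ : Lat B Λ) {N : Subgroup (V ≃ₗ[ℚ] V)} {z : V}
    (hz : B z z = 0) (hg : Good B N z) : ∃ m : ℕ, 0 < m ∧ Lvl B Λ m N z := by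
  have hn : IsNoetherian ℤ Λ := isNoetherian_of_fg_of_noetherian Λ hΛ.fg
  have hfg : (Λ ⊓ (LinearMap.ker (B z)).restrictScalars ℤ).FG :=
    isNoetherian_submodule.1 hn _ inf_le_left
  obtain ⟨m, hm, h⟩ := NST_level_fg hΛ.symm hz hg hfg fun u hu => hu.2
  exact ⟨m, hm, fun u hu hu' => h u ⟨hu, hu'⟩⟩

theorem NST_level_finite (hΛ : Lat B Λ) {N : Subgroup (V ≃ₗ[ℚ] V)}
    (hg : ∀ z, B z z = 0 → Good B N z) {S : Set V} (hS : S.Finite) :
    (∀ z ∈ S, B z z = 0) → ∃ m : ℕ, 0 < m ∧ ∀ z ∈ S, Lvl B Λ m N z := by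
  induction S, hS using Set.Finite.induction_on with
  | empty => exact fun _ => ⟨1, one_pos, fun z hz => hz.elim⟩
  | @insert a S _ _ ih =>
    intro h
    obtain ⟨m₁, hm₁, h₁⟩ := ih fun z hz => h z (Set.mem_insert_of_mem _ hz)
    have ha := h a (Set.mem_insert _ _)
    obtain ⟨m₂, hm₂, h₂⟩ := NST_level hΛ ha (hg a ha)
    refine ⟨m₁ * m₂, Nat.mul_pos hm₁ hm₂, fun z hz u hu hu' => ?_⟩
    rcases hz with rfl | hz
    · exact NST_mul_level hΛ.symm ha hu' (h₂ u hu hu') m₁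
    · rw [mul_comm]
      exact NST_mul_level hΛ.symm (h z (Set.mem_insert_of_mem _ hz)) hu' (h₁ z hz u hu hu') m₂

/-- The largest subgroup of `N` normalised by `G`. -/
def NST_core (G N : Subgroup (V ≃ₗ[ℚ] V)) : Subgroup (V ≃ₗ[ℚ] V) where
  carrier := {x | ∀ g ∈ G, g * x * g⁻¹ ∈ N}
  one_mem' := fun g _ => by simp
  mul_mem' := fun {a b} ha hb g hg => by
    have := N.mul_mem (ha g hg) (hb g hg)
    simpa [mul_assoc] using this
  inv_mem' := fun {a} ha g hg => by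
    have := N.inv_mem (ha g hg)
    simpa [mul_assoc] using this

/-- Normal subgroup theorem. -/
theorem nst (hB : QS B) {L : Submodule ℤ V} (hL : L.FG) (hL' : Submodule.span ℚ (L : Set V) = ⊤)
    {Γ N : Subgroup (V ≃ₗ[ℚ] V)} (hΓ : Γ ≤ OL B L) (hi : Γ.relIndex (OL B L) ≠ 0) (hN : Nrm Γ N)
    {d : V ≃ₗ[ℚ] V} (hd : d ∈ N) (hO : d ∈ OG B) (h1 : d ≠ 1) (h2 : d ≠ LinearEquiv.neg ℚ) :
    N.relIndex Γ ≠ 0 := by
  obtain ⟨Λ, e₁, f₁, e₂, f₂, k, u, hΛ, hF, hu, hΛ'⟩ := exists_frame hB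
  have hA : Ample B Γ := ample_of_relIndex hB.symm hL hL' hΓ hi
  obtain ⟨z, y, hz0, hz, hy, hy', hzy⟩ := exists_eich_mem hB hA hN hd hO h1 h2
  have hall : ∀ w, B w w = 0 → Good B N w :=
    good_all hB hA hN hz0 hz (good_of_eich_mem hB hA hN hz0 hz hy hy' hzy)
  have hi' : Γ.relIndex (OL B Λ) ≠ 0 :=
    Subgroup.relIndex_ne_zero_trans hi (OL_relIndex hL hL' hΛ.fg hΛ')
  obtain ⟨T, hT, hTO, hrep⟩ := NST_reps hi'
  have hiso : ∀ w ∈ ({e₁, f₁, e₂, f₂} : Set V), B w w = 0 := by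
    rintro w (rfl | rfl | rfl | rfl)
    exacts [hF.e₁e₁, hF.f₁f₁, hF.e₂e₂, hF.f₂f₂]
  have hS : (Set.image2 (fun (t : V ≃ₗ[ℚ] V) (w : V) => t w) T {e₁, f₁, e₂, f₂}).Finite :=
    hT.image2 _ (Set.toFinite _)
  obtain ⟨m, hm, hlv⟩ := NST_level_finite hΛ hall hS (by
    rintro _ ⟨t, ht, w, hw, rfl⟩
    exact ((hTO t ht).1 w w).trans (hiso w hw))
  have hK : Nrm (OL B Λ) (NST_core (OL B Λ) N) := by
    intro γ hγ x hx g hg
    have := hx (g * γ) ((OL B Λ).mul_mem hg hγ)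
    simpa [mul_assoc] using this
  have hlK : ∀ w ∈ ({e₁, f₁, e₂, f₂} : Set V), Lvl B Λ m (NST_core (OL B Λ) N) w := by
    intro w hw v hv hv' g hg
    obtain ⟨t, ht, γ, hγ, rfl⟩ := hrep g hg
    have ht' := hTO t ht
    have h3 := hlv (t w) ⟨t, ht, w, hw, rfl⟩ (t v) ((ht'.2 v).2 hv) ((ht'.1 w v).trans hv')
    rw [← map_smul, ← eich_conj hB.symm ht'.1 (hiso w hw) (by simp [hv'])] at h3
    have := hN γ hγ _ h3
    simpa [mul_assoc] using this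
  have hfin := relIndex_of_lvl hΛ hF hu hm hK (hlK e₁ (by simp)) (hlK f₁ (by simp))
    (hlK e₂ (by simp)) (hlK f₂ (by simp))
  have hle : NST_core (OL B Λ) N ≤ N := fun x hx => by simpa using hx 1 (OL B Λ).one_mem
  have h4 : N.relIndex (OL B Λ) ≠ 0 := fun h =>
    hfin (Subgroup.relIndex_eq_zero_of_le_left hle h)
  have h5 : N.relIndex (OL B L) ≠ 0 :=
    Subgroup.relIndex_ne_zero_trans h4 (OL_relIndex hΛ.fg hΛ' hL hL')
  exact fun h => h5 (Subgroup.relIndex_eq_zero_of_le_right hΓ h)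

end Pool.Agent.P.MP_d483fb_an
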