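import Pool.Agent.P.MP_d483fb_an.NST

set_option autoImplicit false

namespace Pool.Agent.P.MP_d483fb_an

open scoped Matrix

/-- Integral vectors as rational vectors. -/
def NSTMat_c (n : ℕ) : (Fin n → ℤ) →ₗ[ℤ] (Fin n → ℚ) where
  toFun x i := (x i : ℚ)
  map_add' x y := by funext i; simp
  map_smul' a x := by funext i; simp

theorem NSTMat_c_apply {n : ℕ} (x : Fin n → ℤ) (i : Fin n) : NSTMat_c n x i = (x i : ℚ) := rfl

theorem NSTMat_c_inj {n : ℕ} : Function.Injective (NSTMat_c n) := fun x y h => by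
  funext i
  have := congrFun h i
  simpa [NSTMat_c_apply] using this

theorem NSTMat_c_mulVec {n : ℕ} (A : Matrix (Fin n) (Fin n) ℤ) (x : Fin n → ℤ) :
    A.map (Int.castRingHom ℚ) *ᵥ NSTMat_c n x = NSTMat_c n (A *ᵥ x) := by
  funext i
  simp [Matrix.mulVec, dotProduct, NSTMat_c_apply]

theorem NSTMat_c_dot {n : ℕ} (x y : Fin n → ℤ) :
    NSTMat_c n x ⬝ᵥ NSTMat_c n y = ((x ⬝ᵥ y : ℤ) : ℚ) := by
  simp [dotProduct, NSTMat_c_apply]

theorem NSTMat_c_single {n : ℕ} (i : Fin n) :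
    NSTMat_c n (Pi.single i 1) = Pi.single i 1 := by
  funext k
  by_cases h : k = i
  · subst h; simp [NSTMat_c_apply]
  · simp [NSTMat_c_apply, Pi.single_eq_of_ne h]

theorem NSTMat_map_inj {n : ℕ} {A A' : Matrix (Fin n) (Fin n) ℤ}
    (h : A.map (Int.castRingHom ℚ) = A'.map (Int.castRingHom ℚ)) : A = A' := by
  ext i k
  have := congrFun (congrFun h i) k
  simpa using this

/-- Integral invertible matrices as rational linear automorphisms. -/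
noncomputable def NSTMat_j (n : ℕ) : GL (Fin n) ℤ →* ((Fin n → ℚ) ≃ₗ[ℚ] (Fin n → ℚ)) :=
  (LinearMap.GeneralLinearGroup.generalLinearEquiv ℚ (Fin n → ℚ)).toMonoidHom.comp
    ((Matrix.GeneralLinearGroup.toLin (n := Fin n) (R := ℚ)).toMonoidHom.comp
      (Matrix.GeneralLinearGroup.map (Int.castRingHom ℚ)))

theorem NSTMat_j_apply {n : ℕ} (g : GL (Fin n) ℤ) (x : Fin n → ℚ) :
    NSTMat_j n g x = (g : Matrix (Fin n) (Fin n) ℤ).map (Int.castRingHom ℚ) *ᵥ x := rfl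

theorem NSTMat_ext {n : ℕ} {A A' : Matrix (Fin n) (Fin n) ℚ} (h : ∀ x, A *ᵥ x = A' *ᵥ x) :
    A = A' := by
  ext i k
  have := congrFun (h (Pi.single k 1)) i
  simpa using this

theorem NSTMat_j_inj {n : ℕ} : Function.Injective (NSTMat_j n) := fun g g' h => by
  apply Units.ext
  apply NSTMat_map_inj
  apply NSTMat_ext
  intro x
  rw [← NSTMat_j_apply, ← NSTMat_j_apply, h]

/-- The bilinear form of an integral matrix. -/
noncomputable def NSTMat_B {n : ℕ} (Q : Matrix (Fin n) (Fin n) ℤ) :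
    LinearMap.BilinForm ℚ (Fin n → ℚ) :=
  Matrix.toBilin' (Q.map (Int.castRingHom ℚ))

theorem NSTMat_B_apply {n : ℕ} (Q : Matrix (Fin n) (Fin n) ℤ) (x y : Fin n → ℚ) :
    NSTMat_B Q x y = x ⬝ᵥ Q.map (Int.castRingHom ℚ) *ᵥ y := by
  rw [NSTMat_B, Matrix.toBilin'_apply']

theorem NSTMat_B_c {n : ℕ} (Q : Matrix (Fin n) (Fin n) ℤ) (x y : Fin n → ℤ) :
    NSTMat_B Q (NSTMat_c n x) (NSTMat_c n y) = ((x ⬝ᵥ Q *ᵥ y : ℤ) : ℚ) := by
  rw [NSTMat_B_apply, NSTMat_c_mulVec, NSTMat_c_dot]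

theorem NSTMat_B_j {n : ℕ} (Q : Matrix (Fin n) (Fin n) ℤ) (g : GL (Fin n) ℤ) (x y : Fin n → ℚ) :
    NSTMat_B Q (NSTMat_j n g x) (NSTMat_j n g y) =
      NSTMat_B ((g : Matrix (Fin n) (Fin n) ℤ)ᵀ * Q * (g : Matrix (Fin n) (Fin n) ℤ)) x y := by
  rw [NSTMat_B_apply, NSTMat_B_apply, NSTMat_j_apply, NSTMat_j_apply, Matrix.map_mul,
    Matrix.map_mul, Matrix.transpose_map, ← Matrix.mulVec_mulVec, ← Matrix.mulVec_mulVec,
    Matrix.dotProduct_mulVec x, Matrix.vecMul_transpose]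

theorem NSTMat_B_inj {n : ℕ} {Q Q' : Matrix (Fin n) (Fin n) ℤ}
    (h : ∀ x y, NSTMat_B Q x y = NSTMat_B Q' x y) : Q = Q' := by
  apply NSTMat_map_inj
  apply Matrix.toBilin'.injective
  exact LinearMap.ext fun x => LinearMap.ext fun y => h x y

theorem NSTMat_int {n : ℕ} (g : (Fin n → ℚ) →ₗ[ℚ] (Fin n → ℚ))
    (hg : ∀ x ∈ LinearMap.range (NSTMat_c n), g x ∈ LinearMap.range (NSTMat_c n)) :
    ∃ A : Matrix (Fin n) (Fin n) ℤ, ∀ x, A.map (Int.castRingHom ℚ) *ᵥ x = g x := by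
  have h : ∀ k : Fin n, ∃ y : Fin n → ℤ, NSTMat_c n y = g (Pi.single k 1) := fun k =>
    hg _ ⟨Pi.single k 1, NSTMat_c_single k⟩
  choose y hy using h
  refine ⟨Matrix.of fun i k => y k i, fun x => ?_⟩
  have hA : (Matrix.of fun i k => y k i).map (Int.castRingHom ℚ) = LinearMap.toMatrix' g := by
    ext i k
    rw [LinearMap.toMatrix'_apply, ← hy k]
    rfl
  rw [hA, LinearMap.toMatrix'_mulVec]

theorem NSTMat_map_orth {n : ℕ} (Q : Matrix (Fin n) (Fin n) ℤ) :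
    (orth Q).map (NSTMat_j n) = OL (NSTMat_B Q) (LinearMap.range (NSTMat_c n)) := by
  have key : ∀ (g : GL (Fin n) ℤ) (x : Fin n → ℚ), x ∈ LinearMap.range (NSTMat_c n) →
      NSTMat_j n g x ∈ LinearMap.range (NSTMat_c n) := by
    rintro g _ ⟨x, rfl⟩
    exact ⟨_, by rw [NSTMat_j_apply, NSTMat_c_mulVec]⟩
  apply le_antisymm
  · rintro _ ⟨g, hg, rfl⟩
    refine ⟨fun x y => ?_, fun x => ⟨fun hx => ?_, key g x⟩⟩
    · rw [NSTMat_B_j]
      have : (g : Matrix (Fin n) (Fin n) ℤ)ᵀ * Q * (g : Matrix (Fin n) (Fin n) ℤ) = Q := hg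
      rw [this]
    · have := key g⁻¹ _ hx
      rwa [← LinearEquiv.mul_apply, ← map_mul, inv_mul_cancel, map_one] at this
  · intro g hg
    obtain ⟨A, hA⟩ := NSTMat_int (g : (Fin n → ℚ) →ₗ[ℚ] (Fin n → ℚ)) fun x hx => (hg.2 x).2 hx
    obtain ⟨A', hA'⟩ := NSTMat_int (g.symm : (Fin n → ℚ) →ₗ[ℚ] (Fin n → ℚ)) fun x hx =>
      (hg.2 (g.symm x)).1 (by rwa [LinearEquiv.apply_symm_apply])
    have h1 : A * A' = 1 := by
      apply NSTMat_map_inj
      apply NSTMat_ext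
      intro x
      rw [Matrix.map_mul, ← Matrix.mulVec_mulVec, hA', hA, Matrix.map_one _ (map_zero _) (map_one _),
        Matrix.one_mulVec]
      exact g.apply_symm_apply x
    have h2 : A' * A = 1 := by
      apply NSTMat_map_inj
      apply NSTMat_ext
      intro x
      rw [Matrix.map_mul, ← Matrix.mulVec_mulVec, hA, hA', Matrix.map_one _ (map_zero _) (map_one _),
        Matrix.one_mulVec]
      exact g.symm_apply_apply x
    have hj : NSTMat_j n ⟨A, A', h1, h2⟩ = g := LinearEquiv.ext fun x => by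
      rw [NSTMat_j_apply]; exact hA x
    refine ⟨⟨A, A', h1, h2⟩, ?_, hj⟩
    change Aᵀ * Q * A = Q
    apply NSTMat_B_inj
    intro x y
    have := NSTMat_B_j Q ⟨A, A', h1, h2⟩ x y
    rw [hj] at this
    rw [← hg.1 x y, this]

theorem NSTMat_QS {n : ℕ} (hn : 5 ≤ n) {Q : Matrix (Fin n) (Fin n) ℤ} (hQ : Q.IsSymm)
    (hdet : Q.det ≠ 0)
    (hiso : ∃ x y : Fin n → ℤ, LinearIndependent ℤ ![x, y] ∧ x ⬝ᵥ Q *ᵥ x = 0 ∧ x ⬝ᵥ Q *ᵥ y = 0 ∧
      y ⬝ᵥ Q *ᵥ y = 0) : QS (NSTMat_B Q) := by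
  have hs : (Q.map (Int.castRingHom ℚ))ᵀ = Q.map (Int.castRingHom ℚ) := by
    rw [← Matrix.transpose_map, hQ.eq]
  have hsymm : ∀ x y, NSTMat_B Q x y = NSTMat_B Q y x := fun x y => by
    rw [NSTMat_B_apply, NSTMat_B_apply, Matrix.dotProduct_mulVec, ← Matrix.mulVec_transpose, hs,
      dotProduct_comm]
  have hd : (Q.map (Int.castRingHom ℚ)).det ≠ 0 := by
    have := (Int.castRingHom ℚ).map_det Q
    rw [RingHom.mapMatrix_apply] at this
    rw [← this]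
    simpa using hdet
  refine ⟨hsymm, fun x hx => ?_, inferInstance, by simpa using hn, ?_⟩
  · have h0 : Q.map (Int.castRingHom ℚ) *ᵥ x = 0 := by
      funext i
      have := hx (Pi.single i 1)
      rw [hsymm, NSTMat_B_apply, single_one_dotProduct] at this
      exact this
    exact Matrix.eq_zero_of_mulVec_eq_zero hd h0
  · obtain ⟨x, y, hl, h1, h2, h3⟩ := hiso
    refine ⟨NSTMat_c n x, NSTMat_c n y, ?_, by rw [NSTMat_B_c, h1, Int.cast_zero],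
      by rw [NSTMat_B_c, h2, Int.cast_zero], by rw [NSTMat_B_c, h3, Int.cast_zero]⟩
    have h4 := hl.map' (NSTMat_c n) (LinearMap.ker_eq_bot.2 NSTMat_c_inj)
    have h5 : (NSTMat_c n) ∘ ![x, y] = ![NSTMat_c n x, NSTMat_c n y] := by
      funext i; fin_cases i <;> rfl
    rw [h5] at h4
    exact (LinearIndependent.iff_fractionRing ℤ ℚ).1 h4

/-- Normal subgroup theorem for integral orthogonal groups. -/
theorem nst_matrix {n : ℕ} (hn : 5 ≤ n) {Q : Matrix (Fin n) (Fin n) ℤ} (hQ : Q.IsSymm)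
    (hdet : Q.det ≠ 0)
    (hiso : ∃ x y : Fin n → ℤ, LinearIndependent ℤ ![x, y] ∧ x ⬝ᵥ Q *ᵥ x = 0 ∧ x ⬝ᵥ Q *ᵥ y = 0 ∧
      y ⬝ᵥ Q *ᵥ y = 0)
    {Γ : Subgroup (GL (Fin n) ℤ)} (hΓ : Γ ≤ orth Q) (hi : Γ.relIndex (orth Q) ≠ 0)
    (N : Subgroup Γ) [N.Normal] {d : Γ} (hd : d ∈ N) (h1 : (d : GL (Fin n) ℤ) ≠ 1)
    (h2 : (d : GL (Fin n) ℤ) ≠ -1) : N.FiniteIndex := by
  have hL : (LinearMap.range (NSTMat_c n)).FG := by
    rw [LinearMap.range_eq_map]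
    exact Module.Finite.fg_top.map _
  have hL' : Submodule.span ℚ ((LinearMap.range (NSTMat_c n) : Submodule ℤ (Fin n → ℚ)) :
      Set (Fin n → ℚ)) = ⊤ := by
    rw [eq_top_iff, ← (Pi.basisFun ℚ (Fin n)).span_eq]
    apply Submodule.span_mono
    rintro _ ⟨i, rfl⟩
    exact ⟨Pi.single i 1, by rw [NSTMat_c_single, Pi.basisFun_apply]⟩
  have hΓ' : Γ.map (NSTMat_j n) ≤ OL (NSTMat_B Q) (LinearMap.range (NSTMat_c n)) := by
    rw [← NSTMat_map_orth]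
    exact Subgroup.map_mono hΓ
  have hi' : (Γ.map (NSTMat_j n)).relIndex (OL (NSTMat_B Q) (LinearMap.range (NSTMat_c n))) ≠ 0 := by
    rwa [← NSTMat_map_orth, Subgroup.relIndex_map_map_of_injective _ _ NSTMat_j_inj]
  have hN : Nrm (Γ.map (NSTMat_j n)) ((N.map Γ.subtype).map (NSTMat_j n)) := by
    rintro _ ⟨γ, hγ, rfl⟩ _ ⟨_, ⟨x, hx, rfl⟩, rfl⟩
    have h3 : (⟨γ, hγ⟩ : Γ) * x * (⟨γ, hγ⟩ : Γ)⁻¹ ∈ N :=
      Subgroup.Normal.conj_mem inferInstance x hx _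
    have h4 := Subgroup.mem_map_of_mem (NSTMat_j n) (Subgroup.mem_map_of_mem Γ.subtype h3)
    rw [map_mul, map_mul, map_inv, map_mul, map_mul, map_inv] at h4
    exact h4
  have hneg : NSTMat_j n (-1) = LinearEquiv.neg ℚ := LinearEquiv.ext fun x => by
    rw [NSTMat_j_apply]
    simp [Matrix.map_neg, Matrix.neg_mulVec]
  have h := nst (NSTMat_QS hn hQ hdet hiso) hL hL' hΓ' hi' hN (d := NSTMat_j n d)
    ⟨d, ⟨d, hd, rfl⟩, rfl⟩ (hΓ' ⟨d, d.2, rfl⟩).1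
    (fun h => h1 (NSTMat_j_inj (by rw [h, map_one])))
    (fun h => h2 (NSTMat_j_inj (by rw [h, hneg])))
  rw [Subgroup.relIndex_map_map_of_injective _ _ NSTMat_j_inj, Subgroup.relIndex,
    Subgroup.subgroupOf, Subgroup.comap_map_eq_self_of_injective Γ.subtype_injective] at h
  exact ⟨h⟩

end Pool.Agent.P.MP_d483fb_an
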