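import Pool.Agent.P.MP_d483fb_an.SingB
import Pool.Agent.P.MP_d483fb_an.Bridge

set_option autoImplicit false

namespace Pool.Agent.P.MP_d483fb_an

open Classical in
theorem nerve_single {X : Type} [TopologicalSpace X] (S : Set X)
    (h : S.Nonempty → ContractibleSpace ↥S) :
    FT (bd X) (chn S) ∧ chi (bd X) (chn S) = if S.Nonempty then 1 else 0 := by
  by_cases hS : S.Nonempty
  · have := h hS
    rw [if_pos hS]
    obtain ⟨h0, h1⟩ := hr_contractible S
    exact ft_chi_point ((hr_subtype S 0).trans h0) fun n => (hr_subtype S (n + 1)).trans (h1 n)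
  · rw [if_neg hS, Set.not_nonempty_iff_eq_empty.1 hS, chn_empty]
    exact ft_chi_bot

theorem nerve_inter_insert {X ι : Type} [DecidableEq ι] (U : ι → Set X) (a : ι) {σ : Finset ι}
    (hσ : σ.Nonempty) : ⋂ i ∈ σ, (U a ∩ U i) = ⋂ i ∈ insert a σ, U i := by
  ext x
  obtain ⟨j, hj⟩ := hσ
  simp only [Set.mem_iInter, Set.mem_inter_iff, Finset.mem_insert]
  constructor
  · intro h i hi
    rcases hi with rfl | hi
    · exact (h j hj).1
    · exact (h i hi).2
  · intro h i hi
    exact ⟨h a (Or.inl rfl), h i (Or.inr hi)⟩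

open Classical in
theorem nerve_aux {X ι : Type} [TopologicalSpace X] (F : Finset ι) : ∀ (U : ι → Set X),
    (∀ i, IsOpen (U i)) →
    (∀ σ ⊆ F, σ.Nonempty → (⋂ i ∈ σ, U i).Nonempty → ContractibleSpace ↥(⋂ i ∈ σ, U i)) →
    FT (bd X) (chn (⋃ i ∈ F, U i)) ∧ chi (bd X) (chn (⋃ i ∈ F, U i)) =
      ∑ σ ∈ F.powerset,
        if σ.Nonempty ∧ (⋂ i ∈ σ, U i).Nonempty then (-1 : ℤ) ^ (σ.card + 1) else 0 := by
  induction F using Finset.induction_on with
  | empty =>
    intro U _ _
    have e : (⋃ i ∈ (∅ : Finset ι), U i) = ∅ := by simp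
    rw [e, chn_empty]
    refine ⟨ft_chi_bot.1, ?_⟩
    rw [ft_chi_bot.2]
    simp
  | insert a F ha ih =>
    intro U hU hg
    have hC := ih U hU fun σ hσ => hg σ (hσ.trans (Finset.subset_insert a F))
    have hI := ih (fun i => U a ∩ U i) (fun i => (hU a).inter (hU i)) (by
      intro σ hσ hne
      rw [nerve_inter_insert U a hne]
      exact hg _ (Finset.insert_subset_insert a hσ) (Finset.insert_nonempty a σ))
    have e1 : (⋂ i ∈ ({a} : Finset ι), U i) = U a := by simp
    have hA := nerve_single (U a) (by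
      rw [← e1]
      exact hg {a} (by simp) (Finset.singleton_nonempty a))
    have e2 : (⋃ i ∈ insert a F, U i) = U a ∪ ⋃ i ∈ F, U i := by simp
    have e3 : (⋃ i ∈ F, (U a ∩ U i)) = U a ∩ ⋃ i ∈ F, U i := by
      simp only [Set.inter_iUnion]
    have hCo : IsOpen (⋃ i ∈ F, U i) := isOpen_biUnion fun i _ => hU i
    rw [e3, chn_inter] at hI
    obtain ⟨m1, m2⟩ := mv (isCx_chn (U a)) (isCx_chn (⋃ i ∈ F, U i)) hA.1 hC.1 hI.1
    obtain ⟨c1, c2⟩ := ft_chi_congr (hr_union (hU a) hCo)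
    rw [e2]
    refine ⟨c1.2 m1, ?_⟩
    rw [c2, m2, hA.2, hC.2, hI.2, Finset.sum_powerset_insert ha]
    have key : ∀ σ ∈ F.powerset,
        (if (insert a σ).Nonempty ∧ (⋂ i ∈ insert a σ, U i).Nonempty
          then (-1 : ℤ) ^ ((insert a σ).card + 1) else 0) =
        (if σ = ∅ then (if (U a).Nonempty then (1 : ℤ) else 0) else 0) -
        (if σ.Nonempty ∧ (⋂ i ∈ σ, (U a ∩ U i)).Nonempty then (-1 : ℤ) ^ (σ.card + 1) else 0) := by
      intro σ hσ
      have haσ : a ∉ σ := fun h => ha (Finset.mem_powerset.1 hσ h)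
      rcases σ.eq_empty_or_nonempty with rfl | hne
      · simp
      · rw [if_neg hne.ne_empty, nerve_inter_insert U a hne, Finset.card_insert_of_notMem haσ]
        by_cases h : (⋂ i ∈ insert a σ, U i).Nonempty
        · rw [if_pos ⟨Finset.insert_nonempty a σ, h⟩, if_pos ⟨hne, h⟩]
          ring
        · rw [if_neg fun h' => h h'.2, if_neg fun h' => h h'.2]
          ring
    rw [Finset.sum_congr rfl key, Finset.sum_sub_distrib, Finset.sum_ite_eq',
      if_pos (Finset.empty_mem_powerset F)]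
    ring

open Classical in
/-- The Euler characteristic is computed by the nerve of a finite good cover. -/
theorem eulerChar_cover {X ι : Type} [TopologicalSpace X] (F : Finset ι) (U : ι → Set X)
    (hU : ∀ i, IsOpen (U i)) (hc : ⋃ i ∈ F, U i = Set.univ)
    (hg : ∀ σ ⊆ F, σ.Nonempty → (⋂ i ∈ σ, U i).Nonempty → ContractibleSpace ↥(⋂ i ∈ σ, U i)) :
    eulerChar X =
      ∑ σ ∈ F.powerset with σ.Nonempty ∧ (⋂ i ∈ σ, U i).Nonempty, (-1 : ℤ) ^ (σ.card + 1) := by
  have h := (nerve_aux F U hU hg).2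
  rw [hc, chn_univ] at h
  rw [eulerChar_eq_chi, h, Finset.sum_filter]

end Pool.Agent.P.MP_d483fb_an
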