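import Pool.Agent.P.MP_d483fb_an.Aff
import Pool.Agent.P.MP_d483fb_an.Diam

set_option autoImplicit false

namespace Pool.Agent.P.MP_d483fb_an

section Aux

variable {X : Type} [TopologicalSpace X]

/-- Realisation of formal chains in the standard simplex as singular chains along `σ`. -/
noncomputable def singAReal {n : ℕ} (σ : Simp X n) (k : ℕ) : AC (Dl n) k →ₗ[ℚ] Chn X k :=
  Finsupp.lmapDomain ℚ ℚ fun v : Fin (k + 1) → Dl n => σ.comp (aff v)

/-- The ordered family of vertices of the standard simplex. -/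
noncomputable def singAVert (n : ℕ) : Fin (n + 1) → Dl n := fun i => stdSimplex.vertex i

theorem singA_real_single {n : ℕ} (σ : Simp X n) (k : ℕ) (v : Fin (k + 1) → Dl n) :
    singAReal σ k (Finsupp.single v 1) = Finsupp.single (σ.comp (aff v)) 1 := by
  simp [singAReal]

theorem singA_bd_single (n : ℕ) (σ : Simp X (n + 1)) :
    bd X n (Finsupp.single σ 1) =
      ∑ i : Fin (n + 2), (-1 : ℚ) ^ (i : ℕ) • Finsupp.single (face i σ) (1 : ℚ) := by
  simp [bd]

/-- Linear maps on singular chains agree once they agree on simplices. -/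
theorem singA_ext {k : ℕ} {W : Type} [AddCommGroup W] [Module ℚ W] {f g : Chn X k →ₗ[ℚ] W}
    (h : ∀ σ, f (Finsupp.single σ 1) = g (Finsupp.single σ 1)) (c : Chn X k) : f c = g c := by
  have : f = g := Finsupp.lhom_ext' fun v => LinearMap.ext_ring (h v)
  rw [this]

theorem singA_bd_real {n : ℕ} (σ : Simp X n) (k : ℕ) (c : AC (Dl n) (k + 1)) :
    bd X k (singAReal σ (k + 1) c) = singAReal σ k (abd (Dl n) k c) := by
  refine aff_ext (f := bd X k ∘ₗ singAReal σ (k + 1)) (g := singAReal σ k ∘ₗ abd (Dl n) k)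
    (fun v => ?_) c
  rw [LinearMap.comp_apply, LinearMap.comp_apply, singA_real_single, singA_bd_single,
    aff_abd_single, map_sum]
  refine Finset.sum_congr rfl fun i _ => ?_
  rw [map_smul, singA_real_single, ← aff_face]
  rfl

theorem singA_real_vert {n : ℕ} (σ : Simp X n) :
    singAReal σ n (Finsupp.single (singAVert n) 1) = Finsupp.single σ 1 := by
  rw [singA_real_single]
  have : aff (singAVert n) = ContinuousMap.id _ := aff_id n
  rw [this, ContinuousMap.comp_id]

theorem singA_real_comp {n k : ℕ} (σ : Simp X n) (w : Fin (k + 1) → Dl n) (j : ℕ)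
    (c : AC (Dl k) j) :
    singAReal (σ.comp (aff w)) j c = singAReal σ j (amap j (aff w) c) := by
  refine aff_ext (f := singAReal (σ.comp (aff w)) j) (g := singAReal σ j ∘ₗ amap j (aff w))
    (fun v => ?_) c
  rw [LinearMap.comp_apply, singA_real_single, aff_amap_single, singA_real_single,
    ContinuousMap.comp_assoc, aff_comp]

theorem singA_aff_bary {n k : ℕ} (w : Fin (k + 1) → Dl n) (j : ℕ) (v : Fin (j + 1) → Dl k) :
    aff w (bary k j v) = bary n j (aff w ∘ v) := by
  rw [bary, bary, ← aff_comp]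
  rfl

theorem singA_aff_vert {n k : ℕ} (w : Fin (k + 1) → Dl n) : aff w ∘ singAVert k = w := by
  funext i
  exact aff_vertex w i

variable (X)

/-- Barycentric subdivision of singular chains. -/
noncomputable def singASd (n : ℕ) : Chn X n →ₗ[ℚ] Chn X n :=
  Finsupp.linearCombination ℚ fun σ : Simp X n =>
    singAReal σ n (asd (bary n) n (Finsupp.single (singAVert n) 1))

/-- The homotopy between the identity and the subdivision. -/
noncomputable def singAT (n : ℕ) : Chn X n →ₗ[ℚ] Chn X (n + 1) :=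
  Finsupp.linearCombination ℚ fun σ : Simp X n =>
    singAReal σ (n + 1) (aht (bary n) n (Finsupp.single (singAVert n) 1))

variable {X}

theorem singA_Sd_single {n : ℕ} (σ : Simp X n) :
    singASd X n (Finsupp.single σ 1) =
      singAReal σ n (asd (bary n) n (Finsupp.single (singAVert n) 1)) := by
  simp [singASd]

theorem singA_T_single {n : ℕ} (σ : Simp X n) :
    singAT X n (Finsupp.single σ 1) =
      singAReal σ (n + 1) (aht (bary n) n (Finsupp.single (singAVert n) 1)) := by
  simp [singAT]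

theorem singA_Sd_real {n : ℕ} (σ : Simp X n) (k : ℕ) (c : AC (Dl n) k) :
    singASd X k (singAReal σ k c) = singAReal σ k (asd (bary n) k c) := by
  refine aff_ext (f := singASd X k ∘ₗ singAReal σ k) (g := singAReal σ k ∘ₗ asd (bary n) k)
    (fun v => ?_) c
  rw [LinearMap.comp_apply, LinearMap.comp_apply, singA_real_single, singA_Sd_single,
    singA_real_comp, amap_asd (singA_aff_bary v), aff_amap_single, singA_aff_vert]

theorem singA_T_real {n : ℕ} (σ : Simp X n) (k : ℕ) (c : AC (Dl n) k) :
    singAT X k (singAReal σ k c) = singAReal σ (k + 1) (aht (bary n) k c) := by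
  refine aff_ext (f := singAT X k ∘ₗ singAReal σ k) (g := singAReal σ (k + 1) ∘ₗ aht (bary n) k)
    (fun v => ?_) c
  rw [LinearMap.comp_apply, LinearMap.comp_apply, singA_real_single, singA_T_single,
    singA_real_comp, amap_aht (singA_aff_bary v), aff_amap_single, singA_aff_vert]

theorem singA_Sd_pow_real {n : ℕ} (σ : Simp X n) (k m : ℕ) (c : AC (Dl n) k) :
    (singASd X k ^ m) (singAReal σ k c) = singAReal σ k ((asd (bary n) k ^ m) c) := by
  induction m with
  | zero => simp
  | succ m ih =>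
    rw [pow_succ', pow_succ', Module.End.mul_apply, Module.End.mul_apply, ih, singA_Sd_real]

theorem singA_single_mem {S : Set X} {k : ℕ} {τ : Simp X k} (h : Set.range τ ⊆ S) (a : ℚ) :
    Finsupp.single τ a ∈ chn S k :=
  Finsupp.single_mem_supported ℚ a h

theorem singA_real_mem {W : Type} [AddCommGroup W] [Module ℚ W] {ι : Type} (f : (ι →₀ ℚ) →ₗ[ℚ] W)
    (K : Submodule ℚ W) (c : ι →₀ ℚ) (h : ∀ v ∈ c.support, f (Finsupp.single v 1) ∈ K) :
    f c ∈ K := by
  rw [← Finsupp.sum_single c, Finsupp.sum, map_sum]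
  refine K.sum_mem fun v hv => ?_
  rw [← mul_one (c v), ← smul_eq_mul, ← Finsupp.smul_single, map_smul]
  exact K.smul_mem _ (h v hv)

theorem singA_real_chn {S : Set X} {n : ℕ} {σ : Simp X n} (h : Set.range σ ⊆ S) (k : ℕ)
    (c : AC (Dl n) k) : singAReal σ k c ∈ chn S k := by
  refine singA_real_mem _ _ c fun v _ => ?_
  rw [singA_real_single]
  refine singA_single_mem ?_ 1
  rintro _ ⟨t, rfl⟩
  exact h ⟨_, rfl⟩

end Aux

variable (X : Type) [TopologicalSpace X]

theorem bd_bd (n : ℕ) (c : Chn X (n + 2)) : bd X n (bd X (n + 1) c) = 0 := by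
  refine singA_ext (f := bd X n ∘ₗ bd X (n + 1)) (g := 0) (fun σ => ?_) c
  rw [LinearMap.comp_apply, ← singA_real_vert, singA_bd_real, singA_bd_real, abd_abd, map_zero,
    LinearMap.zero_apply]

/-- Barycentric subdivision of singular chains. -/
theorem exists_subdivision : ∃ (Sd : ∀ n, Chn X n →ₗ[ℚ] Chn X n)
    (T : ∀ n, Chn X n →ₗ[ℚ] Chn X (n + 1)),
    (∀ n c, bd X n (Sd (n + 1) c) = Sd n (bd X n c)) ∧
    (∀ c, bd X 0 (T 0 c) = c - Sd 0 c) ∧
    (∀ n c, bd X (n + 1) (T (n + 1) c) + T n (bd X n c) = c - Sd (n + 1) c) ∧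
    (∀ (S : Set X) n, ∀ c ∈ chn S n, Sd n c ∈ chn S n ∧ T n c ∈ chn S (n + 1)) ∧
    ∀ A C : Set X, IsOpen A → IsOpen C → ∀ n (σ : Simp X n), Set.range σ ⊆ A ∪ C →
      ∃ m : ℕ, (Sd n ^ m) (Finsupp.single σ 1) ∈ chn A n ⊔ chn C n := by
  refine ⟨singASd X, singAT X, fun n c => ?_, fun c => ?_, fun n c => ?_, fun S n c hc => ?_,
    fun A C hA hC n σ hσ => ?_⟩
  · refine singA_ext (f := bd X n ∘ₗ singASd X (n + 1)) (g := singASd X n ∘ₗ bd X n)
      (fun σ => ?_) c
    rw [LinearMap.comp_apply, LinearMap.comp_apply, ← singA_real_vert, singA_Sd_real,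
      singA_bd_real, singA_bd_real, singA_Sd_real, abd_asd]
  · refine singA_ext (f := bd X 0 ∘ₗ singAT X 0) (g := LinearMap.id - singASd X 0)
      (fun σ => ?_) c
    rw [LinearMap.comp_apply, LinearMap.sub_apply, LinearMap.id_apply, ← singA_real_vert,
      singA_T_real, singA_Sd_real]
    simp [aht, asd]
  · refine singA_ext (f := bd X (n + 1) ∘ₗ singAT X (n + 1) + singAT X n ∘ₗ bd X n)
      (g := LinearMap.id - singASd X (n + 1)) (fun σ => ?_) c
    rw [LinearMap.add_apply, LinearMap.comp_apply, LinearMap.comp_apply, LinearMap.sub_apply,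
      LinearMap.id_apply, ← singA_real_vert, singA_T_real, singA_Sd_real, singA_bd_real,
      singA_bd_real, singA_T_real, ← map_add, abd_aht, map_sub]
  · constructor
    · refine singA_real_mem _ _ c fun σ hσ => ?_
      rw [singA_Sd_single]
      exact singA_real_chn (hc hσ) _ _
    · refine singA_real_mem _ _ c fun σ hσ => ?_
      rw [singA_T_single]
      exact singA_real_chn (hc hσ) _ _
  · obtain ⟨δ, hδ, hL⟩ := lebesgue_number_lemma_of_metric (s := (Set.univ : Set (Dl n)))
      (c := fun b : Bool => σ ⁻¹' (if b then A else C)) isCompact_univ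
      (fun b => by
        cases b
        · exact hC.preimage σ.continuous
        · exact hA.preimage σ.continuous)
      (fun t _ => by
        rcases hσ ⟨t, rfl⟩ with h | h
        · exact Set.mem_iUnion.2 ⟨true, h⟩
        · exact Set.mem_iUnion.2 ⟨false, h⟩)
    obtain ⟨m, hm⟩ := exists_small n (half_pos hδ)
    refine ⟨m, ?_⟩
    rw [← singA_real_vert, singA_Sd_pow_real]
    refine singA_real_mem _ _ _ fun w hw => ?_
    rw [singA_real_single]
    obtain ⟨b, hb⟩ := hL (w 0) (Set.mem_univ _)
    have hr : Set.range (σ.comp (aff w)) ⊆ if b then A else C := by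
      rintro _ ⟨t, rfl⟩
      exact hb (Metric.mem_ball.2 (lt_of_le_of_lt (dist_aff_le w (fun i => hm w hw i 0) t)
        (half_lt_self hδ)))
    cases b
    · exact Submodule.mem_sup_right (singA_single_mem hr 1)
    · exact Submodule.mem_sup_left (singA_single_mem hr 1)

end Pool.Agent.P.MP_d483fb_an
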