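import Pool.Agent.P.MP_d483fb_an.SingA
import Pool.Agent.P.MP_d483fb_an.Rd

set_option autoImplicit false

namespace Pool.Agent.P.MP_d483fb_an

section Aux

variable {V : ℕ → Type} [∀ n, AddCommGroup (V n)] [∀ n, Module ℚ (V n)]
  {d : ∀ n, V (n + 1) →ₗ[ℚ] V n} {Sd : ∀ n, V n →ₗ[ℚ] V n} {T : ∀ n, V n →ₗ[ℚ] V (n + 1)}

theorem singB_step (h1 : ∀ n c, d n (Sd (n + 1) c) = Sd n (d n c))
    (h2 : ∀ c, d 0 (T 0 c) = c - Sd 0 c)
    (h3 : ∀ n c, d (n + 1) (T (n + 1) c) + T n (d n c) = c - Sd (n + 1) c)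
    {K : ∀ n, Submodule ℚ (V n)} (hK : ∀ n, ∀ c ∈ K n, Sd n c ∈ K n ∧ T n c ∈ K (n + 1))
    (n : ℕ) {z : V n} (hz : z ∈ cyc d K n) : Sd n z ∈ cyc d K n ∧ z - Sd n z ∈ bdy d K n := by
  cases n with
  | zero => exact ⟨(hK 0 z hz).1, T 0 z, (hK 0 z hz).2, h2 z⟩
  | succ n =>
    have h0 : d n z = 0 := hz.2
    refine ⟨⟨(hK _ z hz.1).1, ?_⟩, T (n + 1) z, (hK _ z hz.1).2, ?_⟩
    · show d n (Sd (n + 1) z) = 0
      rw [h1, h0, map_zero]
    · rw [← h3, h0, map_zero, add_zero]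

theorem singB_iter (h1 : ∀ n c, d n (Sd (n + 1) c) = Sd n (d n c))
    (h2 : ∀ c, d 0 (T 0 c) = c - Sd 0 c)
    (h3 : ∀ n c, d (n + 1) (T (n + 1) c) + T n (d n c) = c - Sd (n + 1) c)
    {K : ∀ n, Submodule ℚ (V n)} (hK : ∀ n, ∀ c ∈ K n, Sd n c ∈ K n ∧ T n c ∈ K (n + 1))
    (n : ℕ) {z : V n} (hz : z ∈ cyc d K n) (m : ℕ) :
    (Sd n ^ m) z ∈ cyc d K n ∧ z - (Sd n ^ m) z ∈ bdy d K n := by
  induction m with
  | zero => exact ⟨by simpa using hz, by simp⟩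
  | succ m ih =>
    obtain ⟨a, b⟩ := singB_step h1 h2 h3 hK n ih.1
    rw [pow_succ', Module.End.mul_apply]
    refine ⟨a, ?_⟩
    have := Submodule.add_mem _ ih.2 b
    rwa [sub_add_sub_cancel] at this

theorem singB_pow_comm (h1 : ∀ n c, d n (Sd (n + 1) c) = Sd n (d n c)) (n m : ℕ)
    (c : V (n + 1)) : d n ((Sd (n + 1) ^ m) c) = (Sd n ^ m) (d n c) := by
  induction m with
  | zero => simp
  | succ m ih => rw [pow_succ', pow_succ', Module.End.mul_apply, Module.End.mul_apply, h1, ih]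

theorem singB_pow_mem {W : Type} [AddCommGroup W] [Module ℚ W] {f : W →ₗ[ℚ] W}
    {K : Submodule ℚ W} (hK : ∀ c ∈ K, f c ∈ K) {c : W} (hc : c ∈ K) (m : ℕ) :
    (f ^ m) c ∈ K := by
  induction m with
  | zero => simpa using hc
  | succ m ih =>
    rw [pow_succ', Module.End.mul_apply]
    exact hK _ ih

/-- Vectors moved into the invariant subspace `K` by some power of `f`. -/
def singBEv {W : Type} [AddCommGroup W] [Module ℚ W] (f : W →ₗ[ℚ] W) (K : Submodule ℚ W)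
    (hK : ∀ c ∈ K, f c ∈ K) : Submodule ℚ W where
  carrier := {c | ∃ m : ℕ, (f ^ m) c ∈ K}
  zero_mem' := ⟨0, by simp⟩
  smul_mem' := fun a c ⟨m, hm⟩ => ⟨m, by rw [map_smul]; exact K.smul_mem a hm⟩
  add_mem' := fun {a b} ⟨m, hm⟩ ⟨k, hk⟩ => ⟨k + m, by
    rw [map_add]
    refine K.add_mem ?_ ?_
    · rw [pow_add, Module.End.mul_apply]
      exact singB_pow_mem hK hm k
    · rw [add_comm, pow_add, Module.End.mul_apply]
      exact singB_pow_mem hK hk m⟩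

end Aux

variable {X : Type} [TopologicalSpace X]

theorem singB_bd_mem {S : Set X} {n : ℕ} {c : Chn X (n + 1)} (hc : c ∈ chn S (n + 1)) :
    bd X n c ∈ chn S n := by
  refine singA_real_mem _ _ c fun σ hσ => ?_
  rw [singA_bd_single]
  refine Submodule.sum_mem _ fun i _ => Submodule.smul_mem _ _ (singA_single_mem ?_ 1)
  rintro _ ⟨t, rfl⟩
  exact hc hσ ⟨_, rfl⟩

theorem singB_isCx {K : ∀ n, Submodule ℚ (Chn X n)}
    (hK : ∀ n, ∀ c ∈ K (n + 1), bd X n c ∈ K n) : IsCx (bd X) K := by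
  rintro n _ ⟨c, hc, rfl⟩
  cases n with
  | zero => exact hK 0 c hc
  | succ n => exact ⟨hK _ c hc, bd_bd X n c⟩

theorem singB_mono {A C : Set X} (h : A ⊆ C) : chn A ≤ chn C := fun _ =>
  Finsupp.supported_mono fun _ hσ => Set.Subset.trans hσ h

theorem isCx_chn (S : Set X) : IsCx (bd X) (chn S) :=
  singB_isCx fun _ _ hc => singB_bd_mem hc

theorem chn_inter (A C : Set X) : chn (A ∩ C) = chn A ⊓ chn C := by
  funext n
  rw [Pi.inf_apply, chn, chn, chn, ← Finsupp.supported_inter]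
  congr 1
  ext σ
  exact Set.subset_inter_iff

theorem chn_univ : chn (Set.univ : Set X) = ⊤ := by
  funext n
  rw [Pi.top_apply, chn, ← Finsupp.supported_univ]
  congr 1
  ext σ
  simp

theorem chn_empty : chn (∅ : Set X) = ⊥ := by
  funext n
  rw [Pi.bot_apply, chn, ← Finsupp.supported_empty]
  congr 1
  ext σ
  simp only [Set.subset_empty_iff, Set.range_eq_empty_iff, Set.mem_empty_iff_false, iff_false]
  exact fun h => h.false (stdSimplex.vertex (0 : Fin (n + 1)))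

/-- Small chains compute the homology of a union of two open sets. -/
theorem hr_union {A C : Set X} (hA : IsOpen A) (hC : IsOpen C) (n : ℕ) :
    hr (bd X) (chn (A ∪ C)) n = hr (bd X) (chn A ⊔ chn C) n := by
  obtain ⟨Sd, T, h1, h2, h3, h4, h5⟩ := exists_subdivision X
  have hK : ∀ n, ∀ c ∈ (chn A ⊔ chn C) n,
      Sd n c ∈ (chn A ⊔ chn C) n ∧ T n c ∈ (chn A ⊔ chn C) (n + 1) := by
    intro n c hc
    obtain ⟨a, ha, b, hb, rfl⟩ := Submodule.mem_sup.1 hc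
    rw [map_add, map_add]
    exact ⟨Submodule.add_mem_sup (h4 A n a ha).1 (h4 C n b hb).1,
      Submodule.add_mem_sup (h4 A n a ha).2 (h4 C n b hb).2⟩
  have hcx : IsCx (bd X) (chn A ⊔ chn C) := singB_isCx fun n c hc => by
    obtain ⟨a, ha, b, hb, rfl⟩ := Submodule.mem_sup.1 hc
    rw [map_add]
    exact Submodule.add_mem_sup (singB_bd_mem ha) (singB_bd_mem hb)
  have small : ∀ n, ∀ c ∈ chn (A ∪ C) n, ∃ m : ℕ, (Sd n ^ m) c ∈ (chn A ⊔ chn C) n := by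
    intro n c hc
    exact singA_real_mem LinearMap.id (singBEv (Sd n) ((chn A ⊔ chn C) n) fun c hc => (hK n c hc).1)
      c fun σ hσ => h5 A C hA hC n σ (hc hσ)
  refine hr_eq_of_le hcx (isCx_chn _)
    (sup_le (singB_mono Set.subset_union_left) (singB_mono Set.subset_union_right)) n
    (fun z hz => ?_) fun z hz hb => ?_
  · obtain ⟨m, hm⟩ := small n z (Rd_cyc_le _ n hz)
    exact ⟨_, hm, (singB_iter h1 h2 h3 (h4 (A ∪ C)) n hz m).2⟩
  · have hz' : z ∈ cyc (bd X) (chn A ⊔ chn C) n := Rd_mem_cyc n hz (isCx_chn _ n hb)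
    obtain ⟨c, hc, rfl⟩ := hb
    obtain ⟨m, hm⟩ := small (n + 1) c hc
    have e : (Sd n ^ m) (bd X n c) ∈ bdy (bd X) (chn A ⊔ chn C) n :=
      ⟨_, hm, singB_pow_comm h1 n m c⟩
    have := Submodule.add_mem _ (singB_iter h1 h2 h3 hK n hz' m).2 e
    rwa [sub_add_cancel] at this

end Pool.Agent.P.MP_d483fb_an
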