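import Pool.Agent.P.MP_d483fb_an.Eich

set_option autoImplicit false

namespace Pool.Agent.P.MP_d483fb_an

variable {V : Type} [AddCommGroup V] [Module ℚ V] {B : LinearMap.BilinForm ℚ V}
  {Λ : Submodule ℤ V} {e₁ f₁ e₂ f₂ : V}

theorem smith_red (a : ℤ) {c : ℤ} (hc : c ≠ 0) :
    ∃ t : ℤ, a - t * c ≠ 0 ∧ (a - t * c).natAbs ≤ c.natAbs := by
  have h1 := Int.emod_nonneg a hc
  have h2 := Int.emod_lt_abs a hc
  have h3 : a - a / c * c = a % c := by rw [Int.emod_def]; ring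
  by_cases h : a % c = 0
  · refine ⟨a / c - 1, ?_⟩
    have e : a - (a / c - 1) * c = c := by rw [sub_mul, ← sub_add, h3, h]; ring
    rw [e]
    exact ⟨hc, le_rfl⟩
  · refine ⟨a / c, ?_⟩
    rw [h3]
    rw [Int.abs_eq_natAbs] at h2
    exact ⟨h, by omega⟩

theorem smith_red' (c : ℤ) {a : ℤ} (ha : a ≠ 0) : ∃ t : ℤ, (c + t * a).natAbs < a.natAbs := by
  have h1 := Int.emod_nonneg c ha
  have h2 := Int.emod_lt_abs c ha
  have h3 : c + -(c / a) * a = c % a := by rw [Int.emod_def]; ring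
  refine ⟨-(c / a), ?_⟩
  rw [h3]
  rw [Int.abs_eq_natAbs] at h2
  omega

theorem smith_four {P : ℤ → ℤ → ℤ → ℤ → Prop} (h0 : ∀ a b, P a b 0 0)
    (m1 : ∀ a b c d t, P (a - t * d) b (c + t * b) d → P a b c d)
    (m2 : ∀ a b c d t, P (a - t * c) b c (d + t * b) → P a b c d)
    (m3 : ∀ a b c d t, P a (b - t * d) (c + t * a) d → P a b c d)
    (m4 : ∀ a b c d t, P a (b - t * c) c (d + t * a) → P a b c d) (a b c d : ℤ) : P a b c d := by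
  have key : ∀ n : ℕ, ∀ a b c d : ℤ, a ≠ 0 → a.natAbs < n → P a b c d := by
    intro n
    induction n with
    | zero => intro a b c d _ h; omega
    | succ n ih =>
      intro a b c d ha hn
      obtain ⟨s, hs⟩ := smith_red' c ha
      obtain ⟨t, ht⟩ := smith_red' d ha
      refine m3 _ _ _ _ s (m4 _ _ _ _ t ?_)
      by_cases hc : c + s * a = 0
      · by_cases hd : d + t * a = 0
        · rw [hc, hd]
          exact h0 _ _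
        · obtain ⟨r, h1, h2⟩ := smith_red a hd
          exact m1 _ _ _ _ r (ih _ _ _ _ h1 (by omega))
      · obtain ⟨r, h1, h2⟩ := smith_red a hc
        exact m2 _ _ _ _ r (ih _ _ _ _ h1 (by omega))
  by_cases hc : c = 0
  · by_cases hd : d = 0
    · rw [hc, hd]
      exact h0 _ _
    · obtain ⟨r, h1, -⟩ := smith_red a hd
      exact m1 _ _ _ _ r (key _ _ _ _ _ h1 (Nat.lt_succ_self _))
  · obtain ⟨r, h1, -⟩ := smith_red a hc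
    exact m2 _ _ _ _ r (key _ _ _ _ _ h1 (Nat.lt_succ_self _))

theorem smith_two {P : ℤ → ℤ → Prop} (h0 : ∀ x, P x 0) (m1 : ∀ x y t, P (x - t * y) y → P x y)
    (m2 : ∀ x y t, P x (y + t * x) → P x y) (x y : ℤ) : P x y := by
  have key : ∀ n : ℕ, ∀ x y : ℤ, y.natAbs < n → P x y := by
    intro n
    induction n with
    | zero => intro x y h; omega
    | succ n ih =>
      intro x y hn
      by_cases hy : y = 0
      · rw [hy]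
        exact h0 _
      · obtain ⟨r, h1, h2⟩ := smith_red x hy
        obtain ⟨s, hs⟩ := smith_red' y h1
        exact m1 _ _ r (m2 _ _ s (ih _ _ (by omega)))
  exact key _ _ _ (Nat.lt_succ_self _)

theorem smith_apply (hB : ∀ x y, B x y = B y x) {z u : V} (hz : B z z = 0) (hu : B z u = 0)
    (hu' : B u u = 0) (t : ℤ) (x : V) :
    (eich B z u ^ t) x = x + ((t : ℚ) * B z x) • u - ((t : ℚ) * B u x) • z := by
  rw [← eich_intCast_smul hB hz hu, eich_apply hB hz (by simp [hu])]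
  simp only [map_smul, LinearMap.smul_apply, smul_eq_mul, hu']
  module

theorem H4_le_OL (hΛ : Lat B Λ) (hF : Frame B Λ e₁ f₁ e₂ f₂) : H4 B e₁ f₁ e₂ f₂ ≤ OL B Λ := by
  refine (Subgroup.closure_le _).mpr ?_
  rintro g (rfl | rfl | rfl | rfl)
  · exact eich_mem_OL hΛ hF.me₁ hF.me₂
  · exact eich_mem_OL hΛ hF.me₁ hF.mf₂
  · exact eich_mem_OL hΛ hF.mf₁ hF.me₂
  · exact eich_mem_OL hΛ hF.mf₁ hF.mf₂

theorem H4_fix (hΛ : Lat B Λ) (hF : Frame B Λ e₁ f₁ e₂ f₂) {h : V ≃ₗ[ℚ] V}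
    (hh : h ∈ H4 B e₁ f₁ e₂ f₂) {x : V} (hx : Perp B e₁ f₁ e₂ f₂ x) : h x = x := by
  obtain ⟨h1, h2, h3, h4⟩ := hx
  induction hh using Subgroup.closure_induction with
  | mem g hg =>
    rcases hg with rfl | rfl | rfl | rfl
    · exact eich_fix hΛ.symm hF.e₁e₁ hF.e₁e₂ h1 h3
    · exact eich_fix hΛ.symm hF.e₁e₁ hF.e₁f₂ h1 h4
    · exact eich_fix hΛ.symm hF.f₁f₁ hF.f₁e₂ h2 h3
    · exact eich_fix hΛ.symm hF.f₁f₁ hF.f₁f₂ h2 h4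
  | one => rfl
  | mul g g' _ _ a b => rw [mul_apply', b, a]
  | inv g _ a =>
    conv_lhs => rw [← a]
    exact inv_apply_apply' g x

/-- Smith normal form. -/
theorem smith (hΛ : Lat B Λ) (hF : Frame B Λ e₁ f₁ e₂ f₂) {v : V} (hv : v ∈ Λ) :
    ∃ h ∈ H4 B e₁ f₁ e₂ f₂, B e₂ (h v) = 0 ∧ B f₂ (h v) = 0 := by
  have hB := hΛ.symm
  have s1 : B f₁ e₁ = 1 := (hB _ _).trans hF.e₁f₁
  have s2 : B f₂ e₂ = 1 := (hB _ _).trans hF.e₂f₂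
  have s3 : B e₂ e₁ = 0 := (hB _ _).trans hF.e₁e₂
  have s4 : B f₂ e₁ = 0 := (hB _ _).trans hF.e₁f₂
  have s5 : B e₂ f₁ = 0 := (hB _ _).trans hF.f₁e₂
  have s6 : B f₂ f₁ = 0 := (hB _ _).trans hF.f₁f₂
  have step : ∀ g ∈ ({eich B e₁ e₂, eich B e₁ f₂, eich B f₁ e₂, eich B f₁ f₂} : Set _),
      ∀ (t : ℤ) (v : V), (∃ h ∈ H4 B e₁ f₁ e₂ f₂, B e₂ (h ((g ^ t) v)) = 0 ∧
        B f₂ (h ((g ^ t) v)) = 0) → ∃ h ∈ H4 B e₁ f₁ e₂ f₂, B e₂ (h v) = 0 ∧ B f₂ (h v) = 0 := by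
    rintro g hg t v ⟨h, h1, h2⟩
    exact ⟨h * g ^ t, Subgroup.mul_mem _ h1 (Subgroup.zpow_mem _ (Subgroup.subset_closure hg) t), h2⟩
  obtain ⟨a, ha⟩ := hΛ.int hF.mf₁ hv
  obtain ⟨b, hb⟩ := hΛ.int hF.me₁ hv
  obtain ⟨c, hc⟩ := hΛ.int hF.mf₂ hv
  obtain ⟨d, hd⟩ := hΛ.int hF.me₂ hv
  refine smith_four (P := fun a b c d => ∀ v, B f₁ v = a → B e₁ v = b → B f₂ v = c →
    B e₂ v = d → ∃ h ∈ H4 B e₁ f₁ e₂ f₂, B e₂ (h v) = 0 ∧ B f₂ (h v) = 0)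
    (fun a b v _ _ hc hd => ⟨1, Subgroup.one_mem _, by simpa using hd, by simpa using hc⟩)
    (fun a b c d t ih v ha hb hc hd => step (eich B e₁ e₂) (by simp) t v (ih _ ?_ ?_ ?_ ?_))
    (fun a b c d t ih v ha hb hc hd => step (eich B e₁ f₂) (by simp) t v (ih _ ?_ ?_ ?_ ?_))
    (fun a b c d t ih v ha hb hc hd => step (eich B f₁ e₂) (by simp) t v (ih _ ?_ ?_ ?_ ?_))
    (fun a b c d t ih v ha hb hc hd => step (eich B f₁ f₂) (by simp) t v (ih _ ?_ ?_ ?_ ?_))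
    a b c d v ha hb hc hd
  all_goals
    first
    | rw [smith_apply hB hF.e₁e₁ hF.e₁e₂ hF.e₂e₂]
    | rw [smith_apply hB hF.e₁e₁ hF.e₁f₂ hF.f₂f₂]
    | rw [smith_apply hB hF.f₁f₁ hF.f₁e₂ hF.e₂e₂]
    | rw [smith_apply hB hF.f₁f₁ hF.f₁f₂ hF.f₂f₂]
  all_goals
    simp [ha, hb, hc, hd, s1, s2, s3, s4, s5, s6, hF.e₁e₁, hF.f₁f₁, hF.e₂e₂, hF.f₂f₂, hF.e₁f₁,
      hF.e₂f₂, hF.e₁e₂, hF.e₁f₂, hF.f₁e₂, hF.f₁f₂]

theorem Lvl.conj (hΛ : Lat B Λ) {m : ℕ} {K : Subgroup (V ≃ₗ[ℚ] V)} (hK : Nrm (OL B Λ) K) {z : V}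
    (hz : B z z = 0) (h : Lvl B Λ m K z) {g : V ≃ₗ[ℚ] V} (hg : g ∈ OL B Λ) :
    Lvl B Λ m K (g z) := by
  intro u hu hzu
  rw [OG_left hg.1] at hzu
  have h1 := hK g hg _ (h (g⁻¹ u) ((((OL B Λ).inv_mem hg).2 u).2 hu) hzu)
  rwa [eich_conj hΛ.symm hg.1 hz (by rw [map_smul, hzu, smul_zero]), map_smul,
    apply_inv_apply'] at h1

theorem lvl_plane (hΛ : Lat B Λ) (hF : Frame B Λ e₁ f₁ e₂ f₂) {m : ℕ} {K : Subgroup (V ≃ₗ[ℚ] V)}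
    (hK : Nrm (OL B Λ) K) (h₁ : Lvl B Λ m K e₁) (h₁' : Lvl B Λ m K f₁) (x y : ℤ) :
    Lvl B Λ m K ((x : ℚ) • e₁ + (y : ℚ) • e₂) := by
  have hB := hΛ.symm
  have s1 : B f₁ e₁ = 1 := (hB _ _).trans hF.e₁f₁
  have s2 : B f₂ e₂ = 1 := (hB _ _).trans hF.e₂f₂
  have s3 : B e₂ e₁ = 0 := (hB _ _).trans hF.e₁e₂
  have s4 : B f₂ e₁ = 0 := (hB _ _).trans hF.e₁f₂
  have step : ∀ g ∈ OL B Λ, ∀ x y x' y' : ℤ,
      g ((x' : ℚ) • e₁ + (y' : ℚ) • e₂) = (x : ℚ) • e₁ + (y : ℚ) • e₂ →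
      Lvl B Λ m K ((x' : ℚ) • e₁ + (y' : ℚ) • e₂) → Lvl B Λ m K ((x : ℚ) • e₁ + (y : ℚ) • e₂) := by
    intro g hg x y x' y' e h
    rw [← e]
    exact h.conj hΛ hK (by simp [hF.e₁e₁, hF.e₂e₂, hF.e₁e₂, s3]) hg
  refine smith_two (P := fun x y => Lvl B Λ m K ((x : ℚ) • e₁ + (y : ℚ) • e₂))
    (fun x u hu hzu => ?_)
    (fun x y t => step (eich B e₁ f₂ ^ (-t))
      (Subgroup.zpow_mem _ (eich_mem_OL hΛ hF.me₁ hF.mf₂) _) _ _ _ _ ?_)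
    (fun x y t => step (eich B f₁ e₂ ^ (-t))
      (Subgroup.zpow_mem _ (eich_mem_OL hΛ hF.mf₁ hF.me₂) _) _ _ _ _ ?_) x y
  · rw [Int.cast_zero, zero_smul, add_zero] at hzu ⊢
    by_cases hx : (x : ℚ) = 0
    · rw [hx, zero_smul, eich_zero_left]
      exact K.one_mem
    · have h0 : B e₁ u = 0 := by simpa [hx] using hzu
      rw [eich_smul_left hB hF.e₁e₁ (by simp [h0]), smul_comm]
      exact h₁ _ (intCast_smul_mem hu x) (by simp [h0])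
  · rw [smith_apply hB hF.e₁e₁ hF.e₁f₂ hF.f₂f₂]
    simp only [map_add, map_smul, smul_eq_mul, hF.e₁e₁, hF.e₁e₂, s2, s4]
    push_cast
    module
  · rw [smith_apply hB hF.f₁f₁ hF.f₁e₂ hF.e₂e₂]
    simp only [map_add, map_smul, smul_eq_mul, hF.f₁e₂, hF.e₂e₂, s1, s3]
    push_cast
    module

end Pool.Agent.P.MP_d483fb_an
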